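import Pool.Agent.Helper10.LB.InfLine
import Pool.Agent.Helper8.LG.Reduce

/-! # LB-FL: the integral points lie on finitely many lines -/

set_option autoImplicit false

namespace Pool.Agent.Helper10.LB

open scoped BigOperators
open Pool.Agent.Helper8.LG

/-- If every infinite subset of `S` has infinitely many points on one line, then `S` is contained
in finitely many lines. -/
theorem greedy {L σ : Type*} [Field L] [Fintype σ] (S : Set (σ → L))
    (h : ∀ S' ⊆ S, S'.Infinite → ∃ W : Submodule L (σ → L), Module.finrank L W ≤ 2 ∧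
      (S' ∩ W).Infinite) (i₀ : σ) (h1 : ∀ x ∈ S, x i₀ = 1) :
    ∃ Λ : Set (Submodule L (σ → L)), Λ.Finite ∧ (∀ W ∈ Λ, Module.finrank L W ≤ 2) ∧
      ∀ x ∈ S, ∃ W ∈ Λ, x ∈ W := by
  classical
  by_contra hcon
  have hpair : ∀ u v : σ → L, Module.finrank L (Submodule.span L ({u, v} : Set (σ → L))) ≤ 2 := by
    intro u v
    refine (finrank_span_le_card ({u, v} : Set (σ → L))).trans ?_
    rw [Set.toFinset_card, Fintype.card_ofFinset]
    exact Finset.card_le_two
  have hstep : ∀ F : Finset (σ → L), ∃ x, x ∈ S ∧ ∀ u ∈ F, ∀ v ∈ F,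
      x ∉ Submodule.span L ({u, v} : Set (σ → L)) := by
    intro F
    by_contra hF
    push Not at hF
    refine hcon ⟨((F ×ˢ F).image fun p => Submodule.span L ({p.1, p.2} : Set (σ → L)) :
      Finset (Submodule L (σ → L))), Finset.finite_toSet _, ?_, ?_⟩
    · intro W hW
      obtain ⟨p, -, rfl⟩ := Finset.mem_image.1 (Finset.mem_coe.1 hW)
      exact hpair p.1 p.2
    · intro x hx
      obtain ⟨u, hu, v, hv, hm⟩ := hF x hx
      exact ⟨_, Finset.mem_coe.2 (Finset.mem_image.2 ⟨(u, v), Finset.mk_mem_product hu hv, rfl⟩), hm⟩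
  choose g hgS hg using hstep
  let F : ℕ → Finset (σ → L) := fun n => Nat.rec ∅ (fun _ G => insert (g G) G) n
  have hF1 : ∀ n, F (n + 1) = insert (g (F n)) (F n) := fun n => rfl
  have hmem : ∀ n i, i < n → g (F i) ∈ F n := by
    intro n
    induction n with
    | zero => intro i hi; omega
    | succ n ih =>
      intro i hi
      rw [hF1]
      rcases Nat.lt_succ_iff_lt_or_eq.1 hi with h' | h'
      · exact Finset.mem_insert_of_mem (ih i h')
      · rw [h']
        exact Finset.mem_insert_self _ _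
  have hsp : ∀ i j m, i < m → j < m →
      g (F m) ∉ Submodule.span L ({g (F i), g (F j)} : Set (σ → L)) := fun i j m hi hj =>
    hg (F m) _ (hmem m i hi) _ (hmem m j hj)
  have hne : ∀ i m, i < m → g (F i) ≠ g (F m) := by
    intro i m him heq
    apply hsp i i m him him
    rw [← heq]
    exact Submodule.subset_span (Set.mem_insert _ _)
  have hinj : Function.Injective fun n => g (F n) := by
    intro i j hij
    rcases lt_trichotomy i j with h' | h' | h'
    · exact absurd hij (hne i j h')
    · exact h'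
    · exact absurd hij.symm (hne j i h')
  obtain ⟨W, hW, hWi⟩ := h (Set.range fun n => g (F n)) (by
    rintro _ ⟨n, rfl⟩
    exact hgS (F n)) (Set.infinite_range_of_injective hinj)
  have hI : {n | g (F n) ∈ W}.Infinite := by
    intro hfin
    apply hWi
    refine (hfin.image fun n => g (F n)).subset ?_
    rintro _ ⟨⟨n, rfl⟩, hn⟩
    exact ⟨n, hn, rfl⟩
  obtain ⟨i, hi⟩ := hI.nonempty
  obtain ⟨j, hj, hij⟩ := hI.exists_gt i
  obtain ⟨m, hm, hjm⟩ := hI.exists_gt j
  have hx0 : g (F i) ≠ 0 := by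
    intro h0
    have h2 := h1 _ (hgS (F i))
    rw [h0] at h2
    exact zero_ne_one h2
  have hlin : LinearIndependent L ![g (F i), g (F j)] := by
    rw [LinearIndependent.pair_iff' hx0]
    intro a ha
    apply hsp i i j hij hij
    rw [← ha]
    exact Submodule.smul_mem _ _ (Submodule.subset_span (Set.mem_insert _ _))
  have hr : Set.range ![g (F i), g (F j)] = {g (F i), g (F j)} := by
    ext y
    simp [or_comm]
  have hfr := finrank_span_eq_card hlin
  rw [hr, Fintype.card_fin] at hfr
  have hle : Submodule.span L ({g (F i), g (F j)} : Set (σ → L)) ≤ W := by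
    rw [Submodule.span_le]
    rintro y (rfl | rfl)
    · exact hi
    · exact hj
  have heq := Submodule.eq_of_le_of_finrank_le hle (by rw [hfr]; exact hW)
  apply hsp i j m (hij.trans hjm) hjm
  rw [heq]
  exact hm

/-- **The integral points lie on finitely many lines** (over any field of constants). -/
theorem fin_lines {k₀ L : Type*} [Field k₀] [Field L] [CharZero L] [Algebra k₀ L]
    (hfg : (⊤ : IntermediateField k₀ L).FG)
    {σ ι : Type*} [Fintype σ] [DecidableEq σ] [Fintype ι] [DecidableEq ι]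
    (d : ι → ℕ) (hd : ∀ i, 0 < d i) (a : (i : ι) → Sym σ (d i) → L) (c : ℕ)
    (hc : (Fintype.card (Ix σ d) : Cardinal) ≤ Algebra.trdeg k₀
      (IntermediateField.adjoin k₀ (Set.range fun p : Ix σ d => a p.1 p.2)) + c)
    (Z : Finset ι) (i₀ : σ)
    (hw1 : 2 * Fintype.card σ + c ≤ ∑ i, d i + Z.card + 1)
    (hw2 : Fintype.card σ + 1 ≤ ∑ i, d i)
    (A : Subalgebra k₀ L) (hA : A.FG) :
    ∃ Λ : Set (Submodule L (σ → L)), Λ.Finite ∧ (∀ W ∈ Λ, Module.finrank L W ≤ 2) ∧
      ∀ x : σ → L, x i₀ = 1 → Pt a Z A.toSubring x → ∃ W ∈ Λ, x ∈ W := by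
  classical
  suffices hmain : ∀ S' ⊆ {x : σ → L | x i₀ = 1 ∧ Pt a Z A.toSubring x}, S'.Infinite →
      ∃ W : Submodule L (σ → L), Module.finrank L W ≤ 2 ∧ (S' ∩ W).Infinite by
    obtain ⟨Λ, h1, h2, h3⟩ := greedy _ hmain i₀ (fun x hx => hx.1)
    exact ⟨Λ, h1, h2, fun x hx hp => h3 x ⟨hx, hp⟩⟩
  intro S' hS' hinf
  by_cases hj : ∃ j₁ : σ, j₁ ≠ i₀
  · obtain ⟨j₁, hj₁⟩ := hj
    obtain ⟨T, k, hT, hind, hfin, D, θ, hD, hDk⟩ := reduce hfg d a c hc
    obtain ⟨s, hs⟩ := hA
    set A' : Subalgebra k L := Algebra.adjoin k (s : Set L) with hA'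
    have hAA' : ∀ f ∈ A, f ∈ A' := by
      intro f hf
      rw [← hs] at hf
      induction hf using Algebra.adjoin_induction with
      | mem x hx => exact Algebra.subset_adjoin hx
      | algebraMap r =>
        have h1 : algebraMap k₀ L r = algebraMap k L (algebraMap k₀ k r) :=
          IsScalarTower.algebraMap_apply k₀ k L r
        rw [h1]
        exact A'.algebraMap_mem _
      | add x y _ _ hx hy => exact add_mem hx hy
      | mul x y _ _ hx hy => exact mul_mem hx hy
    obtain ⟨α, β, p, q, -, -, -, -, -, hline⟩ := inf_line d hd a T hind hfin D (fun j => j.1) θ hD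
      (fun j => j.2) hDk Z i₀ j₁ hj₁ (by omega) hw2 A' ⟨s, rfl⟩ S' hinf (by
        intro x hx
        obtain ⟨hx1, hx2⟩ := hS' hx
        refine ⟨hx1, hx2.zero, hx2.ne, ?_⟩
        intro i hi J
        exact (hx2.int i hi J).map_of_comp_eq (Subring.inclusion (S := A.toSubring)
          (T := A'.toSubring) (fun f hf => hAA' f hf)) (RingHom.id L) rfl)
    refine ⟨Submodule.span L ({p, q} : Set (σ → L)), ?_, hline.mono ?_⟩
    · refine (finrank_span_le_card ({p, q} : Set (σ → L))).trans ?_
      rw [Set.toFinset_card, Fintype.card_ofFinset]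
      exact Finset.card_le_two
    · rintro x ⟨hx, hxl⟩
      refine ⟨hx, Submodule.mem_span_pair.2 ⟨x α, x β, ?_⟩⟩
      funext l
      rw [hxl l]
      rfl
  · push Not at hj
    exfalso
    apply hinf
    have hsub : S'.Subsingleton := by
      intro x hx y hy
      funext l
      rw [hj l, (hS' hx).1, (hS' hy).1]
    exact hsub.finite

end Pool.Agent.Helper10.LB
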