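import Pool.Agent.Helper8.LG.SecExt

/-! # LB-SZ: schemes of finite type over a finitely generated ring -/

set_option autoImplicit false

open AlgebraicGeometry CategoryTheory CategoryTheory.Limits

namespace Pool.Agent.Helper10.LB

open Pool.Agent.Helper8.LG

universe u

/-- copy of `Helper8.LG.exists_affine_ft` over `ℤ` -/
theorem exists_affine_ftZ (R : CommRingCat.{u}) [Algebra.FiniteType ℤ R] {B : Scheme.{u}}
    [IsIntegral B] (s : B ⟶ Spec R) [LocallyOfFiniteType s] [CharZero B.functionField] :
    ∃ (V : B.Opens) (_ : Nonempty V), IsAffineOpen V ∧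
      (∃ A : Subalgebra ℤ B.functionField, A.FG ∧
        ∀ b : Γ(B, V), B.germToFunctionField V b ∈ A) ∧
      (⊤ : IntermediateField ℚ B.functionField).FG := by
  classical
  obtain ⟨_, ⟨V, hV, rfl⟩, hmem, -⟩ :=
    B.isBasis_affineOpens.exists_subset_of_mem_open (Set.mem_univ (genericPoint B)) isOpen_univ
  have hV' : IsAffineOpen V := hV
  have hne : Nonempty V := ⟨⟨_, hmem⟩⟩
  have e : V ≤ s ⁻¹ᵁ ⊤ := le_top
  have hft : (s.appLE ⊤ V e).hom.FiniteType :=
    s.finiteType_appLE (isAffineOpen_top (Spec R)) hV' e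
  have hft2 : ((s.appLE ⊤ V e).hom.comp (Scheme.ΓSpecIso R).inv.hom).FiniteType := by
    apply RingHom.FiniteType.comp hft
    apply RingHom.FiniteType.of_surjective
    exact (ConcreteCategory.bijective_of_isIso (Scheme.ΓSpecIso R).inv).2
  have hR : (algebraMap ℤ R).FiniteType :=
    RingHom.finiteType_algebraMap.2 inferInstance
  have hft3 := hft2.comp hR
  have hZ : ((s.appLE ⊤ V e).hom.comp (Scheme.ΓSpecIso R).inv.hom).comp (algebraMap ℤ R) =
      algebraMap ℤ Γ(B, V) := RingHom.ext_int _ _
  rw [hZ] at hft3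
  have hft4 : Algebra.FiniteType ℤ Γ(B, V) := RingHom.finiteType_algebraMap.1 hft3
  obtain ⟨T, hT⟩ := hft4.out
  let γ : Γ(B, V) →+* B.functionField := (B.germToFunctionField V).hom
  let A : Subalgebra ℤ B.functionField := Algebra.adjoin ℤ ((T.image γ : Finset _) : Set _)
  have hA : ∀ b : Γ(B, V), γ b ∈ A := by
    intro b
    have hb : b ∈ Algebra.adjoin ℤ (T : Set Γ(B, V)) := by
      rw [hT]; trivial
    induction hb using Algebra.adjoin_induction with
    | mem x hx =>
      apply Algebra.subset_adjoin
      simp only [Finset.coe_image]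
      exact ⟨x, hx, rfl⟩
    | algebraMap r =>
      have h1 : γ (algebraMap ℤ Γ(B, V) r) = algebraMap ℤ B.functionField r := by
        simp
      rw [h1]
      exact A.algebraMap_mem r
    | add x y _ _ hx hy => rw [map_add]; exact A.add_mem hx hy
    | mul x y _ _ hx hy => rw [map_mul]; exact A.mul_mem hx hy
  refine ⟨V, hne, hV', ⟨A, ⟨_, rfl⟩, hA⟩, ⟨T.image γ, ?_⟩⟩
  rw [eq_top_iff]
  intro x _
  have := functionField_isFractionRing_of_isAffineOpen B V hV'
  obtain ⟨a, b, -, hx⟩ := IsFractionRing.div_surjective (A := Γ(B, V)) x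
  have hsub : ∀ c : Γ(B, V), γ c ∈ IntermediateField.adjoin ℚ
      ((T.image γ : Finset _) : Set B.functionField) := by
    intro c
    have hc : γ c ∈ Algebra.adjoin ℤ ((T.image γ : Finset _) : Set B.functionField) := hA c
    generalize γ c = z at hc
    induction hc using Algebra.adjoin_induction with
    | mem x hx => exact IntermediateField.subset_adjoin ℚ _ hx
    | algebraMap r =>
      have h1 : algebraMap ℤ B.functionField r = ((r : ℤ) : B.functionField) := by simp
      rw [h1]
      exact intCast_mem _ r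
    | add x y _ _ hx hy => exact add_mem hx hy
    | mul x y _ _ hx hy => exact mul_mem hx hy
  rw [← hx]
  exact IntermediateField.div_mem _ (hsub a) (hsub b)

end Pool.Agent.Helper10.LB
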