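import Pool.Agent.Helper74.LG.Units

/-! # LB-UU: the unit equation over finitely generated domains in any universe -/

set_option autoImplicit false

namespace Pool.Agent.Helper10.LB

universe u

theorem units_finiteU (R : Type u) [CommRing R] [IsDomain R] [Algebra.FiniteType ℤ R]
    [CharZero R] : {u : R | IsUnit u ∧ IsUnit (1 - u)}.Finite := by
  obtain ⟨n, f, hf⟩ := Algebra.FiniteType.iff_quotient_mvPolynomial''.1
    (inferInstance : Algebra.FiniteType ℤ R)
  obtain ⟨Q, _, ⟨e⟩⟩ : ∃ (Q : Type) (_ : CommRing Q), Nonempty (Q ≃+* R) :=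
    ⟨MvPolynomial (Fin n) ℤ ⧸ RingHom.ker f, inferInstance,
      ⟨RingHom.quotientKerEquivOfSurjective hf⟩⟩
  have : IsDomain Q := e.toMulEquiv.isDomain R
  have : CharZero Q :=
    ⟨fun a b hab => by
      have h := congrArg e hab
      rw [map_natCast, map_natCast] at h
      exact Nat.cast_injective h⟩
  have : Algebra.FiniteType ℤ Q :=
    Algebra.FiniteType.of_surjective (RingHom.toIntAlgHom (e.symm : R →+* Q)) e.symm.surjective
  have h := Pool.Agent.Helper74.LG.units_finite Q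
  refine (h.image e).subset ?_
  rintro u ⟨h1, h2⟩
  refine ⟨e.symm u, ⟨h1.map e.symm, ?_⟩, e.apply_symm_apply u⟩
  have h3 := h2.map e.symm
  rwa [map_sub, map_one] at h3

/-- in a field: units of a finitely generated subring -/
theorem units_field {K : Type u} [Field K] [CharZero K] (A : Subalgebra ℤ K) (hA : A.FG) :
    {u : K | u ≠ 0 ∧ u ≠ 1 ∧ u ∈ A ∧ u⁻¹ ∈ A ∧ (1 - u)⁻¹ ∈ A}.Finite := by
  have : Algebra.FiniteType ℤ A := A.fg_iff_finiteType.1 hA
  have : CharZero A := ⟨fun a b hab => by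
    have h := congrArg (algebraMap A K) hab
    rw [map_natCast, map_natCast] at h
    exact Nat.cast_injective h⟩
  have h := units_finiteU A
  refine (h.image (fun z : A => (z : K))).subset ?_
  rintro u ⟨h0, h1, h2, h3, h4⟩
  refine ⟨⟨u, h2⟩, ⟨?_, ?_⟩, rfl⟩
  · refine IsUnit.of_mul_eq_one ⟨u⁻¹, h3⟩ (Subtype.ext ?_)
    exact mul_inv_cancel₀ h0
  · refine IsUnit.of_mul_eq_one ⟨(1 - u)⁻¹, h4⟩ (Subtype.ext ?_)
    exact mul_inv_cancel₀ (sub_ne_zero.2 (Ne.symm h1))

end Pool.Agent.Helper10.LB
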