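import Pool.Agent.Helper10.LB.PolyD
import Pool.Agent.Helper10.LB.UnitsU

/-! # LB-LA: integral points on a line, arithmetic rings -/

set_option autoImplicit false

namespace Pool.Agent.Helper10.LB

open scoped BigOperators
open Polynomial Pool.Agent.Helper8.LG

/-- products of linear combinations of `y`, `y'` -/
theorem la_lin {E : Type*} [Field E] (A : Subalgebra ℤ E) {d : ℕ} {y y' F α β γ δ : E}
    (hy : ∀ m ≤ d, y ^ m * y' ^ (d - m) / F ∈ A)
    (hα : α ∈ A) (hβ : β ∈ A) (hγ : γ ∈ A) (hδ : δ ∈ A) {j : ℕ} (hj : j ≤ d) :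
    (α * y + β * y') ^ j * (γ * y + δ * y') ^ (d - j) / F ∈ A := by
  rw [add_pow, add_pow, Finset.sum_mul_sum, Finset.sum_div]
  refine sum_mem fun p hp => ?_
  rw [Finset.sum_div]
  refine sum_mem fun q hq => ?_
  have hp' : p ≤ j := Nat.lt_succ_iff.1 (Finset.mem_range.1 hp)
  have hq' : q ≤ d - j := Nat.lt_succ_iff.1 (Finset.mem_range.1 hq)
  have h1 := hy (p + q) (by omega)
  have h2 : (α * y) ^ p * (β * y') ^ (j - p) * (j.choose p : E) *
      ((γ * y) ^ q * (δ * y') ^ (d - j - q) * ((d - j).choose q : E)) / F =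
      (α ^ p * β ^ (j - p) * γ ^ q * δ ^ (d - j - q) * (j.choose p : E) *
        ((d - j).choose q : E)) * (y ^ (p + q) * y' ^ (d - (p + q)) / F) := by
    have h3 : d - (p + q) = (j - p) + (d - j - q) := by omega
    rw [h3, mul_pow, mul_pow, mul_pow, mul_pow, pow_add, pow_add]
    ring
  rw [h2]
  exact mul_mem (mul_mem (mul_mem (mul_mem (mul_mem (mul_mem (pow_mem hα _) (pow_mem hβ _))
    (pow_mem hγ _)) (pow_mem hδ _)) (natCast_mem A _)) (natCast_mem A _)) h1

theorem la_prod {E ι : Type*} [Field E] [DecidableEq ι] (A : Subalgebra ℤ E) {d : ι → ℕ}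
    {F : ι → E} {z : E} (s : Finset ι) (h : ∀ i ∈ s, ∀ j ≤ d i, z ^ j / F i ∈ A) :
    ∀ j ≤ ∑ i ∈ s, d i, z ^ j / ∏ i ∈ s, F i ∈ A := by
  induction s using Finset.induction_on with
  | empty =>
    intro j hj
    rw [Finset.sum_empty, Nat.le_zero] at hj
    rw [hj, Finset.prod_empty, pow_zero, div_one]
    exact one_mem A
  | insert i s hi ih =>
    intro j hj
    rw [Finset.sum_insert hi] at hj
    rw [Finset.prod_insert hi]
    have h1 := h i (Finset.mem_insert_self i s) (min j (d i)) (min_le_right _ _)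
    have h2 := ih (fun i' hi' => h i' (Finset.mem_insert_of_mem hi')) (j - min j (d i)) (by omega)
    have h3 : z ^ j / (F i * ∏ i ∈ s, F i) =
        z ^ min j (d i) / F i * (z ^ (j - min j (d i)) / ∏ i ∈ s, F i) := by
      rw [div_mul_div_comm, ← pow_add, Nat.add_sub_cancel' (min_le_left _ _)]
    rw [h3]
    exact mul_mem h1 h2

theorem la_mult {E : Type*} [Field E] (A : Subalgebra ℤ E) {n : ℕ} {F z : E}
    (hz : ∀ j ≤ n, z ^ j / F ∈ A) (s : Multiset E) (hs : ∀ r ∈ s, r ∈ A) :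
    ∀ k, s.card + k ≤ n → (s.map fun r => z - r).prod * z ^ k / F ∈ A := by
  induction s using Multiset.induction_on with
  | empty =>
    intro k hk
    rw [Multiset.map_zero, Multiset.prod_zero, one_mul]
    exact hz k (by simpa using hk)
  | cons r s ih =>
    intro k hk
    rw [Multiset.card_cons] at hk
    have hs' : ∀ r ∈ s, r ∈ A := fun r' hr' => hs r' (Multiset.mem_cons_of_mem hr')
    have h1 := ih hs' (k + 1) (by omega)
    have h2 := ih hs' k (by omega)
    have h3 : ((r ::ₘ s).map fun r => z - r).prod * z ^ k / F =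
        (s.map fun r => z - r).prod * z ^ (k + 1) / F -
          r * ((s.map fun r => z - r).prod * z ^ k / F) := by
      rw [Multiset.map_cons, Multiset.prod_cons]
      ring
    rw [h3]
    exact sub_mem h1 (mul_mem (hs r (Multiset.mem_cons_self r s)) h2)

theorem la_quot {E : Type*} [Field E] (A : Subalgebra ℤ E) {n : ℕ} {F z c : E}
    (hz : ∀ j ≤ n, z ^ j / F ∈ A) (R : Multiset E) (hR : ∀ r ∈ R, r ∈ A) (hn : R.card = n)
    (hc : c ∈ A) (hF : F = c * (R.map fun r => z - r).prod) (hF0 : F ≠ 0) {r₀ r₁ : E}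
    (h0 : r₀ ∈ R) (h1 : r₁ ∈ A) : (z - r₁) / (z - r₀) ∈ A := by
  classical
  obtain ⟨R', rfl⟩ := Multiset.exists_cons_of_mem h0
  rw [Multiset.card_cons] at hn
  rw [Multiset.map_cons, Multiset.prod_cons] at hF
  have h2 := la_mult A hz (r₁ ::ₘ R') (fun r hr => by
    rcases Multiset.mem_cons.1 hr with h | h
    · rw [h]; exact h1
    · exact hR r (Multiset.mem_cons_of_mem h)) 0 (by rw [Multiset.card_cons]; omega)
  rw [Multiset.map_cons, Multiset.prod_cons, pow_zero, mul_one] at h2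
  have h3 : (z - r₁) / (z - r₀) =
      c * ((z - r₁) * (R'.map fun r => z - r).prod / F) := by
    have hc0 : c ≠ 0 := fun h => hF0 (by rw [hF, h, zero_mul])
    have hz0 : z - r₀ ≠ 0 := fun h => hF0 (by rw [hF, h, zero_mul, mul_zero])
    have hP0 : (R'.map fun r => z - r).prod ≠ 0 := fun h =>
      hF0 (by rw [hF, h, mul_zero, mul_zero])
    rw [hF]
    field_simp
  rw [h3]
  exact mul_mem hc h2

theorem la_mon {E σ : Type*} [CommMonoid E] [DecidableEq σ] {d m : ℕ} (hm : m ≤ d) (b b' : σ) :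
    ∃ J : Sym σ d, ∀ x : σ → E, mon x J = x b ^ m * x b' ^ (d - m) := by
  refine ⟨⟨Multiset.replicate m b + Multiset.replicate (d - m) b', ?_⟩, fun x => ?_⟩
  · rw [Multiset.card_add, Multiset.card_replicate, Multiset.card_replicate]
    omega
  · change ((Multiset.replicate m b + Multiset.replicate (d - m) b').map x).prod = _
    rw [Multiset.map_add, Multiset.prod_add, Multiset.map_replicate, Multiset.map_replicate,
      Multiset.prod_replicate, Multiset.prod_replicate]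

theorem la_three {K E : Type*} [Field K] [CharZero K] [Field E] [Algebra K E] [IsAlgClosed E]
    (f : K[X]) (hf : f ≠ 0) (h3 : ∀ h : K[X], h ≠ 0 → (∃ n, f ∣ h ^ n) → 3 ≤ h.natDegree) :
    ∃ r₁ ∈ (f.map (algebraMap K E)).roots, ∃ r₂ ∈ (f.map (algebraMap K E)).roots,
      ∃ r₃ ∈ (f.map (algebraMap K E)).roots, r₁ ≠ r₂ ∧ r₁ ≠ r₃ ∧ r₂ ≠ r₃ := by
  classical
  set h := UniqueFactorizationMonoid.radical f with hh
  have h0 : h ≠ 0 := UniqueFactorizationMonoid.radical_ne_zero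
  have h1 := h3 h h0 (UniqueFactorizationMonoid.exists_dvd_radical_self_pow hf)
  have hsep : h.Separable := PerfectField.separable_iff_squarefree.2
    UniqueFactorizationMonoid.squarefree_radical
  have hdvd : h ∣ f := UniqueFactorizationMonoid.radical_dvd_self
  have hnodup : (h.map (algebraMap K E)).roots.Nodup := nodup_roots hsep.map
  have hcard : (h.map (algebraMap K E)).roots.card = h.natDegree := by
    rw [← (IsAlgClosed.splits (h.map (algebraMap K E))).natDegree_eq_card_roots,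
      natDegree_map]
  have hsub : ∀ r ∈ (h.map (algebraMap K E)).roots, r ∈ (f.map (algebraMap K E)).roots := by
    intro r hr
    exact Multiset.mem_of_le (roots.le_of_dvd (map_ne_zero hf) (map_dvd _ hdvd)) hr
  have h2 : 2 < (h.map (algebraMap K E)).roots.toFinset.card := by
    rw [Multiset.toFinset_card_of_nodup hnodup, hcard]
    omega
  obtain ⟨r₁, hr1, r₂, hr2, r₃, hr3, h12, h13, h23⟩ := Finset.two_lt_card.1 h2
  exact ⟨r₁, hsub _ (Multiset.mem_toFinset.1 hr1), r₂, hsub _ (Multiset.mem_toFinset.1 hr2),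
    r₃, hsub _ (Multiset.mem_toFinset.1 hr3), h12, h13, h23⟩

/-- the parameters of the integral points -/
theorem la_param {K : Type*} [Field K] [CharZero K] (E : Type*) [Field E] [CharZero E]
    [Algebra K E] [IsAlgClosed E] {σ ι : Type*} [Fintype σ] [DecidableEq σ]
    [Fintype ι] [DecidableEq ι] {d : ι → ℕ} (a : (i : ι) → Sym σ (d i) → K) (Z : Finset ι)
    (A : Subalgebra ℤ K) (hA : A.FG) (u v : σ → K) (b b' : σ)
    (hpi : u b * v b' - u b' * v b ≠ 0) (hv : ∀ i ∉ Z, form (a i) v ≠ 0)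
    (h3 : ∀ h : K[X], h ≠ 0 → (∀ i ∉ Z, ∃ n, lf (a i) u v ∣ h ^ n) → 3 ≤ h.natDegree) :
    {z : K | ∀ i ∉ Z, form (a i) (fun l => u l + z * v l) ≠ 0 ∧
      ∀ J : Sym σ (d i), mon (fun l => u l + z * v l) J /
        form (a i) (fun l => u l + z * v l) ∈ A}.Finite := by
  classical
  obtain ⟨φ, hφ⟩ : ∃ φ : K →+* E, φ = algebraMap K E := ⟨_, rfl⟩
  set f : K[X] := ∏ i ∈ Zᶜ, lf (a i) u v with hf
  have hdeg : ∀ i ∉ Z, (lf (a i) u v).natDegree = d i := fun i hi =>
    natDegree_eq_of_le_of_coeff_ne_zero (lf_natDegree_le _ _ _) (by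
      rw [lf_coeff_top]
      exact hv i hi)
  have hne : ∀ i ∈ Zᶜ, lf (a i) u v ≠ 0 := fun i hi h => hv i (Finset.mem_compl.1 hi) (by
    rw [← lf_coeff_top (a i) u v, h, coeff_zero])
  have hf0 : f ≠ 0 := Finset.prod_ne_zero_iff.2 hne
  have hfd : f.natDegree = ∑ i ∈ Zᶜ, d i := by
    rw [hf, natDegree_prod _ _ hne]
    exact Finset.sum_congr rfl fun i hi => hdeg i (Finset.mem_compl.1 hi)
  have hdvd : ∀ i ∉ Z, lf (a i) u v ∣ f := fun i hi =>
    Finset.dvd_prod_of_mem (fun i => lf (a i) u v) (Finset.mem_compl.2 hi)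
  have h3' : ∀ h : K[X], h ≠ 0 → (∃ n, f ∣ h ^ n) → 3 ≤ h.natDegree := by
    rintro h h0 ⟨n, hn⟩
    exact h3 h h0 fun i hi => ⟨n, (hdvd i hi).trans hn⟩
  obtain ⟨r₁, hr1, r₂, hr2, r₃, hr3, h12, h13, h23⟩ := la_three (E := E) f hf0 h3'
  rw [← hφ] at hr1 hr2 hr3
  obtain ⟨R, hR⟩ : ∃ R : Multiset E, R = (f.map φ).roots := ⟨_, rfl⟩
  rw [← hR] at hr1 hr2 hr3
  have hsplit : (f.map φ).Splits := IsAlgClosed.splits _
  have hcard : R.card = ∑ i ∈ Zᶜ, d i := by
    rw [hR, ← hsplit.natDegree_eq_card_roots, natDegree_map, hfd]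
  obtain ⟨T, hT⟩ : ∃ T : Set E, T = (R.toFinset : Set E) ∪
    ((fun p : E × E => (p.1 - p.2)⁻¹) '' ((R.toFinset : Set E) ×ˢ (R.toFinset : Set E))) ∪
    (Set.range fun l => φ (u l)) ∪ (Set.range fun l => φ (v l)) ∪
    {φ (u b * v b' - u b' * v b)⁻¹, (f.map φ).leadingCoeff} := ⟨_, rfl⟩
  have hTfin : T.Finite := by
    rw [hT]
    exact ((((Finset.finite_toSet _).union (((Finset.finite_toSet _).prod
      (Finset.finite_toSet _)).image _)).union (Set.finite_range _)).union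
      (Set.finite_range _)).union (Set.toFinite _)
  obtain ⟨A', hA'fg, hTA, hAA⟩ : ∃ A' : Subalgebra ℤ E, A'.FG ∧ (∀ e ∈ T, e ∈ A') ∧
      ∀ e ∈ A, φ e ∈ A' :=
    ⟨A.map φ.toIntAlgHom ⊔ Algebra.adjoin ℤ T,
      (hA.map _).sup (Subalgebra.fg_def.2 ⟨T, hTfin, rfl⟩),
      fun e he => (le_sup_right : Algebra.adjoin ℤ T ≤ _) (Algebra.subset_adjoin he),
      fun e he => (le_sup_left : A.map φ.toIntAlgHom ≤ _) (Subalgebra.mem_map.2 ⟨e, he, rfl⟩)⟩
  rw [hT] at hTA
  have hRA : ∀ r ∈ R, r ∈ A' := fun r hr => hTA r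
    (Or.inl (Or.inl (Or.inl (Or.inl (Multiset.mem_toFinset.2 hr)))))
  have hinv : ∀ r ∈ R, ∀ r' ∈ R, (r - r')⁻¹ ∈ A' := fun r hr r' hr' => hTA _
    (Or.inl (Or.inl (Or.inl (Or.inr ⟨(r, r'), ⟨Multiset.mem_toFinset.2 hr,
      Multiset.mem_toFinset.2 hr'⟩, rfl⟩))))
  have huA : ∀ l, φ (u l) ∈ A' := fun l => hTA _ (Or.inl (Or.inl (Or.inr ⟨l, rfl⟩)))
  have hvA : ∀ l, φ (v l) ∈ A' := fun l => hTA _ (Or.inl (Or.inr ⟨l, rfl⟩))
  have hpA : φ (u b * v b' - u b' * v b)⁻¹ ∈ A' := hTA _ (Or.inr (Or.inl rfl))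
  have hcA : (f.map φ).leadingCoeff ∈ A' := hTA _ (Or.inr (Or.inr rfl))
  -- the powers of `z` divided by the value of `f`
  have key : ∀ z : K, (∀ i ∉ Z, form (a i) (fun l => u l + z * v l) ≠ 0 ∧
      ∀ J : Sym σ (d i), mon (fun l => u l + z * v l) J /
        form (a i) (fun l => u l + z * v l) ∈ A) →
      (f.map φ).eval (φ z) ≠ 0 ∧
        ∀ j ≤ ∑ i ∈ Zᶜ, d i, φ z ^ j / (f.map φ).eval (φ z) ∈ A' := by
    intro z hz
    have h1 : (f.map φ).eval (φ z) = ∏ i ∈ Zᶜ, φ (form (a i) fun l => u l + z * v l) := by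
      rw [eval_map_apply, hf, eval_prod, map_prod]
      refine Finset.prod_congr rfl fun i _ => ?_
      rw [lf_eval]
    rw [h1]
    refine ⟨Finset.prod_ne_zero_iff.2 fun i hi => ?_, la_prod A' _ fun i hi j hj => ?_⟩
    · rw [Ne, map_eq_zero]
      exact (hz i (Finset.mem_compl.1 hi)).1
    · have hz' := (hz i (Finset.mem_compl.1 hi)).2
      have h2 : ∀ m ≤ d i, φ (u b + z * v b) ^ m * φ (u b' + z * v b') ^ (d i - m) /
          φ (form (a i) fun l => u l + z * v l) ∈ A' := by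
        intro m hm
        obtain ⟨J, hJ⟩ := la_mon (E := K) hm b b'
        have h4 := hAA _ (hz' J)
        rw [hJ, map_div₀, map_mul, map_pow, map_pow] at h4
        exact h4
      have hp0 : φ (u b * v b' - u b' * v b) ≠ 0 := by
        rw [Ne, map_eq_zero]
        exact hpi
      have h5 := la_lin A' (α := -(φ (u b') * φ (u b * v b' - u b' * v b)⁻¹))
        (β := φ (u b) * φ (u b * v b' - u b' * v b)⁻¹)
        (γ := φ (v b') * φ (u b * v b' - u b' * v b)⁻¹)
        (δ := -(φ (v b) * φ (u b * v b' - u b' * v b)⁻¹)) h2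
        (neg_mem (mul_mem (huA _) hpA)) (mul_mem (huA _) hpA) (mul_mem (hvA _) hpA)
        (neg_mem (mul_mem (hvA _) hpA)) hj
      have h6 : -(φ (u b') * φ (u b * v b' - u b' * v b)⁻¹) * φ (u b + z * v b) +
          φ (u b) * φ (u b * v b' - u b' * v b)⁻¹ * φ (u b' + z * v b') = φ z := by
        have h8 : -(u b' * (u b * v b' - u b' * v b)⁻¹) * (u b + z * v b) +
            u b * (u b * v b' - u b' * v b)⁻¹ * (u b' + z * v b') = z := by
          linear_combination z * inv_mul_cancel₀ hpi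
        simpa only [map_add, map_mul, map_neg] using congrArg φ h8
      have h7 : φ (v b') * φ (u b * v b' - u b' * v b)⁻¹ * φ (u b + z * v b) +
          -(φ (v b) * φ (u b * v b' - u b' * v b)⁻¹) * φ (u b' + z * v b') = 1 := by
        have h8 : v b' * (u b * v b' - u b' * v b)⁻¹ * (u b + z * v b) +
            -(v b * (u b * v b' - u b' * v b)⁻¹) * (u b' + z * v b') = 1 := by
          linear_combination inv_mul_cancel₀ hpi
        simpa only [map_add, map_mul, map_neg, map_one] using congrArg φ h8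
      rw [h6, h7, one_pow, mul_one] at h5
      exact h5
  have hev : ∀ z : E, (f.map φ).eval z =
      (f.map φ).leadingCoeff * (R.map fun r => z - r).prod := by
    rw [hR]
    exact fun z => hsplit.eval_eq_prod_roots z
  have hroot : ∀ r ∈ R, (f.map φ).eval r = 0 := by
    rw [hR]
    exact fun r hr => (mem_roots (map_ne_zero hf0)).1 hr
  refine Set.Finite.of_injOn (f := fun z : K => ((φ z - r₁) * (r₂ - r₃)) /
    ((φ z - r₃) * (r₂ - r₁))) ?_ ?_ (units_field A' hA'fg)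
  · intro z hz
    obtain ⟨hF0, hF⟩ := key z hz
    have hq : ∀ r₀ ∈ R, ∀ r ∈ R, (φ z - r) / (φ z - r₀) ∈ A' := fun r₀ h0 r h =>
      la_quot A' hF R hRA hcard hcA (hev _) hF0 h0 (hRA r h)
    have hn : ∀ r ∈ R, φ z - r ≠ 0 := by
      intro r hr h0
      apply hF0
      rw [sub_eq_zero.1 h0]
      exact hroot r hr
    have e1 := hn r₁ hr1
    have e2 := hn r₂ hr2
    have e3 := hn r₃ hr3
    have e21 : r₂ - r₁ ≠ 0 := sub_ne_zero.2 h12.symm
    have e23 : r₂ - r₃ ≠ 0 := sub_ne_zero.2 h23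
    have e31 : r₃ - r₁ ≠ 0 := sub_ne_zero.2 h13.symm
    have hw1 : 1 - ((φ z - r₁) * (r₂ - r₃)) / ((φ z - r₃) * (r₂ - r₁)) =
        ((φ z - r₂) / (φ z - r₃)) * ((r₃ - r₁) / (r₂ - r₁)) := by
      field_simp
      ring
    refine ⟨?_, ?_, ?_, ?_, ?_⟩
    · exact div_ne_zero (mul_ne_zero e1 e23) (mul_ne_zero e3 e21)
    · intro h
      have h4 : (1 : E) - ((φ z - r₁) * (r₂ - r₃)) / ((φ z - r₃) * (r₂ - r₁)) = 0 := by
        rw [sub_eq_zero]
        exact h.symm
      rw [hw1] at h4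
      exact mul_ne_zero (div_ne_zero e2 e3) (div_ne_zero e31 e21) h4
    · have h4 : ((φ z - r₁) * (r₂ - r₃)) / ((φ z - r₃) * (r₂ - r₁)) =
          (φ z - r₁) / (φ z - r₃) * ((r₂ - r₃) * (r₂ - r₁)⁻¹) := by
        field_simp
      change ((φ z - r₁) * (r₂ - r₃)) / ((φ z - r₃) * (r₂ - r₁)) ∈ A'
      rw [h4]
      exact mul_mem (hq r₃ hr3 r₁ hr1) (mul_mem (sub_mem (hRA _ hr2) (hRA _ hr3))
        (hinv _ hr2 _ hr1))
    · have h4 : (((φ z - r₁) * (r₂ - r₃)) / ((φ z - r₃) * (r₂ - r₁)))⁻¹ =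
          (φ z - r₃) / (φ z - r₁) * ((r₂ - r₁) * (r₂ - r₃)⁻¹) := by
        field_simp
      change (((φ z - r₁) * (r₂ - r₃)) / ((φ z - r₃) * (r₂ - r₁)))⁻¹ ∈ A'
      rw [h4]
      exact mul_mem (hq r₁ hr1 r₃ hr3) (mul_mem (sub_mem (hRA _ hr2) (hRA _ hr1))
        (hinv _ hr2 _ hr3))
    · change (1 - ((φ z - r₁) * (r₂ - r₃)) / ((φ z - r₃) * (r₂ - r₁)))⁻¹ ∈ A'
      have h4 : (1 - ((φ z - r₁) * (r₂ - r₃)) / ((φ z - r₃) * (r₂ - r₁)))⁻¹ =
          (φ z - r₃) / (φ z - r₂) * ((r₂ - r₁) * (r₃ - r₁)⁻¹) := by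
        rw [hw1]
        field_simp
      rw [h4]
      exact mul_mem (hq r₂ hr2 r₃ hr3) (mul_mem (sub_mem (hRA _ hr2) (hRA _ hr1))
        (hinv _ hr3 _ hr1))
  · intro z hz z' hz' h
    obtain ⟨hF0, -⟩ := key z hz
    obtain ⟨hF0', -⟩ := key z' hz'
    have hn : ∀ y : E, (f.map φ).eval y ≠ 0 → ∀ r ∈ R, y - r ≠ 0 := by
      intro y hy r hr h0
      apply hy
      rw [sub_eq_zero.1 h0]
      exact hroot r hr
    have e3 := hn _ hF0 r₃ hr3
    have e3' := hn _ hF0' r₃ hr3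
    have e21 : r₂ - r₁ ≠ 0 := sub_ne_zero.2 h12.symm
    have e23 : r₂ - r₃ ≠ 0 := sub_ne_zero.2 h23
    have e31 : r₃ - r₁ ≠ 0 := sub_ne_zero.2 h13.symm
    have h4 : ((φ z - r₁) * (r₂ - r₃)) / ((φ z - r₃) * (r₂ - r₁)) =
      ((φ z' - r₁) * (r₂ - r₃)) / ((φ z' - r₃) * (r₂ - r₁)) := h
    rw [div_eq_div_iff (mul_ne_zero e3 e21) (mul_ne_zero e3' e21)] at h4
    have h5 : (φ z - φ z') * ((r₃ - r₁) * ((r₂ - r₃) * (r₂ - r₁))) = 0 := by
      linear_combination -h4
    have h6 : φ z - φ z' = 0 := by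
      rcases mul_eq_zero.1 h5 with h6 | h6
      · exact h6
      · exact absurd h6 (mul_ne_zero e31 (mul_ne_zero e23 e21))
    exact φ.injective (sub_eq_zero.1 h6)

theorem la_mon_smul {K σ : Type*} [CommSemiring K] {n : ℕ} (s : K) (x : σ → K) (J : Sym σ n) :
    mon (fun l => s * x l) J = s ^ n * mon x J := by
  unfold mon
  rw [Multiset.prod_map_mul, Multiset.map_const', Multiset.prod_replicate, Sym.card_coe]

theorem la_form_smul {K σ : Type*} [CommSemiring K] [Fintype σ] [DecidableEq σ] {n : ℕ}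
    (a : Sym σ n → K) (s : K) (x : σ → K) :
    form a (fun l => s * x l) = s ^ n * form a x := by
  unfold form
  rw [Finset.mul_sum]
  refine Finset.sum_congr rfl fun J _ => ?_
  rw [la_mon_smul]
  ring

/-- The forms `F_i`, `i ∉ Z`, have together at least three distinct zeros on the line `u, v`, none
of them the point `v`: there are finitely many integral points on the line. -/
theorem line_arith {K : Type*} [Field K] [CharZero K] {σ ι : Type*} [Fintype σ] [DecidableEq σ]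
    [Fintype ι] [DecidableEq ι] {d : ι → ℕ} (a : (i : ι) → Sym σ (d i) → K) (Z : Finset ι)
    (A : Subalgebra ℤ K) (hA : A.FG) (u v : σ → K) (b b' : σ)
    (hpi : u b * v b' - u b' * v b ≠ 0) (hv : ∀ i ∉ Z, form (a i) v ≠ 0)
    (h3 : ∀ h : K[X], h ≠ 0 → (∀ i ∉ Z, ∃ n, lf (a i) u v ∣ h ^ n) → 3 ≤ h.natDegree)
    (i₀ : σ) :
    {x : σ → K | x i₀ = 1 ∧ (∀ i ∉ Z, form (a i) x ≠ 0 ∧
      ∀ J : Sym σ (d i), mon x J / form (a i) x ∈ A) ∧
      ∃ s t : K, ∀ l, x l = s * u l + t * v l}.Finite := by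
  refine ((la_param (AlgebraicClosure K) a Z A hA u v b b' hpi hv h3).image
    (fun z l => (u l + z * v l) / (u i₀ + z * v i₀))).union (Set.finite_singleton
      (fun l => v l / v i₀)) |>.subset ?_
  rintro x ⟨hx1, hx2, s, t, hst⟩
  by_cases hs : s = 0
  · right
    rw [Set.mem_singleton_iff]
    have h1 : t * v i₀ = 1 := by
      have h2 := hst i₀
      rw [hx1, hs, zero_mul, zero_add] at h2
      exact h2.symm
    have hv0 : v i₀ ≠ 0 := right_ne_zero_of_mul_eq_one h1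
    funext l
    rw [hst l, hs, zero_mul, zero_add, eq_div_iff hv0]
    linear_combination v l * h1
  · left
    have hx : x = fun l => s * (u l + t / s * v l) := by
      funext l
      rw [hst l]
      field_simp
    have h1 : s * (u i₀ + t / s * v i₀) = 1 := by
      rw [← hx1, hx]
    have hd0 : u i₀ + t / s * v i₀ ≠ 0 := right_ne_zero_of_mul_eq_one h1
    refine ⟨t / s, fun i hi => ?_, ?_⟩
    · obtain ⟨h2, h4⟩ := hx2 i hi
      rw [hx, la_form_smul] at h2
      have h5 : form (a i) (fun l => u l + t / s * v l) ≠ 0 := right_ne_zero_of_mul h2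
      refine ⟨h5, fun J => ?_⟩
      have h6 := h4 J
      rw [hx, la_form_smul, la_mon_smul, mul_div_mul_left _ _ (pow_ne_zero _ hs)] at h6
      exact h6
    · funext l
      change (u l + t / s * v l) / (u i₀ + t / s * v i₀) = x l
      rw [hst l, div_eq_iff hd0]
      have h7 : s * u l + t * v l = s * (u l + t / s * v l) := by
        field_simp
      rw [h7]
      linear_combination -(u l + t / s * v l) * h1

end Pool.Agent.Helper10.LB
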