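import Pool.Agent.Helper10.LB.Defs

/-! # LB-PD: coefficientwise derivations and restrictions of forms to lines -/

set_option autoImplicit false

namespace Pool.Agent.Helper10.LB

open scoped BigOperators
open Polynomial Pool.Agent.Helper8.LG

theorem mapD_add {E : Type*} [CommRing E] (D : Derivation ℤ E E) (p q : E[X]) :
    mapD D (p + q) = mapD D p + mapD D q := by
  ext n
  simp only [coeff_mapD, coeff_add, map_add]

theorem pd_mapD_monomial {E : Type*} [CommRing E] (D : Derivation ℤ E E) (n : ℕ) (a : E) :
    mapD D (monomial n a) = monomial n (D a) := by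
  ext m
  rw [coeff_mapD, coeff_monomial, coeff_monomial]
  split_ifs
  · rfl
  · rw [map_zero]

theorem mapD_mul {E : Type*} [CommRing E] (D : Derivation ℤ E E) (p q : E[X]) :
    mapD D (p * q) = mapD D p * q + p * mapD D q := by
  ext n
  rw [coeff_mapD, coeff_add, coeff_mul, coeff_mul, coeff_mul, map_sum, ← Finset.sum_add_distrib]
  refine Finset.sum_congr rfl fun x _ => ?_
  rw [coeff_mapD, coeff_mapD, D.leibniz, smul_eq_mul, smul_eq_mul]
  ring

theorem deriv_eval {E : Type*} [CommRing E] (D : Derivation ℤ E E) (p : E[X]) (z : E) :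
    D (p.eval z) = (mapD D p).eval z + (derivative p).eval z * D z := by
  induction p using Polynomial.induction_on' with
  | add p q hp hq =>
    rw [eval_add, map_add, hp, hq, mapD_add, eval_add, derivative_add, eval_add]
    ring
  | monomial n a =>
    rw [pd_mapD_monomial, eval_monomial, eval_monomial, derivative_monomial, eval_monomial,
      D.leibniz, D.leibniz_pow]
    simp only [smul_eq_mul, nsmul_eq_mul]
    ring

theorem pd_map_form {E E' σ : Type*} [CommRing E] [CommRing E'] [Fintype σ] [DecidableEq σ]
    {n : ℕ} (f : E →+* E') (a : Sym σ n → E) (x : σ → E) :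
    f (form a x) = form (fun J => f (a J)) fun l => f (x l) := by
  unfold form mon
  rw [map_sum]
  refine Finset.sum_congr rfl fun J _ => ?_
  rw [map_mul, map_multiset_prod, Multiset.map_map]
  rfl

theorem lf_eval {E σ : Type*} [CommRing E] [Fintype σ] [DecidableEq σ] {n : ℕ}
    (a : Sym σ n → E) (u v : σ → E) (z : E) :
    (lf a u v).eval z = form a fun l => u l + z * v l := by
  have h := pd_map_form (evalRingHom z) (fun J => C (a J)) fun l => C (u l) + X * C (v l)
  unfold lf
  rw [← coe_evalRingHom, h]
  simp only [coe_evalRingHom, eval_C, eval_add, eval_mul, eval_X]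

/-- the product of the linear factors over a multiset -/
theorem pd_prod {E σ : Type*} [CommRing E] (u v : σ → E) (s : Multiset σ) :
    ((s.map fun l => C (u l) + X * C (v l)).prod).natDegree ≤ s.card ∧
      ((s.map fun l => C (u l) + X * C (v l)).prod).coeff s.card = (s.map v).prod ∧
      ((s.map fun l => C (u l) + X * C (v l)).prod).reflect s.card =
        (s.map fun l => C (v l) + X * C (u l)).prod := by
  have hlin : ∀ l, (C (u l) + X * C (v l)).natDegree ≤ 1 := by
    intro l
    rw [X_mul_C]
    refine natDegree_add_le_of_degree_le ?_ ?_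
    · rw [natDegree_C]; exact Nat.zero_le _
    · exact (natDegree_C_mul_le _ _).trans natDegree_X_le
  have hco : ∀ l, (C (u l) + X * C (v l)).coeff 1 = v l := by
    intro l
    rw [coeff_add, X_mul_C, coeff_C_mul, coeff_X_one, mul_one, coeff_C]
    simp
  have hre : ∀ l, (C (u l) + X * C (v l)).reflect 1 = C (v l) + X * C (u l) := by
    intro l
    rw [reflect_add, reflect_C, X_mul_C, X_mul_C, reflect_C_mul, pow_one]
    have : (X : E[X]).reflect 1 = 1 := by
      have := reflect_monomial 1 1 (R := E)
      rw [pow_one] at this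
      rw [this, revAt_le le_rfl]
      simp
    rw [this, mul_one, add_comm]
  induction s using Multiset.induction_on with
  | empty => simp [reflect_one]
  | cons b s ih =>
    obtain ⟨i1, i2, i3⟩ := ih
    rw [Multiset.map_cons, Multiset.prod_cons, Multiset.card_cons, add_comm s.card 1,
      Multiset.map_cons, Multiset.prod_cons, Multiset.map_cons, Multiset.prod_cons]
    refine ⟨natDegree_mul_le_of_le (hlin b) i1, ?_, ?_⟩
    · rw [coeff_mul_add_eq_of_natDegree_le (hlin b) i1, hco, i2]
    · rw [reflect_mul _ _ (hlin b) i1, hre, i3]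

theorem lf_coeff_top {E σ : Type*} [CommRing E] [Fintype σ] [DecidableEq σ] {n : ℕ}
    (a : Sym σ n → E) (u v : σ → E) : (lf a u v).coeff n = form a v := by
  unfold lf form mon
  rw [finsetSum_coeff]
  refine Finset.sum_congr rfl fun J _ => ?_
  have h := (pd_prod u v (J : Multiset σ)).2.1
  rw [Sym.card_coe] at h
  rw [coeff_C_mul, h]

theorem lf_natDegree_le {E σ : Type*} [CommRing E] [Fintype σ] [DecidableEq σ] {n : ℕ}
    (a : Sym σ n → E) (u v : σ → E) : (lf a u v).natDegree ≤ n := by
  unfold lf form mon
  refine natDegree_sum_le_of_forall_le _ _ fun J _ => ?_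
  have h := (pd_prod u v (J : Multiset σ)).1
  rw [Sym.card_coe] at h
  exact (natDegree_C_mul_le _ _).trans h

theorem lf_map {E E' σ : Type*} [CommRing E] [CommRing E'] [Fintype σ] [DecidableEq σ] {n : ℕ}
    (f : E →+* E') (a : Sym σ n → E) (u v : σ → E) :
    (lf a u v).map f = lf (fun J => f (a J)) (fun l => f (u l)) fun l => f (v l) := by
  have h := pd_map_form (mapRingHom f) (fun J => C (a J)) fun l => C (u l) + X * C (v l)
  unfold lf
  rw [← coe_mapRingHom, h]
  simp

/-- reversal of `F(u + Y v)`: `F(Y u + v)` -/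
theorem lf_reflect {E σ : Type*} [CommRing E] [Fintype σ] [DecidableEq σ] {n : ℕ}
    (a : Sym σ n → E) (u v : σ → E) : (lf a u v).reflect n = lf a v u := by
  have hsum : ∀ (s : Finset (Sym σ n)) (g : Sym σ n → E[X]),
      (∑ J ∈ s, g J).reflect n = ∑ J ∈ s, (g J).reflect n := by
    intro s g
    ext m
    rw [coeff_reflect, finsetSum_coeff, finsetSum_coeff]
    refine Finset.sum_congr rfl fun J _ => ?_
    rw [coeff_reflect]
  unfold lf form mon
  rw [hsum]
  refine Finset.sum_congr rfl fun J _ => ?_
  have h := (pd_prod u v (J : Multiset σ)).2.2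
  rw [Sym.card_coe] at h
  rw [reflect_C_mul, h]

end Pool.Agent.Helper10.LB
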