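import Pool.Agent.Helper10.LB.DerExt
import Pool.Agent.Helper8.LG.Reduce

/-! # LB-CL: the constants of `L` -/

set_option autoImplicit false

namespace Pool.Agent.Helper10.LB

open scoped BigOperators
open Polynomial Pool.Agent.Helper8.LG

/-- a derivation which kills `k` and the `y_i` is zero -/
theorem cl_zero {k L : Type*} [Field k] [Field L] [CharZero L] [Algebra k L] {T : Type*}
    (y : T → L) (hfin : FiniteDimensional (IntermediateField.adjoin k (Set.range y)) L)
    (δ : Derivation ℤ L L) (hk : ∀ c : k, δ (algebraMap k L c) = 0) (hy : ∀ i, δ (y i) = 0)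
    (x : L) : δ x = 0 := by
  have hK : ∀ a ∈ IntermediateField.adjoin k (Set.range y), δ a = 0 := by
    intro a ha
    induction ha using IntermediateField.adjoin_induction with
    | mem a ha =>
      obtain ⟨i, rfl⟩ := ha
      exact hy i
    | algebraMap c => exact hk c
    | add a b _ _ ha hb => rw [map_add, ha, hb, add_zero]
    | inv a _ ha => rw [Derivation.leibniz_inv, ha, smul_zero]
    | mul a b _ _ ha hb => rw [Derivation.leibniz, ha, hb, smul_zero, smul_zero, add_zero]
  have hi : IsIntegral (IntermediateField.adjoin k (Set.range y)) x :=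
    Algebra.IsIntegral.isIntegral x
  have h1 := deriv_aeval (0 : Derivation ℤ (IntermediateField.adjoin k (Set.range y))
    (IntermediateField.adjoin k (Set.range y))) δ (fun a => by
      rw [Derivation.zero_apply, map_zero]
      exact hK _ a.2) (minpoly (IntermediateField.adjoin k (Set.range y)) x) x
  have h2 : mapD (0 : Derivation ℤ (IntermediateField.adjoin k (Set.range y))
      (IntermediateField.adjoin k (Set.range y)))
      (minpoly (IntermediateField.adjoin k (Set.range y)) x) = 0 := by
    ext n
    rw [coeff_mapD, Derivation.zero_apply, coeff_zero]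
  rw [minpoly.aeval, map_zero, h2, map_zero, zero_add] at h1
  have h3 : aeval x (derivative (minpoly (IntermediateField.adjoin k (Set.range y)) x)) ≠ 0 := by
    have h4 : (minpoly (IntermediateField.adjoin k (Set.range y)) x).Separable :=
      (minpoly.irreducible hi).separable
    exact h4.aeval_derivative_ne_zero (minpoly.aeval _ _)
  exact (mul_eq_zero.1 h1.symm).resolve_left h3

theorem cl_sum_apply {L T : Type*} [Field L] (s : Finset T) (f : T → L)
    (D : T → Derivation ℤ L L) (x : L) :
    (∑ i ∈ s, f i • D i) x = ∑ i ∈ s, f i * D i x := by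
  classical
  induction s using Finset.induction_on with
  | empty => simp
  | insert a s ha ih =>
    rw [Finset.sum_insert ha, Finset.sum_insert ha, Derivation.add_apply, ih,
      Derivation.smul_apply, smul_eq_mul]

/-- the constants are algebraic over `k` -/
theorem cl_alg {k L : Type*} [Field k] [Field L] [CharZero L] [Algebra k L] {P T : Type*}
    [Finite T] [DecidableEq T] (y : T → L) (D : P → Derivation ℤ L L)
    (hy : Dirs k y D) (c : L) (hc : ∀ p, D p c = 0) : IsAlgebraic k c := by
  classical
  have := Fintype.ofFinite T
  by_contra hn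
  have hn' : Transcendental k c := hn
  have h1 : AlgebraicIndepOn k id ({c} : Set L) := by
    have h2 : AlgebraicIndependent k (fun x : ({c} : Set L) => (x : L)) :=
      (algebraicIndependent_singleton_iff (⟨c, rfl⟩ : ({c} : Set L))).2 hn'
    exact h2
  obtain ⟨t, ht, hb⟩ := exists_isTranscendenceBasis_superset (R := k) h1
  obtain ⟨δ, hδ⟩ := red_exists_der (Subtype.val : t → L) hb.1 hb.isAlgebraic
    (fun x => if (x : L) = c then 1 else 0)
  have hδc : δ c = 1 := by
    have := hδ ⟨c, ht rfl⟩
    simpa using this
  choose q hq using hy.dual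
  let E : Derivation ℤ L L := δ.restrictScalars ℤ - ∑ i, δ (y i) • D (q i)
  have hE : ∀ x, E x = δ x - ∑ i, δ (y i) * D (q i) x := by
    intro x
    simp only [E, Derivation.sub_apply, Derivation.restrictScalars_apply]
    rw [cl_sum_apply]
  have h0 : E c = 0 := by
    refine cl_zero (k := k) y hy.fin E (fun a => ?_) (fun j => ?_) c
    · rw [hE, Derivation.map_algebraMap]
      simp [hy.ker]
    · rw [hE]
      simp only [hq]
      rw [Finset.sum_eq_single j]
      · simp
      · intro i _ hij
        rw [if_neg (fun h => hij h.symm), mul_zero]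
      · intro h
        exact absurd (Finset.mem_univ _) h
  rw [hE, hδc] at h0
  simp only [hc, mul_zero, Finset.sum_const_zero, sub_zero] at h0
  exact one_ne_zero h0

open scoped IntermediateField.algebraAdjoinAdjoin in
/-- powers of an algebraic element stay independent over `k(y)` -/
theorem cl_deg {k L : Type*} [Field k] [Field L] [Algebra k L] {T : Type*}
    (y : T → L) (hind : AlgebraicIndependent k y)
    (hfin : FiniteDimensional (IntermediateField.adjoin k (Set.range y)) L) (c : L)
    (hc : IsAlgebraic k c) :
    (minpoly k c).natDegree ≤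
      Module.finrank (IntermediateField.adjoin k (Set.range y)) L := by
  classical
  have h1 : AlgebraicIndependent (algebraicClosure k L) y := hind.algebraicClosure
  let c' : algebraicClosure k L := ⟨c, mem_algebraicClosure_iff.2 hc⟩
  have h2 : LinearIndependent (Algebra.adjoin k (Set.range y))
      (fun i : Fin (minpoly k c).natDegree => c ^ (i : ℕ)) := by
    rw [Fintype.linearIndependent_iff]
    intro g hg
    have hp : ∀ i, ∃ p : MvPolynomial T k, MvPolynomial.aeval y p = (g i : L) := by
      intro i
      have h3 : (g i : L) ∈ (MvPolynomial.aeval (R := k) y).range := by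
        rw [← Algebra.adjoin_range_eq_range_aeval]
        exact (g i).2
      exact h3
    choose p hp using hp
    have h4 : MvPolynomial.aeval y (∑ i : Fin (minpoly k c).natDegree,
        MvPolynomial.C (c' ^ (i : ℕ)) *
        MvPolynomial.map (algebraMap k (algebraicClosure k L)) (p i)) = 0 := by
      rw [map_sum]
      rw [← hg]
      refine Finset.sum_congr rfl fun i _ => ?_
      rw [map_mul, MvPolynomial.aeval_map_algebraMap, hp, MvPolynomial.aeval_C]
      rw [Algebra.smul_def, mul_comm]
      rfl
    have h5 := (injective_iff_map_eq_zero _).1 h1 _ h4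
    have h6 : ∀ i, p i = 0 := by
      intro i
      ext m
      rw [MvPolynomial.coeff_zero]
      have h7 : ∑ j : Fin (minpoly k c).natDegree,
          (MvPolynomial.coeff m (p j)) • c ^ (j : ℕ) = 0 := by
        have h8 := congrArg (MvPolynomial.coeff m) h5
        rw [MvPolynomial.coeff_sum, MvPolynomial.coeff_zero] at h8
        simp only [MvPolynomial.coeff_C_mul, MvPolynomial.coeff_map] at h8
        have h9 := congrArg (algebraMap (algebraicClosure k L) L) h8
        rw [map_sum, map_zero] at h9
        rw [← h9]
        refine Finset.sum_congr rfl fun j _ => ?_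
        rw [map_mul, map_pow, Algebra.smul_def, mul_comm]
        rfl
      exact Fintype.linearIndependent_iff.1 (linearIndependent_pow c) _ h7 i
    intro i
    apply Subtype.ext
    rw [← hp i, h6 i, map_zero]
    rfl
  have h3 : LinearIndependent (IntermediateField.adjoin k (Set.range y))
      (fun i : Fin (minpoly k c).natDegree => c ^ (i : ℕ)) :=
    (LinearIndependent.iff_fractionRing (Algebra.adjoin k (Set.range y)) _).1 h2
  have h4 := h3.fintype_card_le_finrank
  rwa [Fintype.card_fin] at h4

/-- a constant of `L` is a root of a monic polynomial over `k` of fixed degree -/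
theorem const_L {k L : Type*} [Field k] [Field L] [CharZero L] [Algebra k L] {P T : Type*}
    [Finite P] [Finite T] [DecidableEq T] (y : T → L) (D : P → Derivation ℤ L L)
    (hy : Dirs k y D) :
    ∃ N : ℕ, ∀ c : L, (∀ p, D p c = 0) → ∃ g : k[X], g.Monic ∧ g.natDegree = N ∧
      aeval c g = 0 := by
  refine ⟨Module.finrank (IntermediateField.adjoin k (Set.range y)) L, fun c hc => ?_⟩
  have h1 := cl_alg y D hy c hc
  have h2 := cl_deg y hy.ind hy.fin c h1
  have h3 : (minpoly k c).Monic := minpoly.monic h1.isIntegral
  refine ⟨minpoly k c * X ^ (Module.finrank (IntermediateField.adjoin k (Set.range y)) L -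
    (minpoly k c).natDegree), h3.mul (monic_X_pow _), ?_, ?_⟩
  · rw [h3.natDegree_mul (monic_X_pow _), natDegree_X_pow]
    omega
  · rw [map_mul, minpoly.aeval, zero_mul]

end Pool.Agent.Helper10.LB
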