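import Pool.Agent.Helper10.LB.BField
import Pool.Agent.Helper10.LB.ConstL

/-! # LB-CO: the constants of the ultrapower -/

set_option autoImplicit false

namespace Pool.Agent.Helper10.LB

open scoped BigOperators
open Polynomial Pool.Agent.Helper8.LG

/-- `k`-valued sequences are bounded -/
theorem co_mem {k L Ω : Type*} [Field k] [Field L] [Algebra k L] [Field Ω]
    {Q : (ℕ → L) →+* Ω} (hQ : IsUl Q) (g : ℕ → k) :
    Q (fun m => algebraMap k L (g m)) ∈ BF k hQ := by
  rw [mem_BF]
  have hfd : FiniteDimensional k (Submodule.span k ({1} : Set L)) :=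
    FiniteDimensional.span_of_finite k (Set.finite_singleton _)
  have h1V : (1 : L) ∈ Submodule.span k ({1} : Set L) := Submodule.mem_span_singleton_self _
  refine bset_of_fd hQ (Submodule.span k {1}) (fun m => algebraMap k L (g m)) (fun _ => 1)
    (Filter.Eventually.of_forall fun m => ?_)
    (Filter.Eventually.of_forall fun _ => h1V)
    (Filter.Eventually.of_forall fun _ => one_ne_zero) _ ?_
  · rw [Algebra.algebraMap_eq_smul_one]
    exact Submodule.smul_mem _ _ h1V
  · have h : Q (fun _ => (1 : L)) = 1 := map_one Q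
    rw [h, mul_one]

/-- the constants of the ultrapower are algebraic over the bounded elements -/
theorem const_Ω {k L Ω : Type*} [Field k] [Field L] [CharZero L] [Algebra k L] [Field Ω]
    {Q : (ℕ → L) →+* Ω} (hQ : IsUl Q) {P T : Type*}
    [Finite P] [Finite T] [DecidableEq T] (y : T → L) (D : P → Derivation ℤ L L)
    (hy : Dirs k y D) (c : Ω) (hc : ∀ p, ulDer Q hQ.surj hQ.ker (D p) c = 0) :
    IsAlgebraic (BF k hQ) c := by
  classical
  obtain ⟨f, rfl⟩ := hQ.surj c
  obtain ⟨N, hN⟩ := const_L y D hy
  have h1 : ∀ᶠ m in (Filter.hyperfilter ℕ : Filter ℕ), ∀ p, D p (f m) = 0 := by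
    rw [Filter.eventually_all]
    intro p
    have h := hc p
    rw [ulDer_apply, hQ.ker] at h
    exact h
  have h2 : ∀ m, ∃ g : k[X], g.Monic ∧ g.natDegree = N ∧
      ((∀ p, D p (f m) = 0) → aeval (f m) g = 0) := by
    intro m
    by_cases hm : ∀ p, D p (f m) = 0
    · obtain ⟨g, hg1, hg2, hg3⟩ := hN (f m) hm
      exact ⟨g, hg1, hg2, fun _ => hg3⟩
    · exact ⟨X ^ N, monic_X_pow N, natDegree_X_pow N, fun h => absurd h hm⟩
  choose g hg1 hg2 hg3 using h2
  set a : ℕ → BF k hQ := fun j => ⟨Q fun m => algebraMap k L ((g m).coeff j), co_mem hQ _⟩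
    with ha
  set G : (BF k hQ)[X] := ∑ j ∈ Finset.range (N + 1), monomial j (a j) with hG
  refine ⟨G, ?_, ?_⟩
  · intro h0
    have h3 : G.coeff N = a N := by
      rw [hG, finsetSum_coeff]
      simp only [coeff_monomial]
      rw [Finset.sum_ite_eq' (Finset.range (N + 1)) N, if_pos (Finset.mem_range.2 (Nat.lt_succ_self N))]
    rw [h0, coeff_zero] at h3
    have h4 : (a N : Ω) = 1 := by
      have h5 : (fun m => algebraMap k L ((g m).coeff N)) = 1 := by
        funext m
        have h6 : (g m).coeff N = 1 := by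
          rw [← hg2 m]
          exact hg1 m
        rw [h6, map_one]
        rfl
      show Q _ = 1
      rw [h5, map_one]
    rw [← h3] at h4
    exact zero_ne_one h4
  · have h3 : aeval (Q f) G = Q fun m => aeval (f m) (g m) := by
      have h4 : (fun m => aeval (f m) (g m)) =
          ∑ j ∈ Finset.range (N + 1), (fun m => algebraMap k L ((g m).coeff j)) * f ^ j := by
        funext m
        rw [Finset.sum_apply, aeval_eq_sum_range' (n := N + 1) (by rw [hg2 m]; exact Nat.lt_succ_self N)]
        exact Finset.sum_congr rfl fun j _ => Algebra.smul_def _ _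
      rw [h4, hG, map_sum, map_sum]
      refine Finset.sum_congr rfl fun j _ => ?_
      rw [aeval_monomial, map_mul, map_pow]
      rfl
    rw [h3, hQ.ker]
    filter_upwards [h1] with m hm
    exact hg3 m hm

end Pool.Agent.Helper10.LB
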