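import Pool.Agent.Helper10.LB.PolyD
import Pool.Agent.Helper8.LG.UltraGerm
import Pool.Agent.Helper8.LG.Ultra

/-! # LB-BF: the bounded elements of the ultrapower -/

set_option autoImplicit false

namespace Pool.Agent.Helper10.LB

open scoped BigOperators
open Polynomial Pool.Agent.Helper8.LG

universe v

variable (k : Type v) {L Ω : Type*} [Field k] [Field L] [Algebra k L] [Field Ω]
  (Q : (ℕ → L) →+* Ω)

/-- `Q` is the quotient map onto the ultrapower -/
structure IsUl (Q : (ℕ → L) →+* Ω) : Prop where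
  surj : Function.Surjective Q
  ker : ∀ f, Q f = 0 ↔ ∀ᶠ m in (Filter.hyperfilter ℕ : Filter ℕ), f m = 0

/-- the bounded elements: quotients of sequences with values in finite-dimensional `k`-spaces -/
def bset : Set Ω :=
  {z | ∃ V : Submodule k L, FiniteDimensional k V ∧ ∃ n d : ℕ → L,
    (∀ m, n m ∈ V) ∧ (∀ m, d m ∈ V) ∧ (∀ m, d m ≠ 0) ∧ z * Q d = Q n}

variable {k Q}

theorem bf_ne (hQ : IsUl Q) (d : ℕ → L)
    (hd : ∀ᶠ m in (Filter.hyperfilter ℕ : Filter ℕ), d m ≠ 0) : Q d ≠ 0 := by
  intro h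
  rw [hQ.ker] at h
  obtain ⟨m, h1, h2⟩ := (h.and hd).exists
  exact h2 h1

theorem bf_prod {S : Type*} (W : Submodule k L) (T : Finset S) (f : S → L)
    (hf : ∀ s ∈ T, f s ∈ W) : ∏ s ∈ T, f s ∈ W ^ T.card := by
  classical
  induction T using Finset.induction_on with
  | empty =>
    rw [Finset.prod_empty, Finset.card_empty, pow_zero]
    exact Submodule.one_le.1 le_rfl
  | insert a T ha ih =>
    rw [Finset.prod_insert ha, Finset.card_insert_of_notMem ha, pow_succ']
    exact Submodule.mul_mem_mul (hf a (Finset.mem_insert_self a T))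
      (ih fun s hs => hf s (Finset.mem_insert_of_mem hs))

theorem bf_fd_pow (W : Submodule k L) [FiniteDimensional k W] (n : ℕ) :
    FiniteDimensional k ↥(W ^ n) := by
  have h : W.FG := (Submodule.fg_iff_finiteDimensional W).2 inferInstance
  exact (Submodule.fg_iff_finiteDimensional _).1 (h.pow n)

theorem bf_fd_mul (V W : Submodule k L) [FiniteDimensional k V] [FiniteDimensional k W] :
    FiniteDimensional k ↥(V * W) := by
  have h : V.FG := (Submodule.fg_iff_finiteDimensional V).2 inferInstance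
  have h' : W.FG := (Submodule.fg_iff_finiteDimensional W).2 inferInstance
  exact (Submodule.fg_iff_finiteDimensional _).1 (h.mul h')

/-- finitely many bounded elements have a common denominator -/
theorem bset_common (hQ : IsUl Q) {S : Type*} [Finite S] (z : S → Ω) (hz : ∀ s, z s ∈ bset k Q) :
    ∃ V : Submodule k L, FiniteDimensional k V ∧ ∃ (n : S → ℕ → L) (d : ℕ → L),
      (∀ s m, n s m ∈ V) ∧ (∀ m, d m ∈ V) ∧ (∀ m, d m ≠ 0) ∧ ∀ s, z s * Q d = Q (n s) := by
  classical
  have := Fintype.ofFinite S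
  choose V hV n d hn hd hd0 hz' using hz
  let W : Submodule k L := ⨆ s, V s
  have hW : FiniteDimensional k W := inferInstance
  have hVW : ∀ s, V s ≤ W := fun s => le_iSup V s
  let f : S → ℕ → S → L := fun s m t => if t = s then n s m else d t m
  refine ⟨W ^ (Finset.univ : Finset S).card, bf_fd_pow W _, fun s m => ∏ t, f s m t,
    fun m => ∏ t, d t m, fun s m => ?_, fun m => ?_, fun m => ?_, fun s => ?_⟩
  · refine bf_prod W _ _ fun t _ => ?_
    by_cases h : t = s
    · simp only [f, if_pos h]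
      exact hVW s (hn s m)
    · simp only [f, if_neg h]
      exact hVW t (hd t m)
  · exact bf_prod W _ _ fun t _ => hVW t (hd t m)
  · exact Finset.prod_ne_zero_iff.2 fun t _ => hd0 t m
  · have h1 : (fun m => ∏ t, d t m) = d s * fun m => ∏ t ∈ Finset.univ.erase s, d t m := by
      funext m
      exact (Finset.mul_prod_erase _ _ (Finset.mem_univ s)).symm
    have h2 : (fun m => ∏ t, f s m t) = n s * fun m => ∏ t ∈ Finset.univ.erase s, d t m := by
      funext m
      rw [← Finset.mul_prod_erase _ _ (Finset.mem_univ s)]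
      have h3 : f s m s = n s m := if_pos rfl
      rw [h3]
      show _ = n s m * _
      congr 1
      exact Finset.prod_congr rfl fun t ht => if_neg (Finset.ne_of_mem_erase ht)
    show z s * Q (fun m => ∏ t, d t m) = Q (fun m => ∏ t, f s m t)
    rw [h1, h2, map_mul, map_mul, ← mul_assoc, hz' s]

/-- the same with the quotients themselves -/
theorem bset_lift (hQ : IsUl Q) {S : Type*} [Finite S] (z : S → Ω) (hz : ∀ s, z s ∈ bset k Q) :
    ∃ V : Submodule k L, FiniteDimensional k V ∧ ∃ (ζ : S → ℕ → L) (e : ℕ → L),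
      (∀ m, e m ∈ V) ∧ (∀ m, e m ≠ 0) ∧ (∀ s m, e m * ζ s m ∈ V) ∧ ∀ s, Q (ζ s) = z s := by
  obtain ⟨V, hV, n, d, hn, hd, hd0, h⟩ := bset_common hQ z hz
  refine ⟨V, hV, fun s m => n s m / d m, d, hd, hd0, fun s m => ?_, fun s => ?_⟩
  · show d m * (n s m / d m) ∈ V
    rw [mul_div_cancel₀ _ (hd0 m)]
    exact hn s m
  · rw [ul_Q_div Q hQ.ker _ _ hd0, ← h s]
    exact mul_div_cancel_right₀ _ (bf_ne hQ d (Filter.Eventually.of_forall hd0))

theorem bset_of_fd (hQ : IsUl Q) (V : Submodule k L) [FiniteDimensional k V] (n d : ℕ → L)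
    (hn : ∀ᶠ m in (Filter.hyperfilter ℕ : Filter ℕ), n m ∈ V)
    (hd : ∀ᶠ m in (Filter.hyperfilter ℕ : Filter ℕ), d m ∈ V)
    (hd0 : ∀ᶠ m in (Filter.hyperfilter ℕ : Filter ℕ), d m ≠ 0)
    (z : Ω) (hz : z * Q d = Q n) : z ∈ bset k Q := by
  classical
  let G : ℕ → Prop := fun m => n m ∈ V ∧ d m ∈ V ∧ d m ≠ 0
  have hG : ∀ᶠ m in (Filter.hyperfilter ℕ : Filter ℕ), G m := hn.and (hd.and hd0)
  let n' : ℕ → L := fun m => if G m then n m else 1
  let d' : ℕ → L := fun m => if G m then d m else 1
  have hV1 : V ≤ V ⊔ k ∙ (1 : L) := le_sup_left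
  have h1V : (1 : L) ∈ V ⊔ k ∙ (1 : L) :=
    (le_sup_right : k ∙ (1 : L) ≤ V ⊔ k ∙ (1 : L)) (Submodule.mem_span_singleton_self _)
  have e1 : Q d' = Q d := by
    rw [ul_eq Q hQ.ker]
    filter_upwards [hG] with m hm
    exact if_pos hm
  have e2 : Q n' = Q n := by
    rw [ul_eq Q hQ.ker]
    filter_upwards [hG] with m hm
    exact if_pos hm
  refine ⟨V ⊔ k ∙ (1 : L), inferInstance, n', d', fun m => ?_, fun m => ?_, fun m => ?_, ?_⟩
  · by_cases h : G m
    · simp only [n', if_pos h]
      exact hV1 h.1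
    · simp only [n', if_neg h]
      exact h1V
  · by_cases h : G m
    · simp only [d', if_pos h]
      exact hV1 h.2.1
    · simp only [d', if_neg h]
      exact h1V
  · by_cases h : G m
    · simp only [d', if_pos h]
      exact h.2.2
    · simp only [d', if_neg h]
      exact one_ne_zero
  · rw [e1, e2, hz]

theorem bset_const (hQ : IsUl Q) (b : L) : (Q fun _ => b) ∈ bset k Q := by
  have hfd : FiniteDimensional k (Submodule.span k ({b, 1} : Set L)) :=
    FiniteDimensional.span_of_finite k (Set.toFinite _)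
  refine bset_of_fd hQ (Submodule.span k {b, 1}) (fun _ => b) (fun _ => 1)
    (Filter.Eventually.of_forall fun _ => Submodule.subset_span (Set.mem_insert _ _))
    (Filter.Eventually.of_forall fun _ => Submodule.subset_span
      (Set.mem_insert_of_mem _ (Set.mem_singleton _)))
    (Filter.Eventually.of_forall fun _ => one_ne_zero) _ ?_
  have h : Q (fun _ => (1 : L)) = 1 := map_one Q
  rw [h, mul_one]

theorem bset_mul (hQ : IsUl Q) (x y : Ω) (hx : x ∈ bset k Q) (hy : y ∈ bset k Q) :
    x * y ∈ bset k Q := by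
  obtain ⟨V, hV, n, d, hn, hd, hd0, h1⟩ := bset_common hQ (fun b : Bool => if b then x else y)
    (fun b => by cases b <;> assumption)
  have hF := bf_fd_mul V V
  refine bset_of_fd hQ (V * V) (n true * n false) (d * d)
    (Filter.Eventually.of_forall fun m => Submodule.mul_mem_mul (hn _ m) (hn _ m))
    (Filter.Eventually.of_forall fun m => Submodule.mul_mem_mul (hd m) (hd m))
    (Filter.Eventually.of_forall fun m => mul_ne_zero (hd0 m) (hd0 m)) _ ?_
  have e1 : x * Q d = Q (n true) := h1 true
  have e2 : y * Q d = Q (n false) := h1 false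
  rw [map_mul, map_mul, ← e1, ← e2]
  ring

theorem bset_add (hQ : IsUl Q) (x y : Ω) (hx : x ∈ bset k Q) (hy : y ∈ bset k Q) :
    x + y ∈ bset k Q := by
  obtain ⟨V, hV, n, d, hn, hd, hd0, h1⟩ := bset_common hQ (fun b : Bool => if b then x else y)
    (fun b => by cases b <;> assumption)
  refine bset_of_fd hQ V (n true + n false) d
    (Filter.Eventually.of_forall fun m => add_mem (hn _ m) (hn _ m))
    (Filter.Eventually.of_forall fun m => hd m)
    (Filter.Eventually.of_forall fun m => hd0 m) _ ?_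
  have e1 : x * Q d = Q (n true) := h1 true
  have e2 : y * Q d = Q (n false) := h1 false
  rw [map_add, ← e1, ← e2]
  ring

theorem bset_inv (hQ : IsUl Q) (x : Ω) (hx : x ∈ bset k Q) : x⁻¹ ∈ bset k Q := by
  rcases eq_or_ne x 0 with h0 | h0
  · rw [h0, inv_zero, ← h0]
    exact hx
  · obtain ⟨V, hV, n, d, hn, hd, hd0, h1⟩ := hx
    have hd' := bf_ne hQ d (Filter.Eventually.of_forall hd0)
    refine bset_of_fd hQ V d n (Filter.Eventually.of_forall fun m => hd m)
      (Filter.Eventually.of_forall fun m => hn m) ?_ _ ?_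
    · have h2 : Q n ≠ 0 := by
        rw [← h1]
        exact mul_ne_zero h0 hd'
      exact Ultrafilter.eventually_not.2 fun h3 => h2 ((hQ.ker n).2 h3)
    · rw [← h1, inv_mul_cancel_left₀ h0]

variable (k) in
/-- the subfield of the bounded elements -/
theorem exists_BF (hQ : IsUl Q) : ∃ F : Subfield Ω, (F : Set Ω) = bset k Q := by
  have h1 : (1 : Ω) ∈ bset k Q := by
    have h := bset_const (k := k) hQ (1 : L)
    have h' : Q (fun _ => (1 : L)) = 1 := map_one Q
    rwa [h'] at h
  have h0 : (0 : Ω) ∈ bset k Q := by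
    have h := bset_const (k := k) hQ (0 : L)
    have h' : Q (fun _ => (0 : L)) = 0 := map_zero Q
    rwa [h'] at h
  have hm : (-1 : Ω) ∈ bset k Q := by
    have h := bset_const (k := k) hQ (-1 : L)
    have h' : Q (fun _ => (-1 : L)) = -1 := by
      have h2 : (fun _ : ℕ => (-1 : L)) = -1 := rfl
      rw [h2, map_neg, map_one]
    rwa [h'] at h
  exact ⟨{ carrier := bset k Q
           mul_mem' := fun {x y} hx hy => bset_mul hQ x y hx hy
           one_mem' := h1
           add_mem' := fun {x y} hx hy => bset_add hQ x y hx hy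
           zero_mem' := h0
           neg_mem' := fun {x} hx => by
             rw [← neg_one_mul]
             exact bset_mul hQ _ _ hm hx
           inv_mem' := fun x hx => bset_inv hQ x hx }, rfl⟩

variable (k) in
/-- the subfield of the bounded elements -/
noncomputable def BF (hQ : IsUl Q) : Subfield Ω := (exists_BF k hQ).choose

variable (k) in
theorem mem_BF (hQ : IsUl Q) (z : Ω) : z ∈ BF k hQ ↔ z ∈ bset k Q := by
  have h := (exists_BF k hQ).choose_spec
  rw [← h]
  rfl

theorem const_mem (hQ : IsUl Q) (b : L) : (Q fun _ => b) ∈ BF k hQ := by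
  rw [mem_BF]
  exact bset_const hQ b

/-- stable under the derivations which kill `k` -/
theorem der_mem (hQ : IsUl Q) (D : Derivation ℤ L L) (hD : ∀ c : k, D (algebraMap k L c) = 0)
    (z : Ω) (hz : z ∈ BF k hQ) : ulDer Q hQ.surj hQ.ker D z ∈ BF k hQ := by
  rw [mem_BF] at hz ⊢
  obtain ⟨V, hV, n, d, hn, hd, hd0, h1⟩ := hz
  let T : L →ₗ[k] L :=
    { toFun := D
      map_add' := fun x y => map_add D x y
      map_smul' := fun c x => by
        show D (c • x) = c • D x
        rw [Algebra.smul_def c x, D.leibniz, hD, smul_zero, add_zero, smul_eq_mul,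
          Algebra.smul_def c (D x)] }
  let W : Submodule k L := V ⊔ V.map T
  have hW : FiniteDimensional k W := inferInstance
  have hF := bf_fd_mul W W
  have hVW : V ≤ W := le_sup_left
  have hTW : ∀ x ∈ V, D x ∈ W := fun x hx =>
    (le_sup_right : V.map T ≤ W) (Submodule.mem_map_of_mem (f := T) hx)
  have hd' := bf_ne hQ d (Filter.Eventually.of_forall hd0)
  refine bset_of_fd hQ (W * W) (fun m => D (n m) * d m - n m * D (d m)) (d * d)
    (Filter.Eventually.of_forall fun m => sub_mem
      (Submodule.mul_mem_mul (hTW _ (hn m)) (hVW (hd m)))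
      (Submodule.mul_mem_mul (hVW (hn m)) (hTW _ (hd m))))
    (Filter.Eventually.of_forall fun m => Submodule.mul_mem_mul (hVW (hd m)) (hVW (hd m)))
    (Filter.Eventually.of_forall fun m => mul_ne_zero (hd0 m) (hd0 m)) _ ?_
  have e1 : ulDer Q hQ.surj hQ.ker D (z * Q d) = ulDer Q hQ.surj hQ.ker D (Q n) := by rw [h1]
  rw [Derivation.leibniz, ulDer_apply, ulDer_apply, smul_eq_mul, smul_eq_mul] at e1
  have e2 : (fun m => D (n m) * d m - n m * D (d m)) =
      (fun m => D (n m)) * d - n * (fun m => D (d m)) := rfl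
  rw [e2, map_sub, map_mul, map_mul, map_mul, ← e1, ← h1]
  ring

/-- Los for polynomials: a polynomial over the ring of sequences whose image is zero is zero at
almost all places -/
theorem poly_los (hQ : IsUl Q) (p : (ℕ → L)[X]) (hp : p.map Q = 0) :
    ∀ᶠ m in (Filter.hyperfilter ℕ : Filter ℕ),
      p.map (Pi.evalRingHom (fun _ : ℕ => L) m) = 0 := by
  have h1 : ∀ n ∈ Finset.range (p.natDegree + 1),
      ∀ᶠ m in (Filter.hyperfilter ℕ : Filter ℕ), p.coeff n m = 0 := by
    intro n _
    rw [← hQ.ker, ← coeff_map, hp, coeff_zero]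
  rw [← Filter.eventually_all_finset] at h1
  filter_upwards [h1] with m hm
  ext n
  rw [coeff_map, coeff_zero]
  show p.coeff n m = 0
  by_cases hn : n ∈ Finset.range (p.natDegree + 1)
  · exact hm n hn
  · rw [Finset.mem_range, not_lt] at hn
    rw [coeff_eq_zero_of_natDegree_lt hn]
    rfl

/-- polynomials with bounded coefficients lift to polynomials with bounded coefficients -/
theorem poly_lift (hQ : IsUl Q) {S : Type*} [Finite S] (p : S → Polynomial Ω)
    (hp : ∀ s n, (p s).coeff n ∈ BF k hQ) {S' : Type*} [Finite S'] (z : S' → Ω)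
    (hz : ∀ s, z s ∈ BF k hQ) :
    ∃ V : Submodule k L, FiniteDimensional k V ∧
      ∃ (π : S → (ℕ → L)[X]) (ζ : S' → ℕ → L) (e : ℕ → L),
        (∀ m, e m ∈ V) ∧ (∀ m, e m ≠ 0) ∧ (∀ s n m, e m * (π s).coeff n m ∈ V) ∧
        (∀ s m, e m * ζ s m ∈ V) ∧ (∀ s, (π s).map Q = p s) ∧
        (∀ s, (π s).natDegree ≤ (p s).natDegree) ∧ (∀ s, (p s).Monic → (π s).Monic) ∧
        ∀ s, Q (ζ s) = z s := by
  classical
  have := Fintype.ofFinite S
  have hBS : ∀ x : (Σ s : S, Fin ((p s).natDegree + 1)) ⊕ S',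
      Sum.elim (fun y : Σ s : S, Fin ((p s).natDegree + 1) => (p y.1).coeff y.2) z x ∈
        bset k Q := by
    intro x
    rw [← mem_BF (k := k) hQ]
    rcases x with y | s
    · exact hp _ _
    · exact hz s
  obtain ⟨V, hV, ζ, e, he, he0, h1, h2⟩ := bset_lift hQ _ hBS
  let c : S → ℕ → ℕ → L := fun s n => if n = (p s).natDegree ∧ (p s).Monic then 1 else
    if h : n < (p s).natDegree + 1 then ζ (Sum.inl ⟨s, ⟨n, h⟩⟩) else 0
  let π : S → (ℕ → L)[X] := fun s =>
    ∑ n ∈ Finset.range ((p s).natDegree + 1), monomial n (c s n)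
  have hco : ∀ s n, (π s).coeff n = if n < (p s).natDegree + 1 then c s n else 0 := by
    intro s n
    simp only [π]
    rw [finsetSum_coeff]
    simp only [coeff_monomial]
    rw [Finset.sum_ite_eq' (Finset.range ((p s).natDegree + 1)) n]
    simp only [Finset.mem_range]
  refine ⟨V, hV, π, fun s => ζ (Sum.inr s), e, he, he0, fun s n m => ?_, fun s m => h1 _ m,
    fun s => ?_, fun s => ?_, fun s hs => ?_, fun s => h2 _⟩
  · rw [hco]
    by_cases hn : n < (p s).natDegree + 1
    · rw [if_pos hn]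
      by_cases hm : n = (p s).natDegree ∧ (p s).Monic
      · simp only [c, if_pos hm]
        show e m * 1 ∈ V
        rw [mul_one]
        exact he m
      · simp only [c, if_neg hm, dif_pos hn]
        exact h1 _ m
    · rw [if_neg hn]
      show e m * 0 ∈ V
      rw [mul_zero]
      exact zero_mem V
  · ext n
    rw [coeff_map, hco]
    by_cases hn : n < (p s).natDegree + 1
    · rw [if_pos hn]
      by_cases hm : n = (p s).natDegree ∧ (p s).Monic
      · simp only [c, if_pos hm]
        rw [map_one, hm.1]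
        exact hm.2.symm
      · simp only [c, if_neg hm, dif_pos hn]
        exact h2 _
    · rw [if_neg hn, map_zero, coeff_eq_zero_of_natDegree_lt (by omega)]
  · rw [natDegree_le_iff_coeff_eq_zero]
    intro n hn
    rw [hco, if_neg (by omega)]
  · refine monic_of_natDegree_le_of_coeff_eq_one (p s).natDegree ?_ ?_
    · rw [natDegree_le_iff_coeff_eq_zero]
      intro n hn
      rw [hco, if_neg (by omega)]
    · rw [hco, if_pos (by omega)]
      exact if_pos ⟨rfl, hs⟩

theorem map_mapD (hQ : IsUl Q) (D : Derivation ℤ L L) (p : (ℕ → L)[X]) :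
    ∃ p' : (ℕ → L)[X], p'.map Q = mapD (ulDer Q hQ.surj hQ.ker D) (p.map Q) ∧
      ∀ m, p'.map (Pi.evalRingHom (fun _ : ℕ => L) m) =
        mapD D (p.map (Pi.evalRingHom (fun _ : ℕ => L) m)) := by
  classical
  have hco : ∀ n, (∑ i ∈ Finset.range (p.natDegree + 1),
      monomial i (fun m => D (p.coeff i m))).coeff n = fun m => D (p.coeff n m) := by
    intro n
    rw [finsetSum_coeff]
    simp only [coeff_monomial]
    rw [Finset.sum_ite_eq' (Finset.range (p.natDegree + 1)) n]
    by_cases hn : n ∈ Finset.range (p.natDegree + 1)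
    · rw [if_pos hn]
    · rw [if_neg hn]
      rw [Finset.mem_range, not_lt] at hn
      funext m
      rw [coeff_eq_zero_of_natDegree_lt hn]
      exact (map_zero D).symm
  refine ⟨∑ i ∈ Finset.range (p.natDegree + 1), monomial i (fun m => D (p.coeff i m)),
    ?_, fun m => ?_⟩
  · ext n
    rw [coeff_map, hco, coeff_mapD, coeff_map, ulDer_apply]
  · ext n
    rw [coeff_map, hco, coeff_mapD, coeff_map]
    rfl

end Pool.Agent.Helper10.LB
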