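import Pool.Agent.Helper10.LB.MasonBound
import Pool.Agent.Helper10.LB.BField

/-! # LB-OM: the Mason bound in the ultrapower -/

set_option autoImplicit false

namespace Pool.Agent.Helper10.LB

open scoped BigOperators
open Polynomial Pool.Agent.Helper8.LG

section OmAux

theorem om_lift {Ω : Type*} [Field Ω] (F : Subfield Ω) (p : Polynomial Ω)
    (hp : ∀ n, p.coeff n ∈ F) : ∃ p' : Polynomial F, p'.map F.subtype = p := by
  have h : p ∈ Polynomial.lifts F.subtype := by
    rw [Polynomial.lifts_iff_coeff_lifts]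
    intro n
    exact ⟨⟨p.coeff n, hp n⟩, rfl⟩
  exact (Polynomial.mem_lifts _).1 h

theorem om_coe {Ω : Type*} [Field Ω] (F : Subfield Ω) (p : Polynomial F) (n : ℕ) :
    (p.map F.subtype).coeff n ∈ F := by
  rw [coeff_map]
  exact (p.coeff n).2

/-- the quotient by a monic polynomial -/
theorem om_quot {Ω : Type*} [Field Ω] (F : Subfield Ω) (h g w : Polynomial Ω)
    (hF : ∀ n, h.coeff n ∈ F) (hg : ∀ n, g.coeff n ∈ F) (hm : h.Monic) (hw : h * w = g) :
    ∀ n, w.coeff n ∈ F := by
  obtain ⟨h', hh'⟩ := om_lift F h hF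
  obtain ⟨g', hg'⟩ := om_lift F g hg
  have hm' : h'.Monic := by
    rw [← hh'] at hm
    exact Polynomial.monic_of_injective F.subtype.injective hm
  have h1 : w = (g' /ₘ h').map F.subtype := by
    rw [Polynomial.map_divByMonic _ hm', hh', hg', ← hw, mul_divByMonic_cancel_left _ hm]
  intro n
  rw [h1]
  exact om_coe F _ n

/-- Bezout over the subfield -/
theorem om_bez {Ω : Type*} [Field Ω] (F : Subfield Ω) (h : Polynomial Ω)
    (hF : ∀ n, h.coeff n ∈ F) (hs : h.Separable) :
    ∃ α β : Polynomial Ω, (∀ n, α.coeff n ∈ F) ∧ (∀ n, β.coeff n ∈ F) ∧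
      α * h + β * derivative h = 1 := by
  obtain ⟨h', hh'⟩ := om_lift F h hF
  have hs' : h'.Separable := by
    rw [← hh', Polynomial.separable_map] at hs
    exact hs
  obtain ⟨α, β, hab⟩ := hs'
  refine ⟨α.map F.subtype, β.map F.subtype, om_coe F _, om_coe F _, ?_⟩
  rw [← hh', Polynomial.derivative_map, ← Polynomial.map_mul, ← Polynomial.map_mul,
    ← Polynomial.map_add, hab, Polynomial.map_one]

theorem om_revAt {N i : ℕ} (h : N < i) : revAt N i = i := by
  show revAtFun N i = i
  unfold revAtFun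
  exact if_neg (by omega)

/-- the reversal of a separable monic polynomial -/
theorem om_rev {Ω : Type*} [Field Ω] (h : Polynomial Ω) (hm : h.Monic) (hs : h.Separable)
    (hd : 1 ≤ h.natDegree) : h.reverse.Separable := by
  obtain ⟨α, β, hab⟩ := hs
  obtain ⟨n, hn⟩ : ∃ n, h.natDegree = n + 1 := ⟨h.natDegree - 1, by omega⟩
  obtain ⟨S, hS⟩ : ∃ S : Polynomial Ω, S = (derivative h).reflect n := ⟨_, rfl⟩
  have hco : ∀ i, h.reverse.coeff i = h.coeff (revAt (n + 1) i) := by
    intro i
    rw [coeff_reverse, hn]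
  have h1 : X * derivative h.reverse + S = C ((n : Ω) + 1) * h.reverse := by
    ext i
    rw [coeff_add, coeff_C_mul, hS, coeff_reflect, coeff_derivative]
    rcases Nat.lt_or_ge (n + 1) i with hi | hi
    · obtain ⟨j, rfl⟩ : ∃ j, i = j + 1 := ⟨i - 1, by omega⟩
      have e1 : revAt n (j + 1) = j + 1 := by
        exact om_revAt (by omega)
      have e2 : revAt (n + 1) (j + 1) = j + 1 := by
        exact om_revAt (by omega)
      rw [coeff_X_mul, coeff_derivative, hco, e1, e2, coeff_eq_zero_of_natDegree_lt (by omega),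
        coeff_eq_zero_of_natDegree_lt (by omega)]
      ring
    · rcases Nat.eq_zero_or_pos i with h0 | h0
      · rw [h0, mul_coeff_zero, coeff_X_zero, zero_mul, zero_add, hco, revAt_le (by omega),
          revAt_le (by omega), Nat.sub_zero, Nat.sub_zero]
        ring
      · obtain ⟨j, rfl⟩ : ∃ j, i = j + 1 := ⟨i - 1, by omega⟩
        rw [coeff_X_mul, coeff_derivative, hco, revAt_le hi]
        rcases Nat.lt_or_ge n (j + 1) with hj | hj
        · have e0 : j = n := by omega
          have e1 : revAt n (j + 1) = j + 1 := by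
            exact om_revAt (by omega)
          rw [e1, coeff_eq_zero_of_natDegree_lt (p := h) (n := j + 1 + 1) (by omega), e0]
          ring
        · rw [revAt_le hj]
          have e3 : n - (j + 1) + 1 = n + 1 - (j + 1) := by omega
          rw [e3]
          have e4 : ((n - (j + 1) : ℕ) : Ω) = (n : Ω) - ((j : Ω) + 1) := by
            rw [Nat.cast_sub hj]
            push_cast
            ring
          rw [e4]
          ring
  obtain ⟨N, hN⟩ : ∃ N, N = max α.natDegree β.natDegree := ⟨_, rfl⟩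
  have hda : α.natDegree ≤ N := by rw [hN]; exact le_max_left _ _
  have hdb : β.natDegree ≤ N + 1 := by rw [hN]; exact (le_max_right _ _).trans (Nat.le_succ _)
  have hder : (derivative h).natDegree ≤ n := by
    have := natDegree_derivative_le h
    omega
  have h2 : α.reflect N * h.reverse + β.reflect (N + 1) * S = X ^ (N + (n + 1)) := by
    have h3 := congrArg (reflect (N + (n + 1))) hab
    have e5 : N + (n + 1) = (N + 1) + n := by ring
    rw [reflect_add, reflect_mul α h hda (by omega), e5, reflect_mul β _ hdb hder,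
      reflect_one] at h3
    rw [hS, e5, ← h3, reverse, hn]
  have h4 : h.reverse.coeff 0 = 1 := by
    rw [coeff_zero_reverse]
    exact hm
  have h5 : IsCoprime h.reverse X := by
    refine ⟨1, -(divX h.reverse), ?_⟩
    have h6 := divX_mul_X_add h.reverse
    rw [h4, C_1] at h6
    linear_combination -h6
  obtain ⟨a, b, hab'⟩ := h5.pow_right (n := N + (n + 1))
  have h7 : S = C ((n : Ω) + 1) * h.reverse - X * derivative h.reverse := by
    rw [← h1]; ring
  rw [h7] at h2
  refine ⟨a + b * (α.reflect N + β.reflect (N + 1) * C ((n : Ω) + 1)),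
    -(b * β.reflect (N + 1) * X), ?_⟩
  linear_combination hab' + b * h2

theorem om_mr {R E : Type*} [CommRing R] [CommRing E] [Nontrivial E] (p : R[X]) (hp : p.Monic)
    (f : R →+* E) : p.reverse.map f = (p.map f).reverse := by
  rw [reverse, reverse, hp.natDegree_map f, reflect_map]

end OmAux

section

variable {k L Ω : Type*} [Field k] [Field L] [CharZero L] [Algebra k L] [Field Ω]
    {Q : (ℕ → L) →+* Ω}

/-- Los for an equality of polynomials -/
theorem om_los (hQ : IsUl Q) (p q : (ℕ → L)[X]) (h : p.map Q = q.map Q) :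
    ∀ᶠ m in (Filter.hyperfilter ℕ : Filter ℕ),
      p.map (Pi.evalRingHom (fun _ : ℕ => L) m) = q.map (Pi.evalRingHom (fun _ : ℕ => L) m) := by
  have h1 := poly_los hQ (p - q) (by rw [Polynomial.map_sub, h, sub_self])
  filter_upwards [h1] with m hm
  rw [Polynomial.map_sub, sub_eq_zero] at hm
  exact hm

/-- Mason: if `z` is the coordinate of an integral point on a bounded line then `z` is bounded or
`D z = q(z)` -/
theorem mason_bdd (hQ : IsUl Q) {P T : Type*} [Finite P] [Finite T] [DecidableEq T] (y : T → L)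
    (D : P → Derivation ℤ L L) (hy : Dirs k y D) {σ ι : Type*} [Fintype σ] [DecidableEq σ]
    [Fintype ι] [DecidableEq ι] {d : ι → ℕ} (a : (i : ι) → Sym σ (d i) → L) (Z : Finset ι)
    (A : Subalgebra k L) (hA : A.FG) (X : ℕ → σ → L) (hX : ∀ m, Pt a Z A.toSubring (X m))
    (u v : σ → Ω) (hu : ∀ l, u l ∈ BF k hQ) (hv : ∀ l, v l ∈ BF k hQ) (b b' : σ)
    (hpi : u b * v b' - u b' * v b ≠ 0)
    (htop : ∀ i ∉ Z, form (fun J => Q fun _ => a i J) v ≠ 0) (lam z : Ω) (hlam : lam ≠ 0)
    (hx : ∀ l, (Q fun m => X m l) = lam * (u l + z * v l)) (h w : Polynomial Ω)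
    (hF : ∀ n, h.coeff n ∈ BF k hQ) (hmon : h.Monic) (hr : 3 ≤ h.natDegree) (hsep : h.Separable)
    (hw : h * w = ∏ i ∈ Zᶜ, lf (fun J => Q fun _ => a i J) u v) (p : P) (q : Polynomial Ω)
    (hqF : ∀ n, q.coeff n ∈ BF k hQ) (hq : q.natDegree < h.natDegree)
    (hdvd : h ∣ mapD (ulDer Q hQ.surj hQ.ker (D p)) h + derivative h * q) :
    z ∈ BF k hQ ∨ ulDer Q hQ.surj hQ.ker (D p) z = q.eval z := by
  classical
  obtain ⟨s, hs⟩ := hdvd
  -- everything has coefficients in `BF`
  have hprodF : ∀ n, (∏ i ∈ Zᶜ, lf (fun J => Q fun _ => a i J) u v).coeff n ∈ BF k hQ := by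
    obtain ⟨g, hg⟩ : ∃ g : Polynomial (BF k hQ), g = ∏ i ∈ Zᶜ,
        lf (E := BF k hQ) (fun J => ⟨Q fun _ => a i J, const_mem hQ (a i J)⟩)
          (fun l => ⟨u l, hu l⟩) (fun l => ⟨v l, hv l⟩) := ⟨_, rfl⟩
    have h1 : (∏ i ∈ Zᶜ, lf (fun J => Q fun _ => a i J) u v) = g.map (BF k hQ).subtype := by
      rw [hg, Polynomial.map_prod]
      refine Finset.prod_congr rfl fun i _ => ?_
      rw [lf_map]
      rfl
    intro n
    rw [h1]
    exact om_coe _ _ n
  have hwF : ∀ n, w.coeff n ∈ BF k hQ := om_quot _ h _ w hF hprodF hmon hw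
  have hsF : ∀ n, s.coeff n ∈ BF k hQ := by
    obtain ⟨h', hh'⟩ := om_lift _ h hF
    obtain ⟨q', hq'⟩ := om_lift _ q hqF
    obtain ⟨e', he'⟩ := om_lift (BF k hQ) (mapD (ulDer Q hQ.surj hQ.ker (D p)) h) (fun n => by
      rw [coeff_mapD]
      exact der_mem hQ (D p) (hy.ker p) _ (hF n))
    refine om_quot _ h _ s hF ?_ hmon hs.symm
    intro n
    have h1 : mapD (ulDer Q hQ.surj hQ.ker (D p)) h + derivative h * q =
        (e' + derivative h' * q').map (BF k hQ).subtype := by
      rw [Polynomial.map_add, Polynomial.map_mul, ← Polynomial.derivative_map, he', hh', hq']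
    rw [h1]
    exact om_coe _ _ n
  obtain ⟨α, β, hαF, hβF, hab⟩ := om_bez (BF k hQ) h hF hsep
  obtain ⟨α', β', hαF', hβF', hab'⟩ := om_bez (BF k hQ) h.reverse
    (fun n => by rw [coeff_reverse]; exact hF _) (om_rev h hmon hsep (by omega))
  have hform : ∀ i, form (fun J => Q fun _ => a i J) v ∈ BF k hQ := by
    intro i
    have h1 := pd_map_form (BF k hQ).subtype (fun J => ⟨Q fun _ => a i J, const_mem hQ (a i J)⟩)
      (fun l => ⟨v l, hv l⟩)
    have h2 : (BF k hQ).subtype (form (fun J => ⟨Q fun _ => a i J, const_mem hQ (a i J)⟩)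
      (fun l => ⟨v l, hv l⟩)) ∈ BF k hQ := Subtype.coe_prop _
    rw [h1] at h2
    exact h2
  -- the lifts
  obtain ⟨V, hV, π, ζ, e, heV, he0, hπV, hζV, hπQ, hπd, hπm, hζQ⟩ := poly_lift hQ
    (S := Fin 8) ![h, w, q, s, α, β, α', β'] (fun i => by
      fin_cases i
      · exact hF
      · exact hwF
      · exact hqF
      · exact hsF
      · exact hαF
      · exact hβF
      · exact hαF'
      · exact hβF')
    (S' := (σ ⊕ σ) ⊕ (Unit ⊕ ι))
    (Sum.elim (Sum.elim u v) (Sum.elim (fun _ => (u b * v b' - u b' * v b)⁻¹)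
      (fun i => (form (fun J => Q fun _ => a i J) v)⁻¹))) (fun i => by
      rcases i with (l | l) | (l | i)
      · exact hu l
      · exact hv l
      · exact inv_mem (sub_mem (mul_mem (hu b) (hv b')) (mul_mem (hu b') (hv b)))
      · exact inv_mem (hform i))
  have q0 : (π 0).map Q = h := hπQ 0
  have q1 : (π 1).map Q = w := hπQ 1
  have q2 : (π 2).map Q = q := hπQ 2
  have q3 : (π 3).map Q = s := hπQ 3
  have q4 : (π 4).map Q = α := hπQ 4
  have q5 : (π 5).map Q = β := hπQ 5
  have q6 : (π 6).map Q = α' := hπQ 6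
  have q7 : (π 7).map Q = β' := hπQ 7
  have m0 : (π 0).Monic := hπm 0 hmon
  have d2 : (π 2).natDegree ≤ q.natDegree := hπd 2
  obtain ⟨U, hU⟩ : ∃ U : σ → ℕ → L, U = fun l => ζ (Sum.inl (Sum.inl l)) := ⟨_, rfl⟩
  obtain ⟨W, hW⟩ : ∃ W : σ → ℕ → L, W = fun l => ζ (Sum.inl (Sum.inr l)) := ⟨_, rfl⟩
  obtain ⟨c, hc⟩ : ∃ c : ℕ → L, c = ζ (Sum.inr (Sum.inl ())) := ⟨_, rfl⟩
  obtain ⟨t, ht⟩ : ∃ t : ι → ℕ → L, t = fun i => ζ (Sum.inr (Sum.inr i)) := ⟨_, rfl⟩
  have hUQ : ∀ l, Q (U l) = u l := by intro l; rw [hU]; exact hζQ _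
  have hWQ : ∀ l, Q (W l) = v l := by intro l; rw [hW]; exact hζQ _
  have hcQ : Q c = (u b * v b' - u b' * v b)⁻¹ := by rw [hc]; exact hζQ _
  have htQ : ∀ i, Q (t i) = (form (fun J => Q fun _ => a i J) v)⁻¹ := by
    intro i; rw [ht]; exact hζQ _
  have hUV : ∀ l m, e m * U l m ∈ V := by intro l m; rw [hU]; exact hζV _ _
  have hWV : ∀ l m, e m * W l m ∈ V := by intro l m; rw [hW]; exact hζV _ _
  have hcV : ∀ m, e m * c m ∈ V := by intro m; rw [hc]; exact hζV _ _
  have htV : ∀ i m, e m * t i m ∈ V := by intro i m; rw [ht]; exact hζV _ _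
  obtain ⟨lam', hlam'⟩ := hQ.surj lam
  obtain ⟨z', hz'⟩ := hQ.surj z
  -- the events
  have E1 : ∀ᶠ m in (Filter.hyperfilter ℕ : Filter ℕ),
      ∀ l, X m l = lam' m * (U l m + z' m * W l m) := by
    rw [Filter.eventually_all]
    intro l
    have h1 : Q (fun m => X m l) = Q (lam' * (U l + z' * W l)) := by
      rw [hx l, map_mul, map_add, map_mul, hUQ, hWQ, hlam', hz']
    rw [ul_eq Q hQ.ker] at h1
    exact h1
  have E2 : ∀ᶠ m in (Filter.hyperfilter ℕ : Filter ℕ), lam' m ≠ 0 := by
    refine Ultrafilter.eventually_not.2 fun h3 => hlam ?_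
    rw [← hlam', hQ.ker]
    exact h3
  have E3 : ∀ᶠ m in (Filter.hyperfilter ℕ : Filter ℕ),
      (U b m * W b' m - U b' m * W b m) * c m = 1 := by
    have h1 : Q ((U b * W b' - U b' * W b) * c) = Q 1 := by
      rw [map_mul, map_sub, map_mul, map_mul, hUQ, hUQ, hWQ, hWQ, hcQ, mul_inv_cancel₀ hpi,
        map_one]
    rw [ul_eq Q hQ.ker] at h1
    exact h1
  have E4 : ∀ᶠ m in (Filter.hyperfilter ℕ : Filter ℕ),
      ∀ i, i ∉ Z → form (a i) (fun l => W l m) * t i m = 1 := by
    rw [Filter.eventually_all]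
    intro i
    by_cases hi : i ∈ Z
    · exact Filter.Eventually.of_forall fun m h => absurd hi h
    · have h1 : Q ((fun m => form (a i) (fun l => W l m)) * t i) = Q 1 := by
        rw [map_mul, htQ, ul_Q_form Q (a i) (fun m l => W l m)]
        have h2 : (fun l => Q fun m => W l m) = v := funext fun l => hWQ l
        rw [h2, mul_inv_cancel₀ (htop i hi), map_one]
      rw [ul_eq Q hQ.ker] at h1
      filter_upwards [h1] with m hm _
      exact hm
  have E5 : ∀ᶠ m in (Filter.hyperfilter ℕ : Filter ℕ),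
      (π 0).map (Pi.evalRingHom (fun _ : ℕ => L) m) * (π 1).map (Pi.evalRingHom (fun _ : ℕ => L) m)
        = ∏ i ∈ Zᶜ, lf (a i) (fun l => U l m) (fun l => W l m) := by
    have h1 := om_los hQ (π 0 * π 1) (∏ i ∈ Zᶜ, lf (fun J => fun _ : ℕ => a i J) U W) (by
      rw [Polynomial.map_mul, q0, q1, hw, Polynomial.map_prod]
      refine Finset.prod_congr rfl fun i _ => ?_
      rw [lf_map]
      have h2 : (fun l => Q (U l)) = u := funext fun l => hUQ l
      have h3 : (fun l => Q (W l)) = v := funext fun l => hWQ l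
      rw [h2, h3])
    filter_upwards [h1] with m hm
    rw [Polynomial.map_mul, Polynomial.map_prod] at hm
    rw [hm]
    refine Finset.prod_congr rfl fun i _ => ?_
    rw [lf_map]
    rfl
  have E6 : ∀ᶠ m in (Filter.hyperfilter ℕ : Filter ℕ),
      mapD (D p) ((π 0).map (Pi.evalRingHom (fun _ : ℕ => L) m)) +
        derivative ((π 0).map (Pi.evalRingHom (fun _ : ℕ => L) m)) *
          (π 2).map (Pi.evalRingHom (fun _ : ℕ => L) m) =
        (π 0).map (Pi.evalRingHom (fun _ : ℕ => L) m) *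
          (π 3).map (Pi.evalRingHom (fun _ : ℕ => L) m) := by
    obtain ⟨p', hp1, hp2⟩ := map_mapD hQ (D p) (π 0)
    have h1 := om_los hQ (p' + derivative (π 0) * π 2) (π 0 * π 3) (by
      rw [Polynomial.map_add, Polynomial.map_mul, Polynomial.map_mul, hp1,
        ← Polynomial.derivative_map, q0, q2, q3]
      exact hs)
    filter_upwards [h1] with m hm
    rw [Polynomial.map_add, Polynomial.map_mul, Polynomial.map_mul, hp2,
      ← Polynomial.derivative_map] at hm
    exact hm
  have E7 : ∀ᶠ m in (Filter.hyperfilter ℕ : Filter ℕ),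
      (π 4).map (Pi.evalRingHom (fun _ : ℕ => L) m) * (π 0).map (Pi.evalRingHom (fun _ : ℕ => L) m)
        + (π 5).map (Pi.evalRingHom (fun _ : ℕ => L) m) *
          derivative ((π 0).map (Pi.evalRingHom (fun _ : ℕ => L) m)) = 1 := by
    have h1 := om_los hQ (π 4 * π 0 + π 5 * derivative (π 0)) 1 (by
      rw [Polynomial.map_add, Polynomial.map_mul, Polynomial.map_mul,
        ← Polynomial.derivative_map, q0, q4, q5, Polynomial.map_one]
      exact hab)
    filter_upwards [h1] with m hm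
    rw [Polynomial.map_add, Polynomial.map_mul, Polynomial.map_mul,
      ← Polynomial.derivative_map, Polynomial.map_one] at hm
    exact hm
  have E8 : ∀ᶠ m in (Filter.hyperfilter ℕ : Filter ℕ),
      (π 6).map (Pi.evalRingHom (fun _ : ℕ => L) m) *
          ((π 0).map (Pi.evalRingHom (fun _ : ℕ => L) m)).reverse
        + (π 7).map (Pi.evalRingHom (fun _ : ℕ => L) m) *
          derivative ((π 0).map (Pi.evalRingHom (fun _ : ℕ => L) m)).reverse = 1 := by
    have h1 := om_los hQ (π 6 * (π 0).reverse + π 7 * derivative (π 0).reverse) 1 (by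
      rw [Polynomial.map_add, Polynomial.map_mul, Polynomial.map_mul,
        ← Polynomial.derivative_map, om_mr _ m0, q0, q6, q7, Polynomial.map_one]
      exact hab')
    filter_upwards [h1] with m hm
    rw [Polynomial.map_add, Polynomial.map_mul, Polynomial.map_mul,
      ← Polynomial.derivative_map, Polynomial.map_one, om_mr _ m0] at hm
    exact hm
  have hdeg : ∀ m, ((π 0).map (Pi.evalRingHom (fun _ : ℕ => L) m)).natDegree = h.natDegree := by
    intro m
    rw [m0.natDegree_map, ← m0.natDegree_map Q, q0]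
  -- the Mason data
  have hM : ∀ᶠ m in (Filter.hyperfilter ℕ : Filter ℕ),
      MData a Z V (D p) (X m) (fun l => U l m) (fun l => W l m) (lam' m) (z' m) (e m)
        ((π 0).map (Pi.evalRingHom (fun _ : ℕ => L) m))
        ((π 1).map (Pi.evalRingHom (fun _ : ℕ => L) m))
        ((π 2).map (Pi.evalRingHom (fun _ : ℕ => L) m))
        ((π 3).map (Pi.evalRingHom (fun _ : ℕ => L) m))
        ((π 4).map (Pi.evalRingHom (fun _ : ℕ => L) m))
        ((π 5).map (Pi.evalRingHom (fun _ : ℕ => L) m))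
        ((π 6).map (Pi.evalRingHom (fun _ : ℕ => L) m))
        ((π 7).map (Pi.evalRingHom (fun _ : ℕ => L) m)) := by
    filter_upwards [E1, E2, E3, E4, E5, E6, E7, E8] with m e1 e2 e3 e4 e5 e6 e7 e8
    refine ⟨heV m, he0 m, e2, e1, fun l => hUV l m, fun l => hWV l m, ⟨b, b', ?_, ?_⟩,
      fun i hi => ⟨?_, ?_⟩, m0.map _, ?_, e5, ?_, e6, e7, e8, fun n => ?_⟩
    · exact left_ne_zero_of_mul (e3.trans_ne one_ne_zero)
    · rw [← eq_inv_of_mul_eq_one_right e3]
      exact hcV m
    · exact left_ne_zero_of_mul ((e4 i hi).trans_ne one_ne_zero)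
    · rw [← eq_inv_of_mul_eq_one_right (e4 i hi)]
      exact htV i m
    · rw [hdeg]
      exact hr
    · rw [hdeg]
      exact (natDegree_map_le.trans d2).trans_lt hq
    · simp only [coeff_map]
      exact ⟨hπV 0 n m, hπV 1 n m, hπV 2 n m, hπV 3 n m, hπV 4 n m, hπV 5 n m, hπV 6 n m,
        hπV 7 n m⟩
  obtain ⟨V', hV', hmem⟩ := mason_bound y D hy a Z A hA V
  obtain ⟨G, hG⟩ : ∃ G : ℕ → L, G = fun m =>
      (D p (z' m) - ((π 2).map (Pi.evalRingHom (fun _ : ℕ => L) m)).eval (z' m)) /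
        ((π 0).map (Pi.evalRingHom (fun _ : ℕ => L) m)).eval (z' m) := ⟨_, rfl⟩
  have hmem1 : ∀ᶠ m in (Filter.hyperfilter ℕ : Filter ℕ), e m ^ 2 * G m ∈ V' ∧
      e m ^ 2 * (G m * z' m) ∈ V' := by
    filter_upwards [hM] with m hm
    rw [hG]
    exact hmem p _ _ _ _ _ _ _ _ _ _ _ _ _ _ hm (hX m)
  by_cases hG0 : ∀ᶠ m in (Filter.hyperfilter ℕ : Filter ℕ), G m = 0
  · right
    have hzero : ∀ᶠ m in (Filter.hyperfilter ℕ : Filter ℕ),
        D p (z' m) = ((π 2).map (Pi.evalRingHom (fun _ : ℕ => L) m)).eval (z' m) := by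
      filter_upwards [hG0, E1, E5] with m g0 e1 e5
      rw [hG] at g0
      have hev : ((π 0).map (Pi.evalRingHom (fun _ : ℕ => L) m)).eval (z' m) ≠ 0 := by
        have h1 := congrArg (eval (z' m)) e5
        rw [eval_mul, eval_prod] at h1
        have h2 : ∏ i ∈ Zᶜ, (lf (a i) (fun l => U l m) (fun l => W l m)).eval (z' m) ≠ 0 := by
          refine Finset.prod_ne_zero_iff.2 fun i hi h3 => ?_
          rw [lf_eval] at h3
          apply (hX m).ne i (Finset.mem_compl.1 hi)
          rw [show X m = fun l => lam' m * (U l m + z' m * W l m) from funext e1, mb_form_smul,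
            h3, mul_zero]
        rw [← h1] at h2
        exact left_ne_zero_of_mul h2
      rcases div_eq_zero_iff.1 g0 with h4 | h4
      · exact sub_eq_zero.1 h4
      · exact absurd h4 hev
    rw [← hz', ulDer_apply, ← q2, eval_map, eval₂_at_apply, ul_eq Q hQ.ker]
    filter_upwards [hzero] with m hm
    rw [hm, eval_map]
    exact eval₂_at_apply (Pi.evalRingHom (fun _ : ℕ => L) m) z'
  · left
    have hG1 : ∀ᶠ m in (Filter.hyperfilter ℕ : Filter ℕ), G m ≠ 0 :=
      Ultrafilter.eventually_not.2 hG0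
    rw [mem_BF]
    refine bset_of_fd hQ V' (fun m => e m ^ 2 * (G m * z' m)) (fun m => e m ^ 2 * G m)
      (hmem1.mono fun m hm => hm.2) (hmem1.mono fun m hm => hm.1)
      (hG1.mono fun m hm => mul_ne_zero (pow_ne_zero _ (he0 m)) hm) z ?_
    rw [← hz', ← map_mul]
    congr 1
    funext m
    show z' m * (e m ^ 2 * G m) = e m ^ 2 * (G m * z' m)
    ring

end

end Pool.Agent.Helper10.LB
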