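import Pool.Agent.Helper10.LB.DerExt

/-! # LB-RI: Riccati equations -/

set_option autoImplicit false

namespace Pool.Agent.Helper10.LB

open scoped BigOperators
open Polynomial Pool.Agent.Helper8.LG

/-- `D r = q(r)` for the roots `r` of `h`. -/
theorem riccati_root {Ω K : Type*} [Field Ω] [Field K] [Algebra Ω K] (D : Derivation ℤ Ω Ω)
    (D' : Derivation ℤ K K) (hD : ∀ x, D' (algebraMap Ω K x) = algebraMap Ω K (D x))
    (h q : Polynomial Ω) (hsep : h.Separable) (hdvd : h ∣ mapD D h + derivative h * q)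
    (r : K) (hr : (h.map (algebraMap Ω K)).eval r = 0) :
    D' r = (q.map (algebraMap Ω K)).eval r := by
  have h1 := deriv_eval D' (h.map (algebraMap Ω K)) r
  rw [hr, map_zero] at h1
  have h2 : mapD D' (h.map (algebraMap Ω K)) = (mapD D h).map (algebraMap Ω K) := by
    ext n
    rw [coeff_mapD, coeff_map, coeff_map, coeff_mapD, hD]
  have h3 : (mapD D h).map (algebraMap Ω K) + derivative (h.map (algebraMap Ω K)) *
      q.map (algebraMap Ω K) = (mapD D h + derivative h * q).map (algebraMap Ω K) := by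
    rw [Polynomial.map_add, Polynomial.map_mul, Polynomial.derivative_map]
  have h4 : (h.map (algebraMap Ω K)) ∣ (mapD D h).map (algebraMap Ω K) +
      derivative (h.map (algebraMap Ω K)) * q.map (algebraMap Ω K) := by
    rw [h3]
    exact Polynomial.map_dvd _ hdvd
  have h5 : ((mapD D h).map (algebraMap Ω K) +
      derivative (h.map (algebraMap Ω K)) * q.map (algebraMap Ω K)).eval r = 0 :=
    Polynomial.eval_eq_zero_of_dvd_of_eval_eq_zero h4 hr
  rw [eval_add, eval_mul] at h5
  rw [h2] at h1
  have h6 : (derivative (h.map (algebraMap Ω K))).eval r ≠ 0 :=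
    (Polynomial.Separable.map hsep).eval₂_derivative_ne_zero (RingHom.id K)
      (by simpa [eval₂_id] using hr)
  apply mul_left_cancel₀ h6
  linear_combination -h1 - h5

theorem riccati_quad {K : Type*} [Field K] (g : K[X]) (hg : g.natDegree ≤ 2) (x : K) :
    g.eval x = g.coeff 0 + g.coeff 1 * x + g.coeff 2 * x ^ 2 := by
  rw [eval_eq_sum_range' (n := 3) (by omega)]
  simp [Finset.sum_range_succ]

/-- Riccati equations: if `z` and all roots of `h` satisfy `D_p z = q_p(z)` with `deg q_p ≤ 2`
and `h` has at least three roots then `z` is algebraic over the field of coefficients, provided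
that all constants are. -/
theorem riccati {Ω P : Type*} [Field Ω] [CharZero Ω] (F : Subfield Ω)
    (D : P → Derivation ℤ Ω Ω) (hconst : ∀ c : Ω, (∀ p, D p c = 0) → IsAlgebraic F c)
    (h : Polynomial Ω) (hF : ∀ n, h.coeff n ∈ F) (hsep : h.Separable) (hr : 3 ≤ h.natDegree)
    (q : P → Polynomial Ω) (hq : ∀ p, (q p).natDegree ≤ 2)
    (hdvd : ∀ p, h ∣ mapD (D p) h + derivative h * q p)
    (z : Ω) (hz : ∀ p, D p z = (q p).eval z) (hhz : h.eval z ≠ 0) : IsAlgebraic F z := by
  classical
  let K := h.SplittingField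
  let f := algebraMap Ω K
  have hfinj : Function.Injective f := (algebraMap Ω K).injective
  have hK0 : CharZero K := charZero_of_injective_algebraMap hfinj
  choose D' hD' using fun p => der_ext (K := K) (D p)
  have hh0 : h ≠ 0 := by
    rintro rfl
    simp at hr
  -- three distinct roots
  have hnd : (h.map f).roots.Nodup := nodup_roots (Polynomial.Separable.map hsep)
  have hcard : (h.map f).roots.card = h.natDegree := by
    have h1 := (Polynomial.SplittingField.splits h).natDegree_eq_card_roots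
    rw [← h1]
    exact natDegree_map _
  have hcard' : 3 ≤ (h.map f).roots.toFinset.card := by
    rw [Multiset.toFinset_card_of_nodup hnd, hcard]
    exact hr
  obtain ⟨r1, r2, r3, hr1, hr2, hr3, h12, h13, h23⟩ := Finset.two_lt_card_iff.mp (by omega :
    2 < (h.map f).roots.toFinset.card)
  have hroot : ∀ r ∈ (h.map f).roots.toFinset, (h.map f).eval r = 0 := by
    intro r hr
    rw [Multiset.mem_toFinset] at hr
    exact (mem_roots'.mp hr).2
  have e1 : ∀ p, D' p r1 = ((q p).map f).eval r1 := fun p =>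
    riccati_root (D p) (D' p) (hD' p) h (q p) hsep (hdvd p) r1 (hroot r1 hr1)
  have e2 : ∀ p, D' p r2 = ((q p).map f).eval r2 := fun p =>
    riccati_root (D p) (D' p) (hD' p) h (q p) hsep (hdvd p) r2 (hroot r2 hr2)
  have e3 : ∀ p, D' p r3 = ((q p).map f).eval r3 := fun p =>
    riccati_root (D p) (D' p) (hD' p) h (q p) hsep (hdvd p) r3 (hroot r3 hr3)
  have ez : ∀ p, D' p (f z) = ((q p).map f).eval (f z) := by
    intro p
    rw [hD', hz, eval_map, eval₂_at_apply]
  have hzr : ∀ r, (h.map f).eval r = 0 → f z - r ≠ 0 := by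
    intro r hr0 h0
    rw [sub_eq_zero] at h0
    rw [← h0, eval_map, eval₂_at_apply] at hr0
    exact hhz (hfinj (by rw [hr0, map_zero]))
  have hz1 := hzr r1 (hroot r1 hr1)
  have hz3 := hzr r3 (hroot r3 hr3)
  have h21 : r2 - r1 ≠ 0 := sub_ne_zero.mpr (Ne.symm h12)
  have h23' : r2 - r3 ≠ 0 := sub_ne_zero.mpr h23
  have h31 : r3 - r1 ≠ 0 := sub_ne_zero.mpr (Ne.symm h13)
  have hM : (f z - r3) * (r2 - r1) ≠ 0 := mul_ne_zero hz3 h21
  -- the cross ratio
  obtain ⟨c, hcM⟩ : ∃ c : K, (f z - r1) * (r2 - r3) = c * ((f z - r3) * (r2 - r1)) :=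
    ⟨((f z - r1) * (r2 - r3)) / ((f z - r3) * (r2 - r1)), (div_mul_cancel₀ _ hM).symm⟩
  have hcc : ∀ p, D' p c = 0 := by
    intro p
    have hq2 : ((q p).map f).natDegree ≤ 2 := natDegree_map_le.trans (hq p)
    have h1 := congrArg (D' p) hcM
    rw [Derivation.leibniz, Derivation.leibniz, Derivation.leibniz, map_sub, map_sub, map_sub,
      map_sub, e1 p, e2 p, e3 p, ez p] at h1
    simp only [smul_eq_mul, riccati_quad _ hq2] at h1
    generalize ((q p).map f).coeff 1 = b1 at h1
    generalize ((q p).map f).coeff 2 = b2 at h1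
    generalize ((q p).map f).coeff 0 = b0 at h1
    have h2 : ((f z - r3) * (r2 - r1)) * D' p c = 0 := by
      linear_combination (-1 : K) * h1 + (2 * b1 + b2 * (f z + r1 + r2 + r3)) * hcM
    exact (mul_eq_zero.mp h2).resolve_left hM
  have hcalg : IsAlgebraic Ω c := Algebra.IsAlgebraic.isAlgebraic c
  obtain ⟨g, hgm, hg, hgc⟩ := const_alg D D' hD' c hcalg hcc
  -- algebraicity over `F`
  have hcF : IsAlgebraic F c := by
    let S : IntermediateField F Ω := algebraicClosure F Ω
    have hmem : ∀ n, g.coeff n ∈ S := fun n => by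
      rw [mem_algebraicClosure_iff]
      exact hconst _ (hg n)
    have hlift : g ∈ Polynomial.lifts (algebraMap S Ω) := by
      rw [Polynomial.lifts_iff_coeff_lifts]
      intro n
      exact ⟨⟨g.coeff n, hmem n⟩, rfl⟩
    obtain ⟨g0, hg0⟩ := hlift
    have hg0' : g0.map (algebraMap S Ω) = g := hg0
    have hcS : IsAlgebraic S c := by
      refine ⟨g0, ?_, ?_⟩
      · rintro rfl
        rw [Polynomial.map_zero] at hg0'
        exact hgm.ne_zero hg0'.symm
      · rw [← hgc, ← hg0', aeval_map_algebraMap]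
    have htower : IsScalarTower F S K := IsScalarTower.of_algebraMap_eq (fun x => rfl)
    exact hcS.restrictScalars F
  have hrF : ∀ r, (h.map f).eval r = 0 → IsAlgebraic F r := by
    intro r hr0
    have hlift : h ∈ Polynomial.lifts (algebraMap F Ω) := by
      rw [Polynomial.lifts_iff_coeff_lifts]
      intro n
      exact ⟨⟨h.coeff n, hF n⟩, rfl⟩
    obtain ⟨g0, hg0⟩ := hlift
    have hg0' : g0.map (algebraMap F Ω) = h := hg0
    refine ⟨g0, ?_, ?_⟩
    · rintro rfl
      rw [Polynomial.map_zero] at hg0'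
      exact hh0 hg0'.symm
    · rw [← aeval_map_algebraMap Ω r g0, hg0', aeval_def, ← eval_map]
      exact hr0
  have a1 := hrF r1 (hroot r1 hr1)
  have a2 := hrF r2 (hroot r2 hr2)
  have a3 := hrF r3 (hroot r3 hr3)
  have hden : c * (r2 - r1) - (r2 - r3) ≠ 0 := by
    intro h0
    have h1 : (r2 - r3) * (r3 - r1) = 0 := by
      linear_combination hcM + (f z - r3) * h0
    rcases mul_eq_zero.mp h1 with h2 | h2
    · exact h23' h2
    · exact h31 h2
  have hzeq : f z = (c * r3 * (r2 - r1) - r1 * (r2 - r3)) / (c * (r2 - r1) - (r2 - r3)) := by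
    rw [eq_div_iff hden]
    linear_combination -hcM
  have hzF : IsAlgebraic F (f z) := by
    rw [hzeq, div_eq_mul_inv]
    exact (((hcF.mul a3).mul (a2.sub a1)).sub (a1.mul (a2.sub a3))).mul
      ((hcF.mul (a2.sub a1)).sub (a2.sub a3)).inv
  exact (isAlgebraic_algebraMap_iff (R := F) hfinj).mp hzF

end Pool.Agent.Helper10.LB
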