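import Pool.Agent.Helper10.LB.PointBdd
import Pool.Agent.Helper49.LG.BoundLine
import Pool.Agent.Helper49.LG.UltraLine

/-! # LB-IL: infinitely many integral points on one line -/

set_option autoImplicit false

namespace Pool.Agent.Helper10.LB

open scoped BigOperators
open Pool.Agent.Helper8.LG

/-- minors with more rows than coordinates -/
theorem minors_top {E P σ : Type*} [Field E] [Fintype σ] (D : P → Derivation ℤ E E)
    (x : σ → E) (w : ℕ) (hw : Fintype.card σ ≤ w + 1) : MinorsVanish D x w := by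
  intro r c
  have hni : ¬ Function.Injective r := by
    intro hinj
    have h1 := Fintype.card_le_of_injective r hinj
    rw [Fintype.card_fin] at h1
    omega
  rw [Function.Injective] at hni
  push Not at hni
  obtain ⟨s, s', hss, hne⟩ := hni
  refine Matrix.det_zero_of_row_eq hne ?_
  funext t
  simp only [Matrix.of_apply, hss]

private theorem ilDual {L σ ι τ : Type*} [Field L] [DecidableEq σ] [DecidableEq ι] [Fintype τ]
    (d : ι → ℕ) (a : (i : ι) → Sym σ (d i) → L)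
    (D : Ix σ d → Derivation ℤ L L) (jj : τ → Ix σ d) (θ : τ → Ix σ d → L)
    (hD : Dual d a D jj θ) (T : Finset (Ix σ d)) (hT : ∀ j, jj j ∉ T) (q : Ix σ d) (p : T) :
    D q (a p.1.1 p.1.2) = if q = p.1 then 1 else 0 := by
  have h := hD q p.1
  rw [Finset.sum_eq_zero, sub_zero] at h
  · exact h
  · intro j _
    rw [if_neg]
    rintro h1
    exact hT j (h1 ▸ p.2)

/-- the data of `Helper8.LG.reduce` give `Dirs` -/
theorem dirs_of_dual {k L : Type*} [Field k] [Field L] [Algebra k L]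
    {σ ι τ : Type*} [Fintype σ] [DecidableEq σ] [Fintype ι] [DecidableEq ι] [Fintype τ]
    (d : ι → ℕ) (a : (i : ι) → Sym σ (d i) → L) (T : Finset (Ix σ d))
    (hind : AlgebraicIndependent k (fun p : T => a p.1.1 p.1.2))
    (hfin : FiniteDimensional
      (IntermediateField.adjoin k (Set.range fun p : T => a p.1.1 p.1.2)) L)
    (D : Ix σ d → Derivation ℤ L L) (jj : τ → Ix σ d) (θ : τ → Ix σ d → L)
    (hD : Dual d a D jj θ) (hT : ∀ j, jj j ∉ T)
    (hDk : ∀ p (c : k), D p (algebraMap k L c) = 0) :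
    Dirs k (fun p : T => a p.1.1 p.1.2) D := by
  refine ⟨hind, hfin, hDk, fun q p => ?_, fun p => ⟨p.1, fun q => ?_⟩⟩
  · rw [ilDual d a D jj θ hD T hT q p]
    split_ifs
    · exact ⟨1, by rw [Int.cast_one]⟩
    · exact ⟨0, by rw [Int.cast_zero]⟩
  · rw [ilDual d a D jj θ hD T hT p.1 q]
    by_cases h : q = p
    · rw [if_pos h, if_pos (by rw [h])]
    · rw [if_neg h, if_neg fun h' => h (Subtype.ext h'.symm)]

/-- **An infinite set of integral points has infinitely many points on one line.** -/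
theorem inf_line {k L : Type*} [Field k] [Field L] [CharZero L] [Algebra k L]
    {σ ι τ : Type*} [Fintype σ] [DecidableEq σ] [Fintype ι] [DecidableEq ι] [Fintype τ]
    (d : ι → ℕ) (hd : ∀ i, 0 < d i) (a : (i : ι) → Sym σ (d i) → L) (T : Finset (Ix σ d))
    (hind : AlgebraicIndependent k (fun p : T => a p.1.1 p.1.2))
    (hfin : FiniteDimensional
      (IntermediateField.adjoin k (Set.range fun p : T => a p.1.1 p.1.2)) L)
    (D : Ix σ d → Derivation ℤ L L) (jj : τ → Ix σ d) (θ : τ → Ix σ d → L)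
    (hD : Dual d a D jj θ) (hT : ∀ j, jj j ∉ T)
    (hDk : ∀ p (c : k), D p (algebraMap k L c) = 0)
    (Z : Finset ι) (i₀ j₁ : σ) (hj : j₁ ≠ i₀)
    (hw1 : 2 * Fintype.card σ + Fintype.card τ ≤ ∑ i, d i + Z.card + 1)
    (hw2 : Fintype.card σ + 1 ≤ ∑ i, d i)
    (A : Subalgebra k L) (hA : A.FG) (S : Set (σ → L)) (hinf : S.Infinite)
    (hS : ∀ x ∈ S, x i₀ = 1 ∧ Pt a Z A.toSubring x) :
    ∃ (α β : σ) (p q : σ → L), α ≠ β ∧ p α = 1 ∧ p β = 0 ∧ q α = 0 ∧ q β = 1 ∧
      {x ∈ S | ∀ l, x l = x α * p l + x β * q l}.Infinite := by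
  classical
  have hσ : 0 < Fintype.card σ := Fintype.card_pos_iff.2 ⟨i₀⟩
  set w : ℕ := Fintype.card σ - 1 with hw
  have hwσ : w + 1 = Fintype.card σ := by omega
  have hw1' : 2 * w + 1 + Fintype.card τ ≤ ∑ i, d i + Z.card := by omega
  have hw2' : w + 2 ≤ ∑ i, d i := by omega
  have hmin : ∀ x : σ → L, MinorsVanish D x w := fun x => minors_top D x w (by omega)
  obtain ⟨V, hVfin, hV⟩ := Pool.Agent.Helper49.LG.bounded_line d hd a T hind hfin D jj θ hD hT
    hDk Z i₀ j₁ hj w hw1' hw2' A hA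
  set X : ℕ → σ → L := fun m => (hinf.natEmbedding S m : σ → L) with hX
  have hXS : ∀ m, X m ∈ S := fun m => (hinf.natEmbedding S m).2
  have hXi : Function.Injective X := fun u v huv =>
    (hinf.natEmbedding S).injective (Subtype.ext huv)
  have hX1 : ∀ m, X m i₀ = 1 := fun m => (hS _ (hXS m)).1
  have hXp : ∀ m, Pt a Z A.toSubring (X m) := fun m => (hS _ (hXS m)).2
  have hP : ∀ m, ∃ δ : σ → L, (∃ j l, X m j * δ l - X m l * δ j ≠ 0) ∧
      ∀ j l, X m j * δ l - X m l * δ j ∈ V := fun m =>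
    hV (X m) (hX1 m) (hXp m).zero (hXp m).ne (hXp m).int (hmin _)
  have hdir : Dirs k (fun p : T => a p.1.1 p.1.2) D :=
    dirs_of_dual d a T hind hfin D jj θ hD hT hDk
  obtain ⟨V', hV'fin, hV'⟩ := point_bdd (fun p : T => a p.1.1 p.1.2) hd a D hdir jj θ hD Z hw1
    A hA i₀ V X hXp hX1 hP
  obtain ⟨V'', hV''fin, hV''⟩ := second_round (fun p : T => a p.1.1 p.1.2) D hdir a Z A hA V'
  have hinf1 : (X '' {m | ∃ G : L, G ≠ 0 ∧ ∀ l, G * X m l ∈ V'}).Infinite :=
    hV'.image hXi.injOn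
  obtain ⟨α, β, p, q, hαβ, hpα, hpβ, hqα, hqβ, hline⟩ :=
    Pool.Agent.Helper49.LG.ultra_line d hd a D jj θ hD hDk Z i₀ j₁ hj w hw1' hw2' (V' ⊔ V'')
      (X '' {m | ∃ G : L, G ≠ 0 ∧ ∀ l, G * X m l ∈ V'}) hinf1 (by
        rintro _ ⟨m, ⟨G, hG0, hG⟩, rfl⟩
        refine ⟨hX1 m, (hXp m).zero, (hXp m).ne, hmin _, G, hG0, fun l => ?_, fun i hi J => ?_⟩
        · exact Submodule.mem_sup_left (hG l)
        · exact Submodule.mem_sup_right (hV'' (X m) G (hXp m) hG0 hG i hi J))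
  refine ⟨α, β, p, q, hαβ, hpα, hpβ, hqα, hqβ, hline.mono ?_⟩
  rintro _ ⟨⟨m, _, rfl⟩, hx⟩
  exact ⟨hXS m, hx⟩

end Pool.Agent.Helper10.LB
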