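import Pool.Agent.Helper10.LB.DirPrep
import Pool.Agent.Helper8.LG.DirTwo

/-! # LB-S2: second round, the quotients `x^J/F_i(x)` of bounded points are bounded -/

set_option autoImplicit false

namespace Pool.Agent.Helper10.LB

open scoped BigOperators
open Pool.Agent.Helper8.LG

private theorem secround_adjoin {k L : Type*} [Field k] [Field L] [Algebra k L] (s : Set L)
    (O : ValuationSubring L) (hk : ∀ c : k, algebraMap k L c ∈ O) (hs : ∀ f ∈ s, f ∈ O) :
    (Algebra.adjoin k s).toSubring ≤ O.toSubring := by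
  intro f hf
  have hf' : f ∈ Algebra.adjoin k s := hf
  induction hf' using Algebra.adjoin_induction with
  | mem x hx => exact hs x hx
  | algebraMap c => exact hk c
  | add x y hx hy hx' hy' => exact O.add_mem _ _ (hx' hx) (hy' hy)
  | mul x y hx hy hx' hy' => exact O.mul_mem _ _ (hx' hx) (hy' hy)

private theorem secround_dir {k L : Type*} [Field k] [Field L] [CharZero L] [Algebra k L]
    {P T : Type*} [Finite P] [Finite T] [DecidableEq T] (y : T → L) (D : P → Derivation ℤ L L)
    (hy : Dirs k y D) {σ ι : Type*} [Fintype σ] [DecidableEq σ] [Fintype ι] [DecidableEq ι]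
    {d : ι → ℕ} (a : (i : ι) → Sym σ (d i) → L) (Z : Finset ι) (A : Subalgebra k L) (hA : A.FG)
    (V : Submodule k L) [FiniteDimensional k V] (j : T) (t : L) (ht : t = y j ∨ t = (y j)⁻¹) :
    ∃ Δ : L, Δ ≠ 0 ∧ ∀ (x : σ → L) (G : L),
      Pt a Z A.toSubring x → G ≠ 0 → (∀ l, G * x l ∈ V) →
        ∀ i ∉ Z, ∀ J : Sym σ (d i), ∀ O : ValuationSubring L,
          intCl (others (k := k) y j) t ≤ O.toSubring →
          Δ * (mon x J / form (a i) x) ∈ O := by
  classical
  obtain ⟨s, hs⟩ := hA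
  set S : Set L := (s : Set L) ∪ Set.range (fun p : Ix σ d => a p.1 p.2) with hS
  have hSfin : S.Finite := s.finite_toSet.union (Set.finite_range _)
  obtain ⟨Δ₀, hΔ0, hΔR, hΔ⟩ := dir_prep y D hy V S hSfin j t ht
  have htr : Transcendental (others (k := k) y j) t := by
    rcases ht with rfl | rfl
    · exact (others_transcendental (k := k) y hy.ind j).1
    · exact (others_transcendental (k := k) y hy.ind j).2
  have hfin : FiniteDimensional (Subfield.closure ((others (k := k) y j : Set L) ∪ {t})) L := by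
    rcases ht with rfl | rfl
    · exact (others_finite (k := k) y hy.fin j).1
    · exact (others_finite (k := k) y hy.fin j).2
  obtain ⟨hDed, hFrac⟩ := intCl_dedekind (others (k := k) y j) t htr hfin
  have hcl : Subring.closure ((others (k := k) y j : Set L) ∪ {t}) ≤
      intCl (others (k := k) y j) t := by
    intro f hf
    exact isIntegral_algebraMap
      (R := Subring.closure ((others (k := k) y j : Set L) ∪ {t})) (x := ⟨f, hf⟩)
  have hkR : ∀ c : k, algebraMap k L c ∈ intCl (others (k := k) y j) t := by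
    intro c
    refine hcl (Subring.subset_closure (Or.inl ?_))
    exact IntermediateField.algebraMap_mem (IntermediateField.adjoin k (y '' {j}ᶜ)) c
  have hB : ∀ i : ι, ∃ c : ℕ, ∀ O : ValuationSubring L,
      intCl (others (k := k) y j) t ≤ O.toSubring →
      Δ₀⁻¹ ∉ O → ∀ f ∈ dirTwoW V (a i), f ≠ 0 → Δ₀ ^ c * f⁻¹ ∈ O := by
    intro i
    have := dirTwo_finite V (a i)
    exact bounded_of (intCl (others (k := k) y j) t) hkR (dirTwoW V (a i)) Δ₀ hΔR hΔ0
  choose B hB using hB
  set N : ℕ := ∑ i, (B i + d i + 1) with hN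
  have hNi : ∀ i, B i + d i + 1 ≤ N := fun i =>
    Finset.single_le_sum (f := fun i => B i + d i + 1) (fun _ _ => Nat.zero_le _)
      (Finset.mem_univ i)
  refine ⟨Δ₀ ^ N, pow_ne_zero _ hΔ0, ?_⟩
  intro x G hx hG hGx i hiZ J O hO
  obtain ⟨-, hΔV, hΔS⟩ := hΔ O hO
  have hΔO : Δ₀ ∈ O := hO hΔR
  by_cases hinv : Δ₀⁻¹ ∈ O
  · have hAO : A.toSubring ≤ O.toSubring := by
      rw [← hs]
      refine secround_adjoin (s : Set L) O (fun c => hO (hkR c)) ?_
      intro f hf
      have h1 : f = Δ₀⁻¹ * (Δ₀ * f) := by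
        rw [← mul_assoc, inv_mul_cancel₀ hΔ0, one_mul]
      rw [h1]
      exact O.mul_mem _ _ hinv (hΔS f (Or.inl hf))
    exact O.mul_mem _ _ (pow_mem hΔO N) (dirTwo_int_mem O _ hAO (hx.int i hiZ J))
  · have hne : form (a i) (fun l => G * x l) ≠ 0 := by
      rw [dirTwo_form_mul]
      exact mul_ne_zero (pow_ne_zero _ hG) (hx.ne i hiZ)
    have h1 := hB i O hO hinv _ (dirTwo_form_mem V (a i) _ hGx) hne
    have h2 : Δ₀ ^ d i * mon (fun l => G * x l) J ∈ O :=
      dirTwo_mon_mem O.toSubring Δ₀ _ (fun l => hΔV _ (hGx l)) J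
    have h3 : mon x J / form (a i) x
        = mon (fun l => G * x l) J * (form (a i) (fun l => G * x l))⁻¹ := by
      rw [dirTwo_mon_mul, dirTwo_form_mul]
      have := hx.ne i hiZ
      field_simp
    obtain ⟨r, hr⟩ := Nat.exists_eq_add_of_le (hNi i)
    have h4 : Δ₀ ^ N * (mon x J / form (a i) x) = Δ₀ ^ (r + 1)
        * ((Δ₀ ^ B i * (form (a i) (fun l => G * x l))⁻¹)
          * (Δ₀ ^ d i * mon (fun l => G * x l) J)) := by
      rw [h3, hr]
      ring
    rw [h4]
    exact O.mul_mem _ _ (pow_mem hΔO _) (O.mul_mem _ _ h1 h2)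

/-- copy of the first part of `Helper8.LG.dir_two` (`C` empty) in all directions -/
theorem second_round {k L : Type*} [Field k] [Field L] [CharZero L] [Algebra k L] {P T : Type*}
    [Finite P] [Finite T] [DecidableEq T] (y : T → L) (D : P → Derivation ℤ L L)
    (hy : Dirs k y D) {σ ι : Type*} [Fintype σ] [DecidableEq σ] [Fintype ι] [DecidableEq ι]
    {d : ι → ℕ} (a : (i : ι) → Sym σ (d i) → L) (Z : Finset ι) (A : Subalgebra k L) (hA : A.FG)
    (V : Submodule k L) [FiniteDimensional k V] :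
    ∃ V' : Submodule k L, FiniteDimensional k V' ∧ ∀ (x : σ → L) (G : L),
      Pt a Z A.toSubring x → G ≠ 0 → (∀ l, G * x l ∈ V) →
        ∀ i ∉ Z, ∀ J : Sym σ (d i), mon x J / form (a i) x ∈ V' := by
  have h1 : ∀ (j : T) (b : Bool), ∃ Δ : L, Δ ≠ 0 ∧ ∀ (x : σ → L) (G : L),
      Pt a Z A.toSubring x → G ≠ 0 → (∀ l, G * x l ∈ V) →
        ∀ i ∉ Z, ∀ J : Sym σ (d i), ∀ O : ValuationSubring L,
          intCl (others (k := k) y j) (if b then y j else (y j)⁻¹) ≤ O.toSubring →
          Δ * (mon x J / form (a i) x) ∈ O := by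
    intro j b
    refine secround_dir y D hy a Z A hA V j _ ?_
    cases b
    · exact Or.inr (by simp)
    · exact Or.inl (by simp)
  choose Δ hΔ0 hΔ using h1
  obtain ⟨V', hV', h⟩ := fd_of_dirs y D hy Δ hΔ0
  exact ⟨V', hV', fun x G hx hG hGx i hi J => h _ fun j b O hO => hΔ j b x G hx hG hGx i hi J O hO⟩

end Pool.Agent.Helper10.LB
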