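import Pool.Agent.Helper8.LG.Defs

/-!
# LB (Theorem B', stage 2 of LG): definitions
-/

set_option autoImplicit false

namespace Pool.Agent.Helper10.LB

open scoped BigOperators
open Polynomial Pool.Agent.Helper8.LG

/-- a derivation applied to the coefficients of a polynomial -/
noncomputable def mapD {E : Type*} [CommRing E] (D : Derivation ℤ E E) (p : E[X]) : E[X] :=
  p.sum fun i c => monomial i (D c)

theorem coeff_mapD {E : Type*} [CommRing E] (D : Derivation ℤ E E) (p : E[X]) (n : ℕ) :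
    (mapD D p).coeff n = D (p.coeff n) := by
  unfold mapD
  rw [Polynomial.sum_def, finset_sum_coeff]
  simp only [coeff_monomial]
  rw [Finset.sum_ite_eq' p.support n]
  split_ifs with h
  · rfl
  · rw [notMem_support_iff.1 h, map_zero]

/-- `F(u + Y v)` for the form `F` with coefficients `a` -/
noncomputable def lf {E σ : Type*} [CommRing E] [Fintype σ] [DecidableEq σ] {n : ℕ}
    (a : Sym σ n → E) (u v : σ → E) : E[X] :=
  form (fun J => C (a J)) fun l => C (u l) + X * C (v l)

/-- The directions: `y` is a transcendence basis of `L` over `k`, the derivations kill `k` and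
have integer values at the `y_i`, and the derivations `∂/∂y_i` are among them. -/
structure Dirs (k : Type*) {L : Type*} [Field k] [Field L] [Algebra k L] {P T : Type*}
    [DecidableEq T] (y : T → L) (D : P → Derivation ℤ L L) : Prop where
  ind : AlgebraicIndependent k y
  fin : FiniteDimensional (IntermediateField.adjoin k (Set.range y)) L
  ker : ∀ p (c : k), D p (algebraMap k L c) = 0
  int : ∀ p i, ∃ n : ℤ, D p (y i) = n
  dual : ∀ i, ∃ p, ∀ j, D p (y j) = if j = i then 1 else 0

/-- The conditions on a point `x`: `F_i(x) = 0` for `i ∈ Z`, `F_i(x) ≠ 0` and all `x^J/F_i(x)`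
integral over `A` for `i ∉ Z`. -/
structure Pt {E σ ι : Type*} [Field E] [Fintype σ] [DecidableEq σ] {d : ι → ℕ}
    (a : (i : ι) → Sym σ (d i) → E) (Z : Finset ι) (A : Subring E) (x : σ → E) : Prop where
  zero : ∀ i ∈ Z, form (a i) x = 0
  ne : ∀ i ∉ Z, form (a i) x ≠ 0
  int : ∀ i ∉ Z, ∀ J : Sym σ (d i), IsIntegral A (mon x J / form (a i) x)

/-- Bounded Mason data: a point `x = lam (u + z v)` of a line, all objects have the bounded
denominator `e`; `h w = ∏ F_i(u + Y v)`, Bezout relations for `h` and its reversal, and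
`h ∣ D h + h' q`. -/
structure MData {k L σ ι : Type*} [Field k] [Field L] [Algebra k L] [Fintype σ] [DecidableEq σ]
    [Fintype ι] [DecidableEq ι] {d : ι → ℕ} (a : (i : ι) → Sym σ (d i) → L) (Z : Finset ι)
    (V : Submodule k L) (D : Derivation ℤ L L) (x u v : σ → L) (lam z e : L)
    (h w q s α β α' β' : L[X]) : Prop where
  eV : e ∈ V
  e0 : e ≠ 0
  lam0 : lam ≠ 0
  hx : ∀ l, x l = lam * (u l + z * v l)
  uV : ∀ l, e * u l ∈ V
  vV : ∀ l, e * v l ∈ V
  pi : ∃ b b', u b * v b' - u b' * v b ≠ 0 ∧ e * (u b * v b' - u b' * v b)⁻¹ ∈ V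
  top : ∀ i ∉ Z, form (a i) v ≠ 0 ∧ e * (form (a i) v)⁻¹ ∈ V
  mon : h.Monic
  deg : 3 ≤ h.natDegree
  hw : h * w = ∏ i ∈ Zᶜ, lf (a i) u v
  hq : q.natDegree < h.natDegree
  hs : mapD D h + derivative h * q = h * s
  h1 : α * h + β * derivative h = 1
  h2 : α' * h.reverse + β' * derivative h.reverse = 1
  bd : ∀ n, e * h.coeff n ∈ V ∧ e * w.coeff n ∈ V ∧ e * q.coeff n ∈ V ∧ e * s.coeff n ∈ V ∧
    e * α.coeff n ∈ V ∧ e * β.coeff n ∈ V ∧ e * α'.coeff n ∈ V ∧ e * β'.coeff n ∈ V

end Pool.Agent.Helper10.LB
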