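import Pool.Agent.Helper10.LB.PolyD
import Mathlib.FieldTheory.Differential.Basic

/-! # LB-DE: extension of derivations, constants (proofs by helper66, from Ext.lean) -/

set_option autoImplicit false

namespace Pool.Agent.Helper10.LB

open scoped BigOperators
open Polynomial Pool.Agent.Helper8.LG

/-- derivations extend to finite extensions in characteristic zero -/
theorem der_ext {F K : Type*} [Field F] [Field K] [CharZero F] [Algebra F K]
    [FiniteDimensional F K] (D : Derivation ℤ F F) :
    ∃ D' : Derivation ℤ K K, ∀ x, D' (algebraMap F K x) = algebraMap F K (D x) := by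
  let : Differential F := ⟨D⟩
  let := Differential.differentialFiniteDimensional F K
  have : DifferentialAlgebra F K := Differential.differentialAlgebraFiniteDimensional
  exact ⟨Differential.deriv, fun x => deriv_algebraMap x⟩

theorem mapD_map {F K : Type*} [Field F] [Field K] [Algebra F K] (D : Derivation ℤ F F)
    (D' : Derivation ℤ K K) (hD : ∀ x, D' (algebraMap F K x) = algebraMap F K (D x)) (g : F[X]) :
    mapD D' (g.map (algebraMap F K)) = (mapD D g).map (algebraMap F K) := by
  ext n
  rw [coeff_mapD, coeff_map, coeff_map, coeff_mapD, hD]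

theorem deriv_aeval {F K : Type*} [Field F] [Field K] [Algebra F K] (D : Derivation ℤ F F)
    (D' : Derivation ℤ K K) (hD : ∀ x, D' (algebraMap F K x) = algebraMap F K (D x)) (g : F[X])
    (c : K) : D' (aeval c g) = aeval c (mapD D g) + aeval c (derivative g) * D' c := by
  have h := deriv_eval D' (g.map (algebraMap F K)) c
  rw [mapD_map D D' hD, derivative_map, eval_map_algebraMap, eval_map_algebraMap,
    eval_map_algebraMap] at h
  exact h

/-- constants of an algebraic extension are algebraic over the constants -/
theorem const_alg {F K : Type*} [Field F] [Field K] [CharZero F] [Algebra F K]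
    {P : Type*} (D : P → Derivation ℤ F F) (D' : P → Derivation ℤ K K)
    (hD : ∀ p x, D' p (algebraMap F K x) = algebraMap F K (D p x)) (c : K)
    (hc : IsAlgebraic F c) (h : ∀ p, D' p c = 0) :
    ∃ g : F[X], g.Monic ∧ (∀ n p, D p (g.coeff n) = 0) ∧ aeval c g = 0 := by
  have hi : IsIntegral F c := hc.isIntegral
  have hm : (minpoly F c).Monic := minpoly.monic hi
  refine ⟨minpoly F c, hm, fun n p => ?_, minpoly.aeval F c⟩
  have h1 : aeval c (mapD (D p) (minpoly F c)) = 0 := by
    have h2 := deriv_aeval (D p) (D' p) (hD p) (minpoly F c) c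
    rw [minpoly.aeval, map_zero, h p, mul_zero, add_zero] at h2
    exact h2.symm
  have h3 : mapD (D p) (minpoly F c) = 0 := by
    by_contra h0
    have h4 : (minpoly F c).degree ≤ (mapD (D p) (minpoly F c)).degree :=
      minpoly.degree_le_of_ne_zero F c h0 h1
    have h5 : (mapD (D p) (minpoly F c)).degree < (minpoly F c).degree := by
      rw [degree_eq_natDegree hm.ne_zero, degree_lt_iff_coeff_zero]
      intro m hmn
      rw [coeff_mapD]
      rcases eq_or_lt_of_le hmn with h6 | h6
      · rw [← h6, hm.coeff_natDegree]
        exact (D p).map_one_eq_zero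
      · rw [coeff_eq_zero_of_natDegree_lt h6, map_zero]
    exact absurd h4 (not_le_of_gt h5)
  rw [← coeff_mapD, h3, coeff_zero]

end Pool.Agent.Helper10.LB
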