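import Pool.Agent.Helper10.LB.MasonKey
import Pool.Agent.Helper8.LG.Ded
import Pool.Agent.Helper8.LG.Ring
import Pool.Agent.Helper8.LG.FinDim

/-! # LB-DP: preparation of the directions -/

set_option autoImplicit false

namespace Pool.Agent.Helper10.LB

open scoped BigOperators
open Polynomial Pool.Agent.Helper8.LG

private theorem dprep_inv {L : Type*} [Field L] (D : Derivation ℤ L L) (f : L) :
    D f⁻¹ = -(f⁻¹ ^ 2) * D f := by
  have h := Derivation.leibniz_inv D f
  rw [h, smul_eq_mul]

private theorem dprep_stable {k L : Type*} [Field k] [Field L] [Algebra k L] {P T : Type*}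
    [DecidableEq T] (y : T → L) (D : P → Derivation ℤ L L) (hy : Dirs k y D) (i : T) (p : P) :
    ∀ f ∈ others (k := k) y i, D p f ∈ others (k := k) y i := by
  intro f hf
  have hf' : f ∈ IntermediateField.adjoin k (y '' {i}ᶜ) := hf
  change D p f ∈ IntermediateField.adjoin k (y '' {i}ᶜ)
  induction hf' using IntermediateField.adjoin_induction with
  | mem x hx =>
    obtain ⟨j, _, rfl⟩ := hx
    obtain ⟨n, hn⟩ := hy.int p j
    rw [hn]
    exact intCast_mem _ n
  | algebraMap c =>
    rw [hy.ker p c]
    exact zero_mem _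
  | add x y hx hy hx' hy' =>
    rw [map_add]
    exact add_mem (hx' hx) (hy' hy)
  | inv x hx hx' =>
    rw [dprep_inv]
    exact mul_mem (neg_mem (pow_mem (inv_mem hx) 2)) (hx' hx)
  | mul x y hx hy hx' hy' =>
    rw [Derivation.leibniz, smul_eq_mul, smul_eq_mul]
    exact add_mem (mul_mem hx (hy' hy)) (mul_mem hy (hx' hx))

/-- both charts at once: `t` is transcendental and `L` is finite over `others(t)` -/
private theorem dprep_chart {k L : Type*} [Field k] [Field L] [Algebra k L] {P T : Type*}
    [DecidableEq T] (y : T → L) (D : P → Derivation ℤ L L) (hy : Dirs k y D) (i : T) (t : L)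
    (ht : t = y i ∨ t = (y i)⁻¹) :
    Transcendental (others (k := k) y i) t ∧
      FiniteDimensional (Subfield.closure ((others (k := k) y i : Set L) ∪ {t})) L := by
  rcases ht with rfl | rfl
  · exact ⟨(others_transcendental (k := k) y hy.ind i).1, (others_finite (k := k) y hy.fin i).1⟩
  · exact ⟨(others_transcendental (k := k) y hy.ind i).2, (others_finite (k := k) y hy.fin i).2⟩

/-- one `Δ` for a direction `t = y_i` or `t = 1 / y_i` -/
theorem dir_prep {k L : Type*} [Field k] [Field L] [CharZero L] [Algebra k L] {P T : Type*}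
    [Finite P] [Finite T] [DecidableEq T] (y : T → L) (D : P → Derivation ℤ L L)
    (hy : Dirs k y D) (V : Submodule k L) [FiniteDimensional k V] (S : Set L) (hS : S.Finite)
    (i : T) (t : L) (ht : t = y i ∨ t = (y i)⁻¹) :
    ∃ Δ : L, Δ ≠ 0 ∧ Δ ∈ intCl (others (k := k) y i) t ∧
      ∀ O : ValuationSubring L, intCl (others (k := k) y i) t ≤ O.toSubring →
        Bdd D Δ O ∧ (∀ f ∈ V, Δ * f ∈ O) ∧ ∀ f ∈ S, Δ * f ∈ O := by
  classical
  obtain ⟨htr, hfin⟩ := dprep_chart y D hy i t ht
  obtain ⟨B, hB⟩ := (Submodule.fg_iff_finiteDimensional V).2 inferInstance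
  have hDt : ∀ p, D p t ∈ Subring.closure ((others (k := k) y i : Set L) ∪ {t}) := by
    intro p
    obtain ⟨n, hn⟩ := hy.int p i
    rcases ht with rfl | rfl
    · rw [hn]
      exact intCast_mem _ n
    · have h1 : (y i)⁻¹ ∈ Subring.closure ((others (k := k) y i : Set L) ∪ {(y i)⁻¹}) :=
        Subring.subset_closure (Or.inr rfl)
      rw [dprep_inv, hn]
      exact mul_mem (neg_mem (pow_mem h1 2)) (intCast_mem _ n)
  obtain ⟨Δ, hΔ, hΔ0, hΔD, hΔS⟩ := exists_bound (others (k := k) y i) t htr hfin D
    (fun p => dprep_stable y D hy i p) hDt ((B : Set L) ∪ S) (B.finite_toSet.union hS)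
  have hcl : Subring.closure ((others (k := k) y i : Set L) ∪ {t}) ≤
      intCl (others (k := k) y i) t := by
    intro f hf
    exact isIntegral_algebraMap
      (R := Subring.closure ((others (k := k) y i : Set L) ∪ {t})) (x := ⟨f, hf⟩)
  have hk : ∀ c : k, algebraMap k L c ∈ intCl (others (k := k) y i) t := by
    intro c
    refine hcl (Subring.subset_closure (Or.inl ?_))
    exact IntermediateField.algebraMap_mem (IntermediateField.adjoin k (y '' {i}ᶜ)) c
  obtain ⟨hded, hfr⟩ := intCl_dedekind (others (k := k) y i) t htr hfin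
  refine ⟨Δ, hΔ0, hcl hΔ, ?_⟩
  intro O hO
  have := hded
  have := hfr
  refine ⟨bdd_of (intCl (others (k := k) y i) t) D Δ (hcl hΔ) hΔD O hO, ?_, ?_⟩
  · intro f hf
    rw [← hB] at hf
    induction hf using Submodule.span_induction with
    | mem x hx => exact hO (hΔS x (Or.inl hx))
    | zero =>
      rw [mul_zero]
      exact O.zero_mem
    | add x y _ _ hx hy =>
      rw [mul_add]
      exact O.add_mem _ _ hx hy
    | smul c x _ hx =>
      rw [Algebra.smul_def, mul_left_comm]
      exact O.mul_mem _ _ (hO (hk c)) hx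
  · intro f hf
    exact hO (hΔS f (Or.inr hf))

/-- an element with bounded poles in all directions lies in a finite-dimensional space -/
theorem fd_of_dirs {k L : Type*} [Field k] [Field L] [CharZero L] [Algebra k L] {P T : Type*}
    [Finite P] [Finite T] [DecidableEq T] (y : T → L) (D : P → Derivation ℤ L L)
    (hy : Dirs k y D) (Δ : T → Bool → L) (h0 : ∀ i b, Δ i b ≠ 0) :
    ∃ V : Submodule k L, FiniteDimensional k V ∧ ∀ g : L,
      (∀ i b, ∀ O : ValuationSubring L,
        intCl (others (k := k) y i) (if b then y i else (y i)⁻¹) ≤ O.toSubring →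
          Δ i b * g ∈ O) → g ∈ V := by
  obtain ⟨V, hV, h⟩ := fd y hy.ind hy.fin (fun i => Δ i true) (fun i => Δ i false)
    (fun i => h0 i true) (fun i => h0 i false)
  refine ⟨V, hV, ?_⟩
  intro g hg
  apply h
  intro i
  constructor
  · obtain ⟨htr, hfin⟩ := dprep_chart y D hy i (y i) (Or.inl rfl)
    obtain ⟨hded, hfr⟩ := intCl_dedekind (others (k := k) y i) (y i) htr hfin
    have := hded
    have := hfr
    exact mem_of _ _ (fun O hO => hg i true O hO)
  · obtain ⟨htr, hfin⟩ := dprep_chart y D hy i (y i)⁻¹ (Or.inr rfl)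
    obtain ⟨hded, hfr⟩ := intCl_dedekind (others (k := k) y i) (y i)⁻¹ htr hfin
    have := hded
    have := hfr
    exact mem_of _ _ (fun O hO => hg i false O hO)

end Pool.Agent.Helper10.LB
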