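import Pool.Agent.Helper10.LB.DirPrep
import Pool.Agent.Helper8.LG.DirOne
import Pool.Agent.Helper8.LG.Others

/-! # LB-MB: the Mason bound in all directions -/

set_option autoImplicit false

namespace Pool.Agent.Helper10.LB

open scoped BigOperators
open Polynomial Pool.Agent.Helper8.LG

section MBAux

/-- one of two integral elements with sum one is a unit -/
theorem mb_unit_of_add {E : Type*} [Field E] (O : ValuationSubring E) {a b : E}
    (hab : a + b = 1) : (a ≠ 0 ∧ a⁻¹ ∈ O) ∨ (b ≠ 0 ∧ b⁻¹ ∈ O) := by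
  by_cases h0 : a = 0
  · right
    rw [h0, zero_add] at hab
    rw [hab]
    exact ⟨one_ne_zero, by rw [inv_one]; exact O.one_mem⟩
  by_cases h1 : b = 0
  · left
    rw [h1, add_zero] at hab
    rw [hab]
    exact ⟨one_ne_zero, by rw [inv_one]; exact O.one_mem⟩
  rcases O.mem_or_inv_mem (a / b) with h | h
  · right
    refine ⟨h1, ?_⟩
    have h2 : b⁻¹ = a / b + 1 := by
      field_simp
      exact hab.symm
    rw [h2]
    exact O.add_mem _ _ h O.one_mem
  · left
    rw [inv_div] at h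
    refine ⟨h0, ?_⟩
    have h2 : a⁻¹ = 1 + b / a := by
      field_simp
      exact hab.symm
    rw [h2]
    exact O.add_mem _ _ O.one_mem h

theorem mb_prim {E σ : Type*} [Field E] (O : ValuationSubring E) (y : σ → E) (b b' : σ)
    {α β : E} (hα : α ∈ O) (hβ : β ∈ O) (h : y b * α + y b' * β = 1) :
    ∃ j, y j ≠ 0 ∧ (y j)⁻¹ ∈ O := by
  rcases mb_unit_of_add O h with ⟨h1, h2⟩ | ⟨h1, h2⟩
  · refine ⟨b, left_ne_zero_of_mul h1, ?_⟩
    have h3 := O.mul_mem _ _ hα h2
    have h4 : α * (y b * α)⁻¹ = (y b)⁻¹ := by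
      have := left_ne_zero_of_mul h1
      have := right_ne_zero_of_mul h1
      field_simp
    rwa [h4] at h3
  · refine ⟨b', left_ne_zero_of_mul h1, ?_⟩
    have h3 := O.mul_mem _ _ hβ h2
    have h4 : β * (y b' * β)⁻¹ = (y b')⁻¹ := by
      have := left_ne_zero_of_mul h1
      have := right_ne_zero_of_mul h1
      field_simp
    rwa [h4] at h3

theorem mb_mon_smul {E σ : Type*} [Field E] {n : ℕ} (c : E) (x : σ → E) (J : Sym σ n) :
    mon (fun l => c * x l) J = c ^ n * mon x J := by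
  unfold mon
  rw [Multiset.prod_map_mul, Multiset.map_const', Multiset.prod_replicate, Sym.card_coe]

theorem mb_form_smul {E σ : Type*} [Field E] [Fintype σ] [DecidableEq σ] {n : ℕ}
    (a : Sym σ n → E) (c : E) (x : σ → E) :
    form a (fun l => c * x l) = c ^ n * form a x := by
  unfold form
  rw [Finset.mul_sum]
  refine Finset.sum_congr rfl fun J _ => ?_
  rw [mb_mon_smul]
  ring

/-- the values of the forms at primitive coordinates are units -/
theorem mb_units {E σ ι : Type*} [Field E] [Fintype σ] [DecidableEq σ]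
    {d : ι → ℕ} (a : (i : ι) → Sym σ (d i) → E) (Z : Finset ι) (A : Subring E) (x : σ → E)
    (hP : Pt a Z A x) (O : ValuationSubring E) (hA : A ≤ O.toSubring)
    (ha : ∀ i J, a i J ∈ O) (y : σ → E) (hy : ∀ l, y l ∈ O) (c : E) (hc : c ≠ 0)
    (hx : ∀ l, x l = c * y l) (j : σ) (hj : y j ≠ 0) (hj' : (y j)⁻¹ ∈ O) (i : ι) (hi : i ∉ Z) :
    form (a i) y ≠ 0 ∧ form (a i) y ∈ O ∧ (form (a i) y)⁻¹ ∈ O := by
  have hxy : x = fun l => c * y l := funext hx
  have h0 : form (a i) x = c ^ d i * form (a i) y := by rw [hxy, mb_form_smul]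
  have hne : form (a i) y ≠ 0 := by
    intro h1
    apply hP.ne i hi
    rw [h0, h1, mul_zero]
  have hcd : c ^ d i ≠ 0 := pow_ne_zero _ hc
  refine ⟨hne, ?_, ?_⟩
  · have h1 := dirOne_form_mem O 1 (a i) (fun J => by rw [one_mul]; exact ha i J) _ hy
    rwa [one_mul] at h1
  · have h1 := dirOne_int_mem O A hA (hP.int i hi (Sym.replicate (d i) j))
    rw [dirOne_mon_replicate, h0, hx j, mul_pow, mul_div_mul_left _ _ hcd] at h1
    have h2 : (form (a i) y)⁻¹ = (y j)⁻¹ ^ d i * (y j ^ d i / form (a i) y) := by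
      rw [inv_pow]
      have := pow_ne_zero (d i) hj
      field_simp
    rw [h2]
    exact O.mul_mem _ _ (pow_mem hj' _) h1

theorem mb_prod {E ι : Type*} [Field E] (O : ValuationSubring E) (s : Finset ι) (f : ι → E)
    (h : ∀ i ∈ s, f i ≠ 0 ∧ f i ∈ O ∧ (f i)⁻¹ ∈ O) :
    ∏ i ∈ s, f i ≠ 0 ∧ ∏ i ∈ s, f i ∈ O ∧ (∏ i ∈ s, f i)⁻¹ ∈ O := by
  refine ⟨Finset.prod_ne_zero_iff.2 fun i hi => (h i hi).1, prod_mem fun i hi => (h i hi).2.1, ?_⟩
  rw [← Finset.prod_inv_distrib]
  exact prod_mem fun i hi => (h i hi).2.2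

/-- the logarithmic derivative of a unit -/
theorem mb_log {E : Type*} [Field E] (O : ValuationSubring E) (D : Derivation ℤ E E) (D₂ : E)
    (hD : ∀ f ∈ O, D₂ * D f ∈ O) (g w : E) (hg : g ∈ O) (hw : w ∈ O)
    (h0 : g * w ≠ 0) (h1 : (g * w)⁻¹ ∈ O) : D₂ * (D g / g) ∈ O := by
  have hg0 := left_ne_zero_of_mul h0
  have hw0 := right_ne_zero_of_mul h0
  have h2 : D₂ * (D g / g) = D₂ * D g * (w * (g * w)⁻¹) := by
    field_simp
  rw [h2]
  exact O.mul_mem _ _ (hD g hg) (O.mul_mem _ _ hw h1)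

theorem mb_key {k L P σ ι : Type*} [Field k] [Field L] [CharZero L] [Algebra k L]
    [Fintype σ] [DecidableEq σ] [Fintype ι] [DecidableEq ι] {d : ι → ℕ}
    (a : (i : ι) → Sym σ (d i) → L) (Z : Finset ι) (A : Subalgebra k L) (gens : Set L)
    (hgens : Algebra.adjoin k gens = A) (D : P → Derivation ℤ L L) (V : Submodule k L)
    (R : Subring L) [IsDedekindDomain R] [IsFractionRing R L]
    (hkR : ∀ c : k, algebraMap k L c ∈ R) (O : ValuationSubring L) (hO : R ≤ O.toSubring)
    (Δ : L) (hΔ0 : Δ ≠ 0) (hb : Bdd D Δ O) (hV : ∀ f ∈ V, Δ * f ∈ O)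
    (haS : ∀ i J, Δ * a i J ∈ O) (hgS : ∀ f ∈ gens, Δ * f ∈ O)
    (p : P) (x u v : σ → L) (lam z e : L) (h w q s α β α' β' : L[X])
    (hM : MData a Z V (D p) x u v lam z e h w q s α β α' β') (hP : Pt a Z A.toSubring x) :
    Δ ^ 6 * (e ^ 2 * ((D p z - q.eval z) / h.eval z)) ∈ O ∧
      Δ ^ 6 * (e ^ 2 * ((D p z - q.eval z) / h.eval z * z)) ∈ O := by
  have hΔO : Δ ∈ O := hb.1
  have he0 := hM.e0
  have hlam0 := hM.lam0
  obtain ⟨D₁, hD₁⟩ : ∃ D₁ : L, D₁ = Δ ^ 2 * e := ⟨_, rfl⟩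
  have hD₁0 : D₁ ≠ 0 := by
    rw [hD₁]; exact mul_ne_zero (pow_ne_zero _ hΔ0) he0
  have hD₁O : D₁ ∈ O := by
    rw [hD₁, pow_two, mul_assoc]
    exact O.mul_mem _ _ hΔO (hV e hM.eV)
  have hdat : ∀ f, e * f ∈ V → D₁ * f ∈ O := by
    intro f hf
    have h1 : D₁ * f = Δ * (Δ * (e * f)) := by rw [hD₁]; ring
    rw [h1]
    exact O.mul_mem _ _ hΔO (hV _ hf)
  obtain ⟨D₂, hD₂⟩ : ∃ D₂ : L, D₂ = Δ * D₁ := ⟨_, rfl⟩
  have hD₂O : D₂ ∈ O := by rw [hD₂]; exact O.mul_mem _ _ hΔO hD₁O
  have hD₂D : ∀ p, ∀ f ∈ O, D₂ * D p f ∈ O := by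
    intro p f hf
    have h1 : D₂ * D p f = D₁ * (Δ * D p f) := by rw [hD₂]; ring
    rw [h1]
    exact O.mul_mem _ _ hD₁O (hb.2 p f hf)
  have hdat2 : ∀ f, e * f ∈ V → D₂ * f ∈ O := by
    intro f hf
    rw [hD₂, mul_assoc]
    exact O.mul_mem _ _ hΔO (hdat f hf)
  -- the degrees
  have hlfne : ∀ i ∈ Zᶜ, lf (a i) u v ≠ 0 := by
    intro i hi h0
    have h1 := lf_coeff_top (a i) u v
    rw [h0, coeff_zero] at h1
    exact (hM.top i (Finset.mem_compl.1 hi)).1 h1.symm
  have hlfdeg : ∀ i ∈ Zᶜ, (lf (a i) u v).natDegree = d i := by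
    intro i hi
    refine le_antisymm (lf_natDegree_le _ _ _) (le_natDegree_of_ne_zero ?_)
    rw [lf_coeff_top]
    exact (hM.top i (Finset.mem_compl.1 hi)).1
  have hprodne : ∏ i ∈ Zᶜ, lf (a i) u v ≠ 0 := Finset.prod_ne_zero_iff.2 hlfne
  have hh0 : h ≠ 0 := hM.mon.ne_zero
  have hw0 : w ≠ 0 := by
    intro h0
    apply hprodne
    rw [← hM.hw, h0, mul_zero]
  have hdeg : h.natDegree + w.natDegree = ∑ i ∈ Zᶜ, d i := by
    rw [← natDegree_mul hh0 hw0, hM.hw, natDegree_prod _ _ hlfne]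
    exact Finset.sum_congr rfl hlfdeg
  have hxy : ∀ l, x l = lam * (u l + z * v l) := hM.hx
  have hevprod : h.eval z * w.eval z = ∏ i ∈ Zᶜ, form (a i) (fun l => u l + z * v l) := by
    rw [← eval_mul, hM.hw, eval_prod]
    exact Finset.prod_congr rfl fun i _ => lf_eval _ _ _ _
  have hformne : ∀ i ∈ Zᶜ, form (a i) (fun l => u l + z * v l) ≠ 0 := by
    intro i hi h0
    apply hP.ne i (Finset.mem_compl.1 hi)
    rw [show x = fun l => lam * (u l + z * v l) from funext hxy, mb_form_smul, h0, mul_zero]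
  have hhw0 : h.eval z * w.eval z ≠ 0 := by
    rw [hevprod]
    exact Finset.prod_ne_zero_iff.2 hformne
  have hhz : h.eval z ≠ 0 := left_ne_zero_of_mul hhw0
  -- the reversed polynomials
  have hrev : ∀ g : L[X], z ≠ 0 → g.reverse.eval z⁻¹ = z⁻¹ ^ g.natDegree * g.eval z := by
    intro g hz
    exact Pool.Agent.Helper74.LG.eval_reflect (inv_mul_cancel₀ hz) _ g le_rfl
  have hrev0 : z = 0 → h.reverse.eval z⁻¹ = 1 := by
    intro hz
    rw [hz, inv_zero, ← coeff_zero_eq_eval_zero, coeff_zero_reverse]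
    exact hM.mon
  -- the logarithmic derivatives
  have hlogs : (z ∈ O → D₂ * (D p (h.eval z) / h.eval z) ∈ O) ∧
      (z⁻¹ ∈ O → D₂ * (D p (h.reverse.eval z⁻¹) / h.reverse.eval z⁻¹) ∈ O) := by
    by_cases hinv : D₁⁻¹ ∈ O
    · -- good valuation rings
      have hmem : ∀ f, D₁ * f ∈ O → f ∈ O := by
        intro f hf
        have h1 := O.mul_mem _ _ hinv hf
        rwa [← mul_assoc, inv_mul_cancel₀ hD₁0, one_mul] at h1
      have hΔinv : Δ⁻¹ ∈ O := by
        have h1 := O.mul_mem _ _ hinv (hV e hM.eV)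
        have h2 : D₁⁻¹ * (Δ * e) = Δ⁻¹ := by
          rw [hD₁]; field_simp
        rwa [h2] at h1
      have hΔmem : ∀ f, Δ * f ∈ O → f ∈ O := by
        intro f hf
        have h1 := O.mul_mem _ _ hΔinv hf
        rwa [← mul_assoc, inv_mul_cancel₀ hΔ0, one_mul] at h1
      have haO : ∀ i J, a i J ∈ O := fun i J => hΔmem _ (haS i J)
      have hAO : A.toSubring ≤ O.toSubring := by
        intro f hf
        have hf' : f ∈ Algebra.adjoin k gens := by rw [hgens]; exact hf
        refine Algebra.adjoin_induction (p := fun f _ => f ∈ O.toSubring) ?_ ?_ ?_ ?_ hf'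
        · intro g hg
          exact hΔmem g (hgS g hg)
        · intro c
          exact hO (hkR c)
        · intro f g _ _ h1 h2
          exact O.toSubring.add_mem h1 h2
        · intro f g _ _ h1 h2
          exact O.toSubring.mul_mem h1 h2
      have hu : ∀ l, u l ∈ O := fun l => hmem _ (hdat _ (hM.uV l))
      have hv : ∀ l, v l ∈ O := fun l => hmem _ (hdat _ (hM.vV l))
      have hco : ∀ n, h.coeff n ∈ O ∧ w.coeff n ∈ O := fun n =>
        ⟨hmem _ (hdat _ (hM.bd n).1), hmem _ (hdat _ (hM.bd n).2.1)⟩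
      obtain ⟨b, b', hπ0, hπV⟩ := hM.pi
      have hπ : (u b * v b' - u b' * v b)⁻¹ ∈ O := hmem _ (hdat _ hπV)
      refine ⟨fun hz => ?_, fun hz => ?_⟩
      · obtain ⟨j, hj, hj'⟩ := mb_prim O (fun l => u l + z * v l) b b'
          (α := v b' * (u b * v b' - u b' * v b)⁻¹)
          (β := -(v b) * (u b * v b' - u b' * v b)⁻¹)
          (O.mul_mem _ _ (hv _) hπ) (O.mul_mem _ _ (O.neg_mem _ (hv _)) hπ) (by
            have h3 : (u b + z * v b) * (v b' * (u b * v b' - u b' * v b)⁻¹) +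
                (u b' + z * v b') * (-(v b) * (u b * v b' - u b' * v b)⁻¹) =
                (u b * v b' - u b' * v b) * (u b * v b' - u b' * v b)⁻¹ := by ring
            rw [h3, mul_inv_cancel₀ hπ0])
        have hyO : ∀ l, (fun l => u l + z * v l) l ∈ O := fun l =>
          O.add_mem _ _ (hu l) (O.mul_mem _ _ hz (hv l))
        have h4 := mb_prod O Zᶜ (fun i => form (a i) (fun l => u l + z * v l)) (fun i hi =>
          mb_units a Z A.toSubring x hP O hAO haO _ hyO lam hlam0 hxy j hj hj' i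
            (Finset.mem_compl.1 hi))
        rw [← hevprod] at h4
        have h5 := Pool.Agent.Helper74.LG.eval_mem O 1 h
          (fun n => by rw [one_mul]; exact (hco n).1) z hz
        have h6 := Pool.Agent.Helper74.LG.eval_mem O 1 w
          (fun n => by rw [one_mul]; exact (hco n).2) z hz
        rw [one_mul] at h5 h6
        exact mb_log O (D p) D₂ (hD₂D p) _ _ h5 h6 h4.1 h4.2.2
      · by_cases hz0 : z = 0
        · rw [hrev0 hz0, Derivation.map_one_eq_zero, zero_div, mul_zero]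
          exact O.zero_mem
        obtain ⟨j, hj, hj'⟩ := mb_prim O (fun l => z⁻¹ * u l + v l) b b'
          (α := -(u b') * (u b * v b' - u b' * v b)⁻¹)
          (β := u b * (u b * v b' - u b' * v b)⁻¹)
          (O.mul_mem _ _ (O.neg_mem _ (hu _)) hπ) (O.mul_mem _ _ (hu _) hπ) (by
            have h3 : (z⁻¹ * u b + v b) * (-(u b') * (u b * v b' - u b' * v b)⁻¹) +
                (z⁻¹ * u b' + v b') * (u b * (u b * v b' - u b' * v b)⁻¹) =
                (u b * v b' - u b' * v b) * (u b * v b' - u b' * v b)⁻¹ := by ring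
            rw [h3, mul_inv_cancel₀ hπ0])
        have hyO : ∀ l, (fun l => z⁻¹ * u l + v l) l ∈ O := fun l =>
          O.add_mem _ _ (O.mul_mem _ _ hz (hu l)) (hv l)
        have hzy : ∀ l, u l + z * v l = z * (z⁻¹ * u l + v l) := by
          intro l
          field_simp
        have h4 := mb_prod O Zᶜ (fun i => form (a i) (fun l => z⁻¹ * u l + v l)) (fun i hi =>
          mb_units a Z A.toSubring x hP O hAO haO _ hyO (lam * z) (mul_ne_zero hlam0 hz0)
            (fun l => by rw [hxy, hzy, mul_assoc]) j hj hj' i (Finset.mem_compl.1 hi))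
        have h7 : h.reverse.eval z⁻¹ * w.reverse.eval z⁻¹ =
            ∏ i ∈ Zᶜ, form (a i) (fun l => z⁻¹ * u l + v l) := by
          rw [hrev h hz0, hrev w hz0]
          have h8 : ∏ i ∈ Zᶜ, form (a i) (fun l => u l + z * v l) =
              z ^ (∑ i ∈ Zᶜ, d i) * ∏ i ∈ Zᶜ, form (a i) (fun l => z⁻¹ * u l + v l) := by
            rw [← Finset.prod_pow_eq_pow_sum, ← Finset.prod_mul_distrib]
            refine Finset.prod_congr rfl fun i _ => ?_
            rw [← mb_form_smul]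
            congr 1
            funext l
            exact hzy l
          have h9 : z⁻¹ ^ h.natDegree * h.eval z * (z⁻¹ ^ w.natDegree * w.eval z) =
              z⁻¹ ^ (h.natDegree + w.natDegree) * (h.eval z * w.eval z) := by
            rw [pow_add]; ring
          rw [h9, hevprod, h8, hdeg, ← mul_assoc, ← mul_pow, inv_mul_cancel₀ hz0, one_pow,
            one_mul]
        rw [← h7] at h4
        have h5 := Pool.Agent.Helper74.LG.eval_mem O 1 h.reverse
          (fun n => by rw [one_mul, coeff_reverse]; exact (hco _).1) z⁻¹ hz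
        have h6 := Pool.Agent.Helper74.LG.eval_mem O 1 w.reverse
          (fun n => by rw [one_mul, coeff_reverse]; exact (hco _).2) z⁻¹ hz
        rw [one_mul] at h5 h6
        exact mb_log O (D p) D₂ (hD₂D p) _ _ h5 h6 h4.1 h4.2.2
    · -- bad valuation rings
      have hQ : ∀ n : ℕ, n ≠ 0 → ((n : L))⁻¹ ∈ R := by
        intro n _
        have h1 := hkR ((n : k)⁻¹)
        rwa [map_inv₀, map_natCast] at h1
      have hbig : ∀ g : L, g ≠ 0 → D₂ * (D p g / g) ∈ O := by
        intro g hg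
        refine log_of R hQ D O hO D₂ ⟨hD₂O, hD₂D⟩ D₁ hD₁0 (Or.inr hinv) (fun q => ?_) g hg p
        have h1 : D₂ * (D q D₁ / D₁) = Δ * D q D₁ := by
          rw [hD₂]; field_simp
        rw [h1]
        exact hb.2 q _ hD₁O
      refine ⟨fun _ => hbig _ hhz, fun _ => hbig _ ?_⟩
      by_cases hz0 : z = 0
      · rw [hrev0 hz0]
        exact one_ne_zero
      · rw [hrev h hz0]
        exact mul_ne_zero (pow_ne_zero _ (inv_ne_zero hz0)) hhz
  have hfin := mason_key O (D p) D₂ hD₂O (hD₂D p) h q s α β α' β' hM.mon hM.deg hM.hq hM.hs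
    hM.h1 hM.h2 (fun n => ⟨hdat2 _ (hM.bd n).2.2.1, hdat2 _ (hM.bd n).2.2.2.1,
      hdat2 _ (hM.bd n).2.2.2.2.1, hdat2 _ (hM.bd n).2.2.2.2.2.1,
      hdat2 _ (hM.bd n).2.2.2.2.2.2.1, hdat2 _ (hM.bd n).2.2.2.2.2.2.2⟩) z hhz
    hlogs.1 hlogs.2
  have hpow : D₂ ^ 2 = Δ ^ 6 * e ^ 2 := by rw [hD₂, hD₁]; ring
  rw [hpow, mul_assoc, mul_assoc (Δ ^ 6)] at hfin
  exact hfin

end MBAux

theorem mason_bound {k L : Type*} [Field k] [Field L] [CharZero L] [Algebra k L] {P T : Type*}
    [Finite P] [Finite T] [DecidableEq T] (y : T → L) (D : P → Derivation ℤ L L)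
    (hy : Dirs k y D) {σ ι : Type*} [Fintype σ] [DecidableEq σ] [Fintype ι] [DecidableEq ι]
    {d : ι → ℕ} (a : (i : ι) → Sym σ (d i) → L) (Z : Finset ι) (A : Subalgebra k L) (hA : A.FG)
    (V : Submodule k L) [FiniteDimensional k V] :
    ∃ V' : Submodule k L, FiniteDimensional k V' ∧
      ∀ (p : P) (x u v : σ → L) (lam z e : L) (h w q s α β α' β' : L[X]),
        MData a Z V (D p) x u v lam z e h w q s α β α' β' → Pt a Z A.toSubring x →
        e ^ 2 * ((D p z - q.eval z) / h.eval z) ∈ V' ∧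
          e ^ 2 * ((D p z - q.eval z) / h.eval z * z) ∈ V' := by
  obtain ⟨gens, hgens⟩ := hA
  obtain ⟨S, hS⟩ : ∃ S : Set L, S = (Set.range fun q : Ix σ d => a q.1 q.2) ∪ (gens : Set L) :=
    ⟨_, rfl⟩
  have hSfin : S.Finite := by
    rw [hS]
    exact (Set.finite_range _).union gens.finite_toSet
  have ht : ∀ (i : T) (b : Bool), (if b then y i else (y i)⁻¹) = y i ∨
      (if b then y i else (y i)⁻¹) = (y i)⁻¹ := by
    intro i b
    cases b
    · right; rfl
    · left; rfl
  choose Δ hΔ0 _ hΔ using fun (i : T) (b : Bool) =>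
    dir_prep (k := k) y D hy V S hSfin i _ (ht i b)
  obtain ⟨V', hV', hmem⟩ := fd_of_dirs (k := k) y D hy (fun i b => Δ i b ^ 6)
    (fun i b => pow_ne_zero _ (hΔ0 i b))
  refine ⟨V', hV', ?_⟩
  intro p x u v lam z e h w q s α β α' β' hM hP
  have key : ∀ i b, ∀ O : ValuationSubring L,
      intCl (others (k := k) y i) (if b then y i else (y i)⁻¹) ≤ O.toSubring →
      Δ i b ^ 6 * (e ^ 2 * ((D p z - q.eval z) / h.eval z)) ∈ O ∧
      Δ i b ^ 6 * (e ^ 2 * ((D p z - q.eval z) / h.eval z * z)) ∈ O := by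
    intro i b O hO
    obtain ⟨h1, h2, h3⟩ := hΔ i b O hO
    have htr : Transcendental (others (k := k) y i) (if b then y i else (y i)⁻¹) := by
      have h4 := others_transcendental y hy.ind i
      cases b
      · exact h4.2
      · exact h4.1
    have hfd : FiniteDimensional (Subfield.closure ((others (k := k) y i : Set L) ∪
        {if b then y i else (y i)⁻¹})) L := by
      have h4 := others_finite y hy.fin i
      cases b
      · exact h4.2
      · exact h4.1
    obtain ⟨hDed, hFrac⟩ := intCl_dedekind _ _ htr hfd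
    have hkR : ∀ c : k, algebraMap k L c ∈
        intCl (others (k := k) y i) (if b then y i else (y i)⁻¹) := by
      intro c
      have h5 : algebraMap k L c ∈ Subring.closure ((others (k := k) y i : Set L) ∪
          {if b then y i else (y i)⁻¹}) := by
        refine Subring.subset_closure (Or.inl ?_)
        exact (IntermediateField.adjoin k (y '' {i}ᶜ)).algebraMap_mem c
      exact isIntegral_algebraMap (R := Subring.closure ((others (k := k) y i : Set L) ∪
          {if b then y i else (y i)⁻¹})) (x := ⟨_, h5⟩)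
    refine mb_key a Z A (gens : Set L) hgens D V
      (intCl (others (k := k) y i) (if b then y i else (y i)⁻¹)) hkR O hO (Δ i b) (hΔ0 i b)
      h1 h2 (fun i' J => h3 _ ?_) (fun f hf => h3 f ?_) p x u v lam z e h w q s α β α' β' hM hP
    · rw [hS]
      exact Or.inl ⟨⟨i', J⟩, rfl⟩
    · rw [hS]
      exact Or.inr hf
  exact ⟨hmem _ fun i b O hO => (key i b O hO).1, hmem _ fun i b O hO => (key i b O hO).2⟩

end Pool.Agent.Helper10.LB
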