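import Pool.Agent.Helper10.LB.PolyD
import Pool.Agent.Helper74.LG.Mason

/-! # LB-MK: the key lemmas at one valuation ring -/

set_option autoImplicit false

namespace Pool.Agent.Helper10.LB

open Polynomial Pool.Agent.Helper8.LG

variable {E : Type*} [Field E] [CharZero E]

theorem mason_key (O : ValuationSubring E) (D : Derivation ℤ E E) (Δ : E) (hΔ : Δ ∈ O)
    (hD : ∀ f ∈ O, Δ * D f ∈ O) (h q s α β α' β' : E[X]) (hmon : h.Monic)
    (hr : 3 ≤ h.natDegree) (hq : q.natDegree < h.natDegree)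
    (hs : mapD D h + derivative h * q = h * s)
    (h1 : α * h + β * derivative h = 1) (h2 : α' * h.reverse + β' * derivative h.reverse = 1)
    (bd : ∀ n, Δ * q.coeff n ∈ O ∧ Δ * s.coeff n ∈ O ∧ Δ * α.coeff n ∈ O ∧
      Δ * β.coeff n ∈ O ∧ Δ * α'.coeff n ∈ O ∧ Δ * β'.coeff n ∈ O)
    (z : E) (hz : h.eval z ≠ 0)
    (hlog : z ∈ O → Δ * (D (h.eval z) / h.eval z) ∈ O)
    (hlog' : z⁻¹ ∈ O → Δ * (D (h.reverse.eval z⁻¹) / h.reverse.eval z⁻¹) ∈ O) :
    Δ ^ 2 * ((D z - q.eval z) / h.eval z) ∈ O ∧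
      Δ ^ 2 * ((D z - q.eval z) / h.eval z * z) ∈ O := by
  have h3 := Pool.Agent.Helper74.LG.mason_key D h.natDegree hr h q s α β α' β' hmon rfl h1 h2 hq
    hs z hz O Δ hD (fun n => (bd n).1) (fun n => (bd n).2.1) (fun n => (bd n).2.2.1)
    (fun n => (bd n).2.2.2.1) (fun n => (bd n).2.2.2.2.1) (fun n => (bd n).2.2.2.2.2)
    hlog (fun _ => hlog')
  refine ⟨h3.1, ?_⟩
  rw [mul_comm _ z]
  exact h3.2

theorem tail_key (O : ValuationSubring E) (D : Derivation ℤ E E) (Δ : E) (hΔ : Δ ∈ O)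
    (hD : ∀ f ∈ O, Δ * D f ∈ O) (q : E[X]) (hq : 3 ≤ q.natDegree)
    (bd : ∀ n, Δ * q.coeff n ∈ O) (z : E) (hz : D z = q.eval z) :
    Δ * q.leadingCoeff ∈ O ∧ Δ * (q.leadingCoeff * z) ∈ O :=
  ⟨bd _, Pool.Agent.Helper74.LG.tail_key D q hq z hz O Δ hD bd⟩

theorem root_key (O : ValuationSubring E) (Δ : E) (g : E[X]) (hg : g ≠ 0)
    (bd : ∀ n, Δ * g.coeff n ∈ O) (z : E) (hz : g.eval z = 0) :
    Δ * (g.leadingCoeff * z) ∈ O := by
  by_cases hzO : z ∈ O
  · rw [← mul_assoc]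
    exact O.mul_mem _ _ (bd _) hzO
  · have hz0 : z ≠ 0 := fun h0 => hzO (h0 ▸ O.zero_mem)
    have hv : z⁻¹ ∈ O := (O.mem_or_inv_mem z).resolve_left hzO
    have hdeg : g.natDegree ≠ 0 := by
      intro h0
      rw [eq_C_of_natDegree_eq_zero h0, eval_C] at hz
      apply hg
      rw [eq_C_of_natDegree_eq_zero h0, hz, C_0]
    obtain ⟨m, hm⟩ : ∃ m, g.natDegree = m + 1 := ⟨g.natDegree - 1, by omega⟩
    set v := z⁻¹ with hvdef
    have hvz : v * z = 1 := inv_mul_cancel₀ hz0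
    have e1 : g.eval z = g.eraseLead.eval z + g.leadingCoeff * z ^ (m + 1) := by
      conv_lhs => rw [← eraseLead_add_C_mul_X_pow g]
      rw [hm]
      simp
    have c1 : ∀ i, Δ * g.eraseLead.coeff i ∈ O := by
      intro i
      rw [eraseLead_coeff]
      split_ifs
      · rw [mul_zero]
        exact O.zero_mem
      · exact bd i
    have h1 := Pool.Agent.Helper74.LG.eval_mem_inv O Δ g.eraseLead c1 hvz hv m (by
      have := eraseLead_natDegree_le g
      omega)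
    have h3 : v ^ m * z ^ m = 1 := by rw [← mul_pow, hvz, one_pow]
    have e2 : Δ * (g.leadingCoeff * z) = -(Δ * (v ^ m * g.eraseLead.eval z)) := by
      rw [hz] at e1
      linear_combination (-Δ * g.leadingCoeff * z) * h3 - Δ * v ^ m * e1
    rw [e2]
    exact O.neg_mem _ h1

end Pool.Agent.Helper10.LB
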