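import Pool.Agent.Helper10.LB.RootTail
import Pool.Agent.Helper10.LB.BField

/-! # LB-OB: algebraic elements and solutions of equations of higher degree are bounded -/

set_option autoImplicit false

namespace Pool.Agent.Helper10.LB

open scoped BigOperators
open Polynomial Pool.Agent.Helper8.LG

section

variable {k L Ω : Type*} [Field k] [Field L] [CharZero L] [Algebra k L] [Field Ω]
    {Q : (ℕ → L) →+* Ω}

omit [CharZero L] in
/-- evaluation and the quotient map -/
theorem ob_eval (π : (ℕ → L)[X]) (ζ : ℕ → L) :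
    (π.map Q).eval (Q ζ) = Q fun m => (π.map (Pi.evalRingHom (fun _ : ℕ => L) m)).eval (ζ m) := by
  rw [eval_map, eval₂_at_apply]
  congr 1
  funext m
  have h := eval₂_at_apply (p := π) (Pi.evalRingHom (fun _ : ℕ => L) m) ζ
  rw [eval_map]
  exact h.symm

omit [CharZero L] in
/-- a nonzero coefficient is nonzero almost everywhere -/
theorem ob_ne (hQ : IsUl Q) (f : ℕ → L) (hf : Q f ≠ 0) :
    ∀ᶠ m in (Filter.hyperfilter ℕ : Filter ℕ), f m ≠ 0 :=
  Ultrafilter.eventually_not.2 fun h => hf ((hQ.ker f).2 h)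

/-- an element which is algebraic over the bounded elements is bounded -/
theorem alg_bdd (hQ : IsUl Q) {P T : Type*} [Finite P] [Finite T] [DecidableEq T] (y : T → L)
    (D : P → Derivation ℤ L L) (hy : Dirs k y D) (z : Ω) (hz : IsAlgebraic (BF k hQ) z) :
    z ∈ BF k hQ := by
  obtain ⟨p, hp0, hpz⟩ := hz
  set g : Polynomial Ω := p.map (algebraMap (BF k hQ) Ω) with hg
  have hg0 : g ≠ 0 := by
    rw [hg, Ne, Polynomial.map_eq_zero]
    exact hp0
  have hgz : g.eval z = 0 := by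
    rw [hg, eval_map]
    exact hpz
  have hgc : ∀ n, g.coeff n ∈ BF k hQ := by
    intro n
    rw [hg, coeff_map]
    exact (p.coeff n).2
  obtain ⟨V, hV, π, -, e, heV, he0, hco, -, hmap, -, -, -⟩ :=
    poly_lift (k := k) hQ (fun _ : Unit => g) (fun _ n => hgc n) (fun x : Empty => x.elim)
      (fun x => x.elim)
  obtain ⟨ζ, hζ⟩ := hQ.surj z
  obtain ⟨V', hV', hroot⟩ := root_bound y D hy V
  have hz0 : ∀ᶠ m in (Filter.hyperfilter ℕ : Filter ℕ),
      ((π ()).map (Pi.evalRingHom (fun _ : ℕ => L) m)).eval (ζ m) = 0 := by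
    rw [← hQ.ker, ← ob_eval, hmap, hζ]
    exact hgz
  have hn0 : ∀ᶠ m in (Filter.hyperfilter ℕ : Filter ℕ),
      (π ()).map (Pi.evalRingHom (fun _ : ℕ => L) m) ≠ 0 := by
    have h1 : Q ((π ()).coeff g.natDegree) ≠ 0 := by
      rw [← coeff_map, hmap]
      exact leadingCoeff_ne_zero.2 hg0
    filter_upwards [ob_ne hQ _ h1] with m hm h2
    apply hm
    have h3 := congrArg (fun r => r.coeff g.natDegree) h2
    simp only [coeff_map, coeff_zero] at h3
    exact h3
  let G : ℕ → L[X] := fun m => C (e m) * (π ()).map (Pi.evalRingHom (fun _ : ℕ => L) m)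
  have hGc : ∀ m n, (G m).coeff n ∈ V := by
    intro m n
    show (C (e m) * (π ()).map (Pi.evalRingHom (fun _ : ℕ => L) m)).coeff n ∈ V
    rw [coeff_C_mul, coeff_map]
    exact hco () n m
  rw [mem_BF]
  refine bset_of_fd hQ (V ⊔ V') (fun m => (G m).leadingCoeff * ζ m) (fun m => (G m).leadingCoeff)
    ?_ ?_ ?_ z ?_
  · filter_upwards [hz0, hn0] with m h1 h2
    refine (le_sup_right : V' ≤ V ⊔ V') (hroot (ζ m) (G m) ?_ (hGc m) ?_)
    · exact mul_ne_zero (C_ne_zero.2 (he0 m)) h2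
    · show (C (e m) * (π ()).map (Pi.evalRingHom (fun _ : ℕ => L) m)).eval (ζ m) = 0
      rw [eval_mul, h1, mul_zero]
  · exact Filter.Eventually.of_forall fun m => (le_sup_left : V ≤ V ⊔ V') (hGc m _)
  · filter_upwards [hn0] with m h2
    exact leadingCoeff_ne_zero.2 (mul_ne_zero (C_ne_zero.2 (he0 m)) h2)
  · rw [← hζ, ← map_mul]
    congr 1
    funext m
    exact mul_comm _ _

/-- a solution of `D z = q(z)` with bounded `q` of degree at least three is bounded -/
theorem tail_bdd (hQ : IsUl Q) {P T : Type*} [Finite P] [Finite T] [DecidableEq T] (y : T → L)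
    (D : P → Derivation ℤ L L) (hy : Dirs k y D) (p : P) (q : Polynomial Ω)
    (hq : ∀ n, q.coeff n ∈ BF k hQ) (hdeg : 3 ≤ q.natDegree) (z : Ω)
    (hz : ulDer Q hQ.surj hQ.ker (D p) z = q.eval z) : z ∈ BF k hQ := by
  have hq0 : q ≠ 0 := by
    rintro rfl
    simp at hdeg
  obtain ⟨V, hV, π, -, e, heV, he0, hco, -, hmap, hdegπ, -, -⟩ :=
    poly_lift (k := k) hQ (fun _ : Unit => q) (fun _ n => hq n) (fun x : Empty => x.elim)
      (fun x => x.elim)
  obtain ⟨ζ, hζ⟩ := hQ.surj z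
  obtain ⟨V', hV', htail⟩ := tail_bound y D hy V
  let q' : ℕ → L[X] := fun m => (π ()).map (Pi.evalRingHom (fun _ : ℕ => L) m)
  have hz1 : ∀ᶠ m in (Filter.hyperfilter ℕ : Filter ℕ), D p (ζ m) = (q' m).eval (ζ m) := by
    rw [← ul_eq Q hQ.ker (fun m => D p (ζ m)) (fun m => (q' m).eval (ζ m))]
    show (Q fun m => D p (ζ m)) =
      Q fun m => ((π ()).map (Pi.evalRingHom (fun _ : ℕ => L) m)).eval (ζ m)
    rw [← ob_eval, hmap, ← ulDer_apply Q hQ.surj hQ.ker, hζ]
    exact hz
  have hlead : ∀ᶠ m in (Filter.hyperfilter ℕ : Filter ℕ), (q' m).coeff q.natDegree ≠ 0 := by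
    have h1 : Q ((π ()).coeff q.natDegree) ≠ 0 := by
      rw [← coeff_map, hmap]
      exact leadingCoeff_ne_zero.2 hq0
    filter_upwards [ob_ne hQ _ h1] with m hm
    show ((π ()).map (Pi.evalRingHom (fun _ : ℕ => L) m)).coeff q.natDegree ≠ 0
    rw [coeff_map]
    exact hm
  have hc : ∀ n m, e m * (q' m).coeff n ∈ V := by
    intro n m
    show e m * ((π ()).map (Pi.evalRingHom (fun _ : ℕ => L) m)).coeff n ∈ V
    rw [coeff_map]
    exact hco () n m
  have hkey : ∀ᶠ m in (Filter.hyperfilter ℕ : Filter ℕ),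
      (e m * (q' m).leadingCoeff ∈ V' ∧ e m * ((q' m).leadingCoeff * ζ m) ∈ V') ∧
        e m * (q' m).leadingCoeff ≠ 0 := by
    filter_upwards [hz1, hlead] with m h1 h2
    refine ⟨htail p (ζ m) (e m) (q' m) (heV m) (he0 m) (fun n => hc n m) ?_ h1, ?_⟩
    · exact hdeg.trans (le_natDegree_of_ne_zero h2)
    · refine mul_ne_zero (he0 m) (leadingCoeff_ne_zero.2 fun h3 => h2 ?_)
      rw [h3, coeff_zero]
  rw [mem_BF]
  refine bset_of_fd hQ V' (fun m => e m * ((q' m).leadingCoeff * ζ m))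
    (fun m => e m * (q' m).leadingCoeff) ?_ ?_ ?_ z ?_
  · filter_upwards [hkey] with m h using h.1.2
  · filter_upwards [hkey] with m h using h.1.1
  · filter_upwards [hkey] with m h using h.2
  · rw [← hζ, ← map_mul]
    congr 1
    funext m
    show ζ m * (e m * (q' m).leadingCoeff) = e m * ((q' m).leadingCoeff * ζ m)
    ring

end

end Pool.Agent.Helper10.LB
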