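import Pool.Agent.Helper10.LB.FieldArith
import Pool.Agent.Helper8.LG.FieldMain

/-! # LB-PA: arithmetic rings, projective points, with a change of coordinates -/

set_option autoImplicit false

open MvPolynomial

namespace Pool.Agent.Helper10.LB

open scoped BigOperators LinearAlgebra.Projectivization
open Pool.Agent.Helper8.LG

private theorem parith_mon_div {L : Type*} [Field L] {N n : ℕ} (x : Fin (N + 1) → L) (t : L)
    (J : Sym (Fin (N + 1)) n) : mon (fun i => x i / t) J = mon x J / t ^ n := by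
  rw [mon, mon, Multiset.prod_map_div, Multiset.map_const', Multiset.prod_replicate]
  rw [Sym.card_coe]

private theorem parith_form_div {L : Type*} [Field L] {N n : ℕ} (F : MvPolynomial (Fin (N + 1)) L)
    (hF : F.IsHomogeneous n) (x : Fin (N + 1) → L) (t : L) :
    form (cf n F) (fun i => x i / t) = eval x F / t ^ n := by
  rw [← form_cf F hF x, form, form, Finset.sum_div]
  refine Finset.sum_congr rfl (fun J _ => ?_)
  rw [parith_mon_div, mul_div_assoc]

private theorem parith_mon_map {L M : Type*} [Field L] [Field M] [Algebra L M] {N n : ℕ}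
    (x : Fin (N + 1) → L) (J : Sym (Fin (N + 1)) n) :
    mon (fun i => algebraMap L M (x i)) J = algebraMap L M (mon x J) := by
  rw [mon, mon, map_multiset_prod, Multiset.map_map]
  rfl

theorem proj_arith {L M : Type*} [Field L] [Field M] [CharZero M]
    [Algebra L M] (hfg : (⊤ : IntermediateField ℚ M).FG) {N r : ℕ}
    (d : Fin r → ℕ) (hd : ∀ i, 0 < d i) (F : Fin r → MvPolynomial (Fin (N + 1)) L)
    (hF : ∀ i, (F i).IsHomogeneous (d i)) (g : GL (Fin (N + 1)) M) (c : ℕ)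
    (Z : Finset (Fin r))
    (hcoef : ((∑ i, (N + d i).choose N : ℕ) : Cardinal) ≤
      Algebra.trdeg ℚ (coeffField ℚ fun i => subst (g : Matrix _ _ M) (F i)) + c)
    (hnum : 2 * N + 1 + c ≤ ∑ i, d i + Z.card) (hN : N + 2 ≤ ∑ i, d i)
    (A : Subalgebra ℤ M) (hA : A.FG) :
    {x : ℙ L (Fin (N + 1) → L) |
      (∀ i ∈ Z, eval x.rep (F i) = 0) ∧
      ∀ i ∉ Z, eval x.rep (F i) ≠ 0 ∧ ∀ J : Sym (Fin (N + 1)) (d i),
        algebraMap L M (mon x.rep J / eval x.rep (F i)) ∈ A}.Finite := by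
  classical
  obtain ⟨h, hh⟩ : ∃ h : Matrix (Fin (N + 1)) (Fin (N + 1)) M,
      h = (g⁻¹ : GL (Fin (N + 1)) M).1 := ⟨_, rfl⟩
  have hgh : (g : Matrix (Fin (N + 1)) (Fin (N + 1)) M) * h = 1 := by
    rw [hh]; exact Units.mul_inv g
  -- the coordinates over `M`
  obtain ⟨ξ, hξ⟩ : ∃ ξ : ℙ L (Fin (N + 1) → L) → Fin (N + 1) → M,
      ξ = fun x i => algebraMap L M (x.rep i) := ⟨_, rfl⟩
  have hgy : ∀ x, (g : Matrix (Fin (N + 1)) (Fin (N + 1)) M).mulVec (h.mulVec (ξ x)) = ξ x := by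
    intro x
    rw [Matrix.mulVec_mulVec, hgh, Matrix.one_mulVec]
  have hy0 : ∀ x, h.mulVec (ξ x) ≠ 0 := by
    intro x hx
    have h1 := hgy x
    rw [hx, Matrix.mulVec_zero, hξ] at h1
    refine x.rep_nonzero (funext fun i => ?_)
    have h2 := congrFun h1 i
    simp only [Pi.zero_apply] at h2 ⊢
    exact (map_eq_zero_iff _ (algebraMap L M).injective).1 h2.symm
  -- the new polynomials
  obtain ⟨F', hF'⟩ : ∃ F' : Fin r → MvPolynomial (Fin (N + 1)) M,
      F' = fun i => subst (g : Matrix _ _ M) (F i) := ⟨_, rfl⟩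
  have hF'h : ∀ i, (F' i).IsHomogeneous (d i) := by
    intro i; rw [hF']; exact subst_hom _ _ (hF i)
  have hev : ∀ x i, eval (h.mulVec (ξ x)) (F' i) = algebraMap L M (eval x.rep (F i)) := by
    intro x i
    rw [hF']
    simp only
    rw [eval_subst, hgy, hξ]
    simp only
    rw [aeval_def]
    exact (eval₂_comp_left (algebraMap L M) (RingHom.id L) x.rep (F i)).symm
  rw [← hF'] at hcoef
  -- the new algebra
  obtain ⟨A', hA'⟩ : ∃ A' : Subalgebra ℤ M,
      A' = A ⊔ Algebra.adjoin ℤ (Set.range fun p : Fin (N + 1) × Fin (N + 1) => h p.1 p.2) :=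
    ⟨_, rfl⟩
  have hAA' : A ≤ A' := by rw [hA']; exact le_sup_left
  have hhA' : ∀ i j, h i j ∈ A' := by
    intro i j
    rw [hA']
    exact (le_sup_right : _ ≤ A ⊔ Algebra.adjoin ℤ (Set.range fun p : Fin (N + 1) ×
      Fin (N + 1) => h p.1 p.2)) (Algebra.subset_adjoin ⟨(i, j), rfl⟩)
  have hA'fg : A'.FG := by
    rw [hA']
    refine hA.sup ?_
    have h1 := Subalgebra.fg_adjoin_finset (R := ℤ) (A := M)
      (Finset.univ.image fun p : Fin (N + 1) × Fin (N + 1) => h p.1 p.2)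
    rwa [Finset.coe_image, Finset.coe_univ, Set.image_univ] at h1
  have hc : (Fintype.card (Ix (Fin (N + 1)) d) : Cardinal) ≤ Algebra.trdeg ℚ
      (IntermediateField.adjoin ℚ
        (Set.range fun p : Ix (Fin (N + 1)) d => cf (d p.1) (F' p.1) p.2)) + c := by
    rw [card_Ix, ← coeffField_eq ℚ d F' hF'h]
    exact hcoef
  -- the normalised points
  obtain ⟨S, hSdef⟩ : ∃ S : Fin (N + 1) → Set (Fin (N + 1) → M),
      S = fun i₀ => {x : Fin (N + 1) → M | x i₀ = 1 ∧
        (∀ i ∈ Z, form (cf (d i) (F' i)) x = 0) ∧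
        ∀ i ∉ Z, form (cf (d i) (F' i)) x ≠ 0 ∧ ∀ J : Sym (Fin (N + 1)) (d i),
          mon x J / form (cf (d i) (F' i)) x ∈ A'} := ⟨_, rfl⟩
  have hS : ∀ i₀, (S i₀).Finite := by
    intro i₀
    rw [hSdef]
    refine field_arith hfg d hd (fun i => cf (d i) (F' i)) c hc Z i₀ ?_ ?_ A' hA'fg
    · rw [Fintype.card_fin]
      omega
    · rw [Fintype.card_fin]
      omega
  have hcov : {x : ℙ L (Fin (N + 1) → L) |
      (∀ i ∈ Z, eval x.rep (F i) = 0) ∧
      ∀ i ∉ Z, eval x.rep (F i) ≠ 0 ∧ ∀ J : Sym (Fin (N + 1)) (d i),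
        algebraMap L M (mon x.rep J / eval x.rep (F i)) ∈ A}
      ⊆ ⋃ i₀ : Fin (N + 1), {x : ℙ L (Fin (N + 1) → L) | h.mulVec (ξ x) i₀ ≠ 0 ∧
          (fun l => h.mulVec (ξ x) l / h.mulVec (ξ x) i₀) ∈ S i₀} := by
    rintro x ⟨h1, h2⟩
    obtain ⟨i₀, hi₀⟩ : ∃ i₀, h.mulVec (ξ x) i₀ ≠ 0 := by
      by_contra hne
      push Not at hne
      exact hy0 x (funext hne)
    rw [Set.mem_iUnion]
    refine ⟨i₀, hi₀, ?_⟩
    obtain ⟨t, ht⟩ : ∃ t, t = h.mulVec (ξ x) i₀ := ⟨_, rfl⟩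
    rw [← ht] at hi₀ ⊢
    have hform : ∀ i, form (cf (d i) (F' i)) (fun l => h.mulVec (ξ x) l / t)
        = algebraMap L M (eval x.rep (F i)) / t ^ d i := fun i => by
      rw [parith_form_div (F' i) (hF'h i), hev]
    have htn : ∀ n : ℕ, t ^ n ≠ 0 := fun n => pow_ne_zero n hi₀
    rw [hSdef]
    refine ⟨?_, ?_, ?_⟩
    · change h.mulVec (ξ x) i₀ / t = 1
      rw [← ht]
      exact div_self hi₀
    · intro i hi
      rw [hform, h1 i hi, map_zero, zero_div]
    · intro i hi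
      obtain ⟨h3, h4⟩ := h2 i hi
      refine ⟨?_, ?_⟩
      · rw [hform]
        exact div_ne_zero ((map_ne_zero_iff _ (algebraMap L M).injective).2 h3) (htn _)
      · intro J
        obtain ⟨b, hb, hb'⟩ := mon_mulVec h A'.toSubring hhA' J
        have h7 : mon (fun l => h.mulVec (ξ x) l / t) J
              / form (cf (d i) (F' i)) (fun l => h.mulVec (ξ x) l / t)
            = ∑ J', b J' * algebraMap L M (mon x.rep J' / eval x.rep (F i)) := by
          rw [hform, parith_mon_div, div_div_div_cancel_right₀ (htn _), hb' (ξ x), Finset.sum_div]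
          refine Finset.sum_congr rfl (fun J' _ => ?_)
          rw [map_div₀, hξ]
          simp only
          rw [parith_mon_map, mul_div_assoc]
        rw [h7]
        exact sum_mem (fun J' _ => mul_mem (hb J') (hAA' (h4 J')))
  refine Set.Finite.subset ?_ hcov
  refine Set.finite_iUnion (fun i₀ => ?_)
  refine Set.Finite.of_injOn (f := fun x : ℙ L (Fin (N + 1) → L) =>
    fun l => h.mulVec (ξ x) l / h.mulVec (ξ x) i₀) (fun x hx => hx.2) ?_ (hS i₀)
  intro x hx x' hx' hxx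
  obtain ⟨hx1, -⟩ := hx
  obtain ⟨hx1', -⟩ := hx'
  have hxl : ∀ l, h.mulVec (ξ x) l
      = h.mulVec (ξ x) i₀ / h.mulVec (ξ x') i₀ * h.mulVec (ξ x') l := by
    intro l
    have h1 : h.mulVec (ξ x) l / h.mulVec (ξ x) i₀ = h.mulVec (ξ x') l / h.mulVec (ξ x') i₀ :=
      congrFun hxx l
    rw [div_eq_iff hx1] at h1
    rw [h1]
    ring
  obtain ⟨c', hc'⟩ : ∃ c', c' = h.mulVec (ξ x) i₀ / h.mulVec (ξ x') i₀ := ⟨_, rfl⟩
  rw [← hc'] at hxl
  have hc2 : h.mulVec (ξ x) = c' • h.mulVec (ξ x') := funext fun l => by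
    rw [hxl l, Pi.smul_apply, smul_eq_mul]
  have hc1 : ∀ i, c' * algebraMap L M (x'.rep i) = algebraMap L M (x.rep i) := by
    have h1 := congrArg ((g : Matrix (Fin (N + 1)) (Fin (N + 1)) M).mulVec) hc2
    rw [Matrix.mulVec_smul, hgy, hgy, hξ] at h1
    intro i
    exact (congrFun h1 i).symm
  obtain ⟨i₁, hi₁⟩ : ∃ i₁, x'.rep i₁ ≠ 0 := by
    by_contra hne
    push Not at hne
    exact x'.rep_nonzero (funext hne)
  have hi₁' : algebraMap L M (x'.rep i₁) ≠ 0 :=
    (map_ne_zero_iff _ (algebraMap L M).injective).2 hi₁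
  rw [← x.mk_rep, ← x'.mk_rep, Projectivization.mk_eq_mk_iff']
  refine ⟨x.rep i₁ / x'.rep i₁, ?_⟩
  funext i
  apply (algebraMap L M).injective
  rw [Pi.smul_apply, smul_eq_mul, map_mul, map_div₀, ← hc1 i₁, ← hc1 i,
    mul_div_assoc, div_self hi₁', mul_one]

end Pool.Agent.Helper10.LB
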