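import Pool.Agent.Helper10.LB.FinLines
import Pool.Agent.Helper8.LG.FieldMain

/-! # LB-PL: finitely many lines, projective points, with a change of coordinates -/

set_option autoImplicit false

open MvPolynomial

namespace Pool.Agent.Helper10.LB

open scoped BigOperators
open Pool.Agent.Helper8.LG

/-- the `L`-linear map `x ↦ g x` -/
def plMap {L M : Type*} [Field L] [Field M] [Algebra L M] {σ : Type*} [Fintype σ]
    (g : Matrix σ σ M) : (σ → L) →ₗ[L] (σ → M) where
  toFun x := g.mulVec fun i => algebraMap L M (x i)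
  map_add' x y := by
    rw [← Matrix.mulVec_add]
    congr 1
    funext i
    simp
  map_smul' c x := by
    funext j
    simp only [RingHom.id_apply, Pi.smul_apply, Algebra.smul_def, Matrix.mulVec, dotProduct,
      Algebra.algebraMap_self, map_mul, Finset.mul_sum]
    refine Finset.sum_congr rfl fun i _ => ?_
    ring

/-- the `L`-rational points `x` with `g x ∈ W` -/
def plDesc {L M : Type*} [Field L] [Field M] [Algebra L M] {σ : Type*} [Fintype σ]
    (g : Matrix σ σ M) (W : Submodule M (σ → M)) : Submodule L (σ → L) :=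
  (W.restrictScalars L).comap (plMap g)

theorem mem_plDesc {L M : Type*} [Field L] [Field M] [Algebra L M] {σ : Type*} [Fintype σ]
    (g : Matrix σ σ M) (W : Submodule M (σ → M)) (x : σ → L) :
    x ∈ plDesc g W ↔ (g.mulVec fun i => algebraMap L M (x i)) ∈ W := Iff.rfl

theorem finrank_plDesc {L M : Type*} [Field L] [Field M] [Algebra L M] {σ : Type*} [Fintype σ]
    [DecidableEq σ] (g : Matrix σ σ M) (hg : IsUnit g) (W : Submodule M (σ → M)) :
    Module.finrank L (plDesc (L := L) g W) ≤ Module.finrank M W := by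
  classical
  obtain ⟨b, hb⟩ : ∃ b : Module.Basis (Fin (Module.finrank L (plDesc (L := L) g W))) L
      (plDesc (L := L) g W), b = Module.finBasis L _ := ⟨_, rfl⟩
  clear hb
  obtain ⟨m, hm⟩ : ∃ m, m = Module.finrank L (plDesc (L := L) g W) := ⟨_, rfl⟩
  rw [← hm]
  rw [← hm] at b
  -- a left inverse over `L`
  have hinj : Function.Injective
      ((plDesc (L := L) g W).subtype ∘ₗ b.equivFun.symm.toLinearMap) :=
    (Submodule.subtype_injective _).comp b.equivFun.symm.injective
  obtain ⟨ψ, hψ⟩ := LinearMap.exists_leftInverse_of_injective _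
    (LinearMap.ker_eq_bot.2 hinj)
  obtain ⟨V, hV⟩ : ∃ V : Matrix σ (Fin m) L, V = LinearMap.toMatrix'
      ((plDesc (L := L) g W).subtype ∘ₗ b.equivFun.symm.toLinearMap) := ⟨_, rfl⟩
  obtain ⟨U, hU⟩ : ∃ U : Matrix (Fin m) σ L, U = LinearMap.toMatrix' ψ := ⟨_, rfl⟩
  have hUV : U * V = 1 := by
    rw [hU, hV, ← LinearMap.toMatrix'_comp, hψ, LinearMap.toMatrix'_id]
  have hUV' : U.map (algebraMap L M) * V.map (algebraMap L M) = 1 := by
    rw [← Matrix.map_mul, hUV, Matrix.map_one _ (map_zero _) (map_one _)]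
  obtain ⟨u, hu⟩ := hg
  have hleft : (U.map (algebraMap L M) * (u⁻¹ : (Matrix σ σ M)ˣ).1) *
      (g * V.map (algebraMap L M)) = 1 := by
    rw [Matrix.mul_assoc, ← Matrix.mul_assoc _ g, ← hu, Units.inv_mul, Matrix.one_mul, hUV']
  -- the columns of `g V` are in `W`
  have hcol : ∀ j, (g.mulVec fun i => algebraMap L M (V i j)) ∈ W := by
    intro j
    have h1 : (fun i => V i j) = ((b j : plDesc (L := L) g W) : σ → L) := by
      funext i
      rw [hV, LinearMap.toMatrix'_apply]
      rw [LinearMap.comp_apply, LinearEquiv.coe_coe, Module.Basis.equivFun_symm_apply]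
      have h2 : (∑ i, (Pi.single j (1 : L) : Fin m → L) i • b i) = b j := by
        rw [Finset.sum_eq_single j]
        · rw [Pi.single_eq_same, one_smul]
        · intro i _ hi
          rw [Pi.single_eq_of_ne hi, zero_smul]
        · intro h
          exact absurd (Finset.mem_univ j) h
      rw [← h2]
      rfl
    have h3 := (b j).2
    rw [mem_plDesc] at h3
    have h4 : ∀ i, algebraMap L M (V i j)
        = algebraMap L M (((b j : plDesc (L := L) g W) : σ → L) i) := fun i =>
      congrArg _ (congrFun h1 i)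
    simp only [h4]
    exact h3
  have hmem : ∀ c : Fin m → M, (g * V.map (algebraMap L M)).mulVecLin c ∈ W := by
    intro c
    have h1 : (g * V.map (algebraMap L M)).mulVecLin c
        = ∑ j, c j • (g.mulVec fun i => algebraMap L M (V i j)) := by
      funext s
      simp only [Matrix.mulVecLin_apply, Matrix.mulVec, dotProduct, Matrix.mul_apply,
        Matrix.map_apply, Finset.sum_apply, Pi.smul_apply, smul_eq_mul]
      refine Finset.sum_congr rfl fun j _ => ?_
      ring
    rw [h1]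
    exact Submodule.sum_mem _ fun j _ => Submodule.smul_mem _ _ (hcol j)
  have hinj2 : Function.Injective ((g * V.map (algebraMap L M)).mulVecLin.codRestrict W hmem) := by
    intro c c' hcc
    have h1 : (g * V.map (algebraMap L M)).mulVec c = (g * V.map (algebraMap L M)).mulVec c' :=
      congrArg Subtype.val hcc
    have h2 := congrArg ((U.map (algebraMap L M) * (u⁻¹ : (Matrix σ σ M)ˣ).1).mulVec) h1
    rwa [Matrix.mulVec_mulVec, Matrix.mulVec_mulVec, hleft, Matrix.one_mulVec,
      Matrix.one_mulVec] at h2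
  have h3 := LinearMap.finrank_le_finrank_of_injective hinj2
  rwa [Module.finrank_fin_fun] at h3

/-- the `L`-rational points of a subspace over the extension field `M` -/
theorem descend {L M : Type*} [Field L] [Field M] [Algebra L M] {σ : Type*} [Fintype σ]
    [DecidableEq σ] (g : Matrix σ σ M) (hg : IsUnit g) (W : Submodule M (σ → M)) (n : ℕ)
    (hW : Module.finrank M W ≤ n) :
    ∃ W' : Submodule L (σ → L), Module.finrank L W' ≤ n ∧
      ∀ x : σ → L, (g.mulVec fun i => algebraMap L M (x i)) ∈ W → x ∈ W' :=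
  ⟨plDesc g W, (finrank_plDesc g hg W).trans hW, fun _ hx => hx⟩

private theorem pl_mon_smul {M : Type*} [Field M] {N n : ℕ} (c : M) (x : Fin (N + 1) → M)
    (J : Sym (Fin (N + 1)) n) : mon (fun i => c * x i) J = c ^ n * mon x J := by
  rw [mon, mon, Multiset.prod_map_mul, Multiset.map_const', Multiset.prod_replicate, Sym.card_coe]

private theorem pl_mon_map {L M : Type*} [Field L] [Field M] [Algebra L M] {N n : ℕ}
    (x : Fin (N + 1) → L) (J : Sym (Fin (N + 1)) n) :
    mon (fun i => algebraMap L M (x i)) J = algebraMap L M (mon x J) := by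
  rw [mon, mon, map_multiset_prod, Multiset.map_map]
  rfl

private theorem pl_eval_smul {M : Type*} [Field M] {N n : ℕ}
    (F : MvPolynomial (Fin (N + 1)) M) (hF : F.IsHomogeneous n) (c : M)
    (x : Fin (N + 1) → M) : eval (fun i => c * x i) F = c ^ n * eval x F := by
  rw [← form_cf F hF, ← form_cf F hF, form, form, Finset.mul_sum]
  refine Finset.sum_congr rfl (fun J _ => ?_)
  rw [pl_mon_smul]
  ring

theorem proj_lines {k₀ L M : Type*} [Field k₀] [Field L] [Field M] [CharZero M]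
    [Algebra k₀ M] [Algebra L M] (hfg : (⊤ : IntermediateField k₀ M).FG) {N r : ℕ}
    (d : Fin r → ℕ) (hd : ∀ i, 0 < d i) (F : Fin r → MvPolynomial (Fin (N + 1)) L)
    (hF : ∀ i, (F i).IsHomogeneous (d i)) (g : GL (Fin (N + 1)) M) (c : ℕ)
    (Z : Finset (Fin r))
    (hcoef : ((∑ i, (N + d i).choose N : ℕ) : Cardinal) ≤
      Algebra.trdeg k₀ (coeffField k₀ fun i => subst (g : Matrix _ _ M) (F i)) + c)
    (hnum : 2 * N + 1 + c ≤ ∑ i, d i + Z.card) (hN : N + 2 ≤ ∑ i, d i)
    (A : Subalgebra k₀ M) (hA : A.FG) :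
    ∃ Λ : Set (Submodule L (Fin (N + 1) → L)), Λ.Finite ∧
      (∀ W ∈ Λ, Module.finrank L W ≤ 2) ∧
      ∀ x : Fin (N + 1) → L, x ≠ 0 → (∀ i ∈ Z, eval x (F i) = 0) →
        (∀ i ∉ Z, eval x (F i) ≠ 0 ∧ ∀ J : Sym (Fin (N + 1)) (d i),
          IsIntegral A (algebraMap L M (mon x J / eval x (F i)))) → ∃ W ∈ Λ, x ∈ W := by
  classical
  obtain ⟨h, hh⟩ : ∃ h : Matrix (Fin (N + 1)) (Fin (N + 1)) M,
      h = (g⁻¹ : GL (Fin (N + 1)) M).1 := ⟨_, rfl⟩
  have hgh : (g : Matrix (Fin (N + 1)) (Fin (N + 1)) M) * h = 1 := by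
    rw [hh]; exact Units.mul_inv g
  have hunit : IsUnit h := by rw [hh]; exact Units.isUnit _
  -- the coordinates over `M`
  obtain ⟨ξ, hξ⟩ : ∃ ξ : (Fin (N + 1) → L) → Fin (N + 1) → M,
      ξ = fun x i => algebraMap L M (x i) := ⟨_, rfl⟩
  have hgy : ∀ x, (g : Matrix (Fin (N + 1)) (Fin (N + 1)) M).mulVec (h.mulVec (ξ x)) = ξ x := by
    intro x
    rw [Matrix.mulVec_mulVec, hgh, Matrix.one_mulVec]
  have hy0 : ∀ x, x ≠ 0 → h.mulVec (ξ x) ≠ 0 := by
    intro x hx0 hx
    have h1 := hgy x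
    rw [hx, Matrix.mulVec_zero, hξ] at h1
    refine hx0 (funext fun i => ?_)
    have h2 := congrFun h1 i
    simp only [Pi.zero_apply] at h2 ⊢
    exact (map_eq_zero_iff _ (algebraMap L M).injective).1 h2.symm
  -- the new polynomials
  obtain ⟨F', hF'⟩ : ∃ F' : Fin r → MvPolynomial (Fin (N + 1)) M,
      F' = fun i => subst (g : Matrix _ _ M) (F i) := ⟨_, rfl⟩
  have hF'h : ∀ i, (F' i).IsHomogeneous (d i) := by
    intro i; rw [hF']; exact subst_hom _ _ (hF i)
  have hev : ∀ x i, eval (h.mulVec (ξ x)) (F' i) = algebraMap L M (eval x (F i)) := by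
    intro x i
    rw [hF']
    simp only
    rw [eval_subst, hgy, hξ]
    simp only
    rw [aeval_def]
    exact (eval₂_comp_left (algebraMap L M) (RingHom.id L) x (F i)).symm
  rw [← hF'] at hcoef
  -- the new algebra
  obtain ⟨A', hA'⟩ : ∃ A' : Subalgebra k₀ M,
      A' = A ⊔ Algebra.adjoin k₀ (Set.range fun p : Fin (N + 1) × Fin (N + 1) => h p.1 p.2) :=
    ⟨_, rfl⟩
  have hAA' : A ≤ A' := by rw [hA']; exact le_sup_left
  have hhA' : ∀ i j, h i j ∈ A' := by
    intro i j
    rw [hA']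
    exact (le_sup_right : _ ≤ A ⊔ Algebra.adjoin k₀ (Set.range fun p : Fin (N + 1) ×
      Fin (N + 1) => h p.1 p.2)) (Algebra.subset_adjoin ⟨(i, j), rfl⟩)
  have hA'fg : A'.FG := by
    rw [hA']
    refine hA.sup ?_
    have h1 := Subalgebra.fg_adjoin_finset (R := k₀) (A := M)
      (Finset.univ.image fun p : Fin (N + 1) × Fin (N + 1) => h p.1 p.2)
    rwa [Finset.coe_image, Finset.coe_univ, Set.image_univ] at h1
  have hc : (Fintype.card (Ix (Fin (N + 1)) d) : Cardinal) ≤ Algebra.trdeg k₀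
      (IntermediateField.adjoin k₀
        (Set.range fun p : Ix (Fin (N + 1)) d => cf (d p.1) (F' p.1) p.2)) + c := by
    rw [card_Ix, ← coeffField_eq k₀ d F' hF'h]
    exact hcoef
  have hlines : ∀ i₀ : Fin (N + 1), ∃ Λ : Set (Submodule M (Fin (N + 1) → M)), Λ.Finite ∧
      (∀ W ∈ Λ, Module.finrank M W ≤ 2) ∧ ∀ x : Fin (N + 1) → M, x i₀ = 1 →
        Pt (fun i => cf (d i) (F' i)) Z A'.toSubring x → ∃ W ∈ Λ, x ∈ W := by
    intro i₀
    refine fin_lines hfg d hd (fun i => cf (d i) (F' i)) c hc Z i₀ ?_ ?_ A' hA'fg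
    · rw [Fintype.card_fin]
      omega
    · rw [Fintype.card_fin]
      omega
  choose Λ hΛ1 hΛ2 hΛ3 using hlines
  refine ⟨⋃ i₀, plDesc (L := L) h '' Λ i₀, Set.finite_iUnion fun i₀ => (hΛ1 i₀).image _, ?_, ?_⟩
  · intro W hW
    obtain ⟨i₀, hi₀⟩ := Set.mem_iUnion.1 hW
    obtain ⟨W₁, hW₁, rfl⟩ := hi₀
    exact (finrank_plDesc h hunit W₁).trans (hΛ2 i₀ W₁ hW₁)
  · intro x hx0 hxZ hxF
    obtain ⟨i₀, hi₀⟩ : ∃ i₀, h.mulVec (ξ x) i₀ ≠ 0 := by
      by_contra hne
      push Not at hne
      exact hy0 x hx0 (funext hne)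
    obtain ⟨u, hu⟩ : ∃ u : M, u = (h.mulVec (ξ x) i₀)⁻¹ := ⟨_, rfl⟩
    have hu0 : u ≠ 0 := by rw [hu]; exact inv_ne_zero hi₀
    obtain ⟨y, hy⟩ : ∃ y : Fin (N + 1) → M, y = fun i => u * h.mulVec (ξ x) i := ⟨_, rfl⟩
    have hevy : ∀ i, form (cf (d i) (F' i)) y = u ^ d i * algebraMap L M (eval x (F i)) := by
      intro i
      rw [form_cf (F' i) (hF'h i), hy, pl_eval_smul (F' i) (hF'h i), hev]
    have hPt : Pt (fun i => cf (d i) (F' i)) Z A'.toSubring y := by
      refine ⟨?_, ?_, ?_⟩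
      · intro i hi
        rw [hevy, hxZ i hi, map_zero, mul_zero]
      · intro i hi
        rw [hevy]
        exact mul_ne_zero (pow_ne_zero _ hu0)
          ((map_ne_zero_iff _ (algebraMap L M).injective).2 (hxF i hi).1)
      · intro i hi J
        obtain ⟨b, hb, hb'⟩ := mon_mulVec h A'.toSubring hhA' J
        have h7 : mon y J / form (cf (d i) (F' i)) y
            = ∑ J', b J' * algebraMap L M (mon x J' / eval x (F i)) := by
          rw [hevy, hy, pl_mon_smul, mul_div_mul_left _ _ (pow_ne_zero _ hu0), hb' (ξ x),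
            Finset.sum_div]
          refine Finset.sum_congr rfl (fun J' _ => ?_)
          rw [map_div₀, hξ]
          simp only
          rw [pl_mon_map, mul_div_assoc]
        rw [h7]
        refine IsIntegral.sum _ (fun J' _ => ?_)
        refine IsIntegral.mul ?_ ?_
        · exact isIntegral_algebraMap (R := A'.toSubring) (A := M) (x := ⟨b J', hb J'⟩)
        · exact ((hxF i hi).2 J').map_of_comp_eq
            (Subring.inclusion (S := A.toSubring) (T := A'.toSubring) hAA') (RingHom.id M) rfl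
    have hy1 : y i₀ = 1 := by
      rw [hy]
      simp only
      rw [hu, inv_mul_cancel₀ hi₀]
    obtain ⟨W, hW, hyW⟩ := hΛ3 i₀ y hy1 hPt
    refine ⟨plDesc h W, Set.mem_iUnion.2 ⟨i₀, W, hW, rfl⟩, ?_⟩
    rw [mem_plDesc]
    have h8 : (h.mulVec fun i => algebraMap L M (x i)) = u⁻¹ • y := by
      funext i
      rw [hy, Pi.smul_apply, smul_eq_mul, ← mul_assoc, inv_mul_cancel₀ hu0, one_mul, hξ]
    rw [h8]
    exact W.smul_mem _ hyW

end Pool.Agent.Helper10.LB
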