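import Pool.Agent.Helper10.LB.DirPrep

/-! # LB-RT: roots of bounded polynomials; equations of higher degree -/

set_option autoImplicit false

namespace Pool.Agent.Helper10.LB

open scoped BigOperators
open Polynomial Pool.Agent.Helper8.LG

theorem tail_bound {k L : Type*} [Field k] [Field L] [CharZero L] [Algebra k L] {P T : Type*}
    [Finite P] [Finite T] [DecidableEq T] (y : T → L) (D : P → Derivation ℤ L L)
    (hy : Dirs k y D) (V : Submodule k L) [FiniteDimensional k V] :
    ∃ V' : Submodule k L, FiniteDimensional k V' ∧ ∀ (p : P) (z e : L) (q : L[X]),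
      e ∈ V → e ≠ 0 → (∀ n, e * q.coeff n ∈ V) → 3 ≤ q.natDegree → D p z = q.eval z →
      e * q.leadingCoeff ∈ V' ∧ e * (q.leadingCoeff * z) ∈ V' := by
  have hprep : ∀ (i : T) (b : Bool), ∃ Δ : L, Δ ≠ 0 ∧
      Δ ∈ intCl (others (k := k) y i) (if b then y i else (y i)⁻¹) ∧
      ∀ O : ValuationSubring L,
        intCl (others (k := k) y i) (if b then y i else (y i)⁻¹) ≤ O.toSubring →
        Bdd D Δ O ∧ (∀ f ∈ V, Δ * f ∈ O) ∧ ∀ f ∈ (∅ : Set L), Δ * f ∈ O := by
    intro i b
    refine dir_prep y D hy V ∅ Set.finite_empty i _ ?_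
    cases b
    · right; simp
    · left; simp
  choose Δ h0 _ hΔ using hprep
  obtain ⟨V', hV', hfd⟩ := fd_of_dirs y D hy (fun i b => Δ i b ^ 2)
    (fun i b => pow_ne_zero 2 (h0 i b))
  refine ⟨V', hV', fun p z e q heV _ hq hdeg hz => ?_⟩
  have key : ∀ (i : T) (b : Bool) (O : ValuationSubring L),
      intCl (others (k := k) y i) (if b then y i else (y i)⁻¹) ≤ O.toSubring →
      Δ i b ^ 2 * e * q.leadingCoeff ∈ O ∧ Δ i b ^ 2 * e * (q.leadingCoeff * z) ∈ O := by
    intro i b O hO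
    obtain ⟨⟨hb1, hb2⟩, hV, -⟩ := hΔ i b O hO
    have he : Δ i b * e ∈ O := hV e heV
    refine tail_key O (D p) (Δ i b ^ 2 * e) ?_ ?_ q hdeg ?_ z hz
    · have h := O.mul_mem _ _ hb1 he
      have e1 : Δ i b ^ 2 * e = Δ i b * (Δ i b * e) := by ring
      rw [e1]; exact h
    · intro f hf
      have h := O.mul_mem _ _ he (hb2 p f hf)
      have e1 : Δ i b ^ 2 * e * D p f = Δ i b * e * (Δ i b * D p f) := by ring
      rw [e1]; exact h
    · intro n
      have h := O.mul_mem _ _ hb1 (hV _ (hq n))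
      have e1 : Δ i b ^ 2 * e * q.coeff n = Δ i b * (Δ i b * (e * q.coeff n)) := by ring
      rw [e1]; exact h
  constructor
  · refine hfd _ fun i b O hO => ?_
    have h := (key i b O hO).1
    rwa [mul_assoc] at h
  · refine hfd _ fun i b O hO => ?_
    have h := (key i b O hO).2
    rwa [mul_assoc] at h

theorem root_bound {k L : Type*} [Field k] [Field L] [CharZero L] [Algebra k L] {P T : Type*}
    [Finite P] [Finite T] [DecidableEq T] (y : T → L) (D : P → Derivation ℤ L L)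
    (hy : Dirs k y D) (V : Submodule k L) [FiniteDimensional k V] :
    ∃ V' : Submodule k L, FiniteDimensional k V' ∧ ∀ (z : L) (g : L[X]), g ≠ 0 →
      (∀ n, g.coeff n ∈ V) → g.eval z = 0 → g.leadingCoeff * z ∈ V' := by
  have hprep : ∀ (i : T) (b : Bool), ∃ Δ : L, Δ ≠ 0 ∧
      Δ ∈ intCl (others (k := k) y i) (if b then y i else (y i)⁻¹) ∧
      ∀ O : ValuationSubring L,
        intCl (others (k := k) y i) (if b then y i else (y i)⁻¹) ≤ O.toSubring →
        Bdd D Δ O ∧ (∀ f ∈ V, Δ * f ∈ O) ∧ ∀ f ∈ (∅ : Set L), Δ * f ∈ O := by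
    intro i b
    refine dir_prep y D hy V ∅ Set.finite_empty i _ ?_
    cases b
    · right; simp
    · left; simp
  choose Δ h0 _ hΔ using hprep
  obtain ⟨V', hV', hfd⟩ := fd_of_dirs y D hy Δ h0
  refine ⟨V', hV', fun z g hg hc hz => hfd _ fun i b O hO => ?_⟩
  obtain ⟨-, hV, -⟩ := hΔ i b O hO
  exact root_key O (Δ i b) g hg (fun n => hV _ (hc n)) z hz

end Pool.Agent.Helper10.LB
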