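import Pool.Agent.Helper10.LB.ProjArith
import Pool.Agent.Helper10.LB.ProjLines
import Pool.Agent.Helper10.LB.SecZ
import Pool.Agent.Helper8.LG.Wrap

/-! # LB-WRAP: the theorems over schemes -/

set_option autoImplicit false

open AlgebraicGeometry CategoryTheory CategoryTheory.Limits MvPolynomial

namespace Pool.Agent.Helper10.LB

open Pool.Agent.Helper8.LG

attribute [local instance] MvPolynomial.gradedAlgebra

universe u v

/-- **Finiteness of the sections over arithmetic schemes.** -/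
theorem main_arith (R : CommRingCat.{u}) [Algebra.FiniteType ℤ R] (B : Scheme.{u}) [IsIntegral B]
    (s : B ⟶ Spec R) [LocallyOfFiniteType s] [CharZero B.functionField]
    (U : Scheme.{u}) (π : U ⟶ B) [IsSeparated π] [LocallyOfFiniteType π] [QuasiCompact π]
    {N r : ℕ} (d : Fin r → ℕ) (hd : ∀ i, 0 < d i)
    (F : Fin r → MvPolynomial (Fin (N + 1)) B.functionField)
    (hF : ∀ i, (F i).IsHomogeneous (d i))
    (q : genFib π ⟶ PN N B.functionField) (hq : q ≫ PN.toSpec N _ = pullback.snd _ _)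
    [LocallyQuasiFinite q] (Z : Finset (Fin r))
    (M : Type v) [Field M] [CharZero M] [Algebra B.functionField M]
    (hM : (⊤ : IntermediateField B.functionField M).FG) (g : GL (Fin (N + 1)) M) (c : ℕ)
    (hcoef : ((∑ i, (N + d i).choose N : ℕ) : Cardinal) ≤
      Algebra.trdeg ℚ (coeffField ℚ fun i => subst (g : Matrix _ _ M) (F i)) + c)
    (hnum : 2 * N + 1 + c ≤ ∑ i, d i + Z.card) (hN : N + 2 ≤ ∑ i, d i)
    (hU : ∀ i ∉ Z, ∀ z : genFib π, q z ∈ Proj.basicOpen _ (F i))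
    (hpt : ∀ p : Spec B.functionField ⟶ genFib π, p ≫ pullback.snd _ _ = 𝟙 _ →
      ∀ (t : Spec B.functionField) (x : Fin (N + 1) → B.functionField), IsCoord (q (p t)) x →
      ∀ i ∈ Z, eval x (F i) = 0) :
    {σ : B ⟶ U | σ ≫ π = 𝟙 B}.Finite := by
  classical
  obtain ⟨V, hVne, hV, ⟨A₀, ⟨T, hT⟩, hA₀⟩, hfg₀⟩ := exists_affine_ftZ R s
  have hfg : (⊤ : IntermediateField ℚ M).FG := wrap_fg_trans hfg₀ hM
  -- the functions
  have hfun : ∀ (i : {i : Fin r // i ∉ Z}) (J : Sym (Fin (N + 1)) (d i)),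
      ∃ s : Γ(B, V), B.germToFunctionField V s ≠ 0 ∧
      ∀ (σ : B ⟶ U) (hσ : σ ≫ π = 𝟙 B) (t : Spec B.functionField)
        (x : Fin (N + 1) → B.functionField), IsCoord (q (genPt π σ hσ t)) x →
        ∃ b : Γ(B, V), B.germToFunctionField V s * (mon x J / eval x (F i)) =
          B.germToFunctionField V b := by
    intro i J
    obtain ⟨φ, hφ⟩ := exists_fun π q hq (hd i) (F i) (hF i) (hU i i.2)
      (monX B.functionField J) (monX_hom _ J)
    obtain ⟨s, hs, hsb⟩ := spread π V hV φ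
    refine ⟨s, hs, fun σ hσ t x hx => ?_⟩
    obtain ⟨b, hb⟩ := hsb σ hσ
    refine ⟨b, ?_⟩
    rw [← hb, hφ σ hσ t x hx, eval_monX]
  choose sf hsf hsb using hfun
  let ι := algebraMap B.functionField M
  let S : Set M := ι '' T ∪ Set.range fun p : (Σ i : {i : Fin r // i ∉ Z},
    Sym (Fin (N + 1)) (d i)) => (ι (B.germToFunctionField V (sf p.1 p.2)))⁻¹
  have hSfin : S.Finite := (T.finite_toSet.image ι).union (Set.finite_range _)
  let A : Subalgebra ℤ M := Algebra.adjoin ℤ S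
  have hA : A.FG := Subalgebra.fg_def.mpr ⟨S, hSfin, rfl⟩
  have hιA : ∀ f ∈ A₀, ι f ∈ A := by
    intro f hf
    rw [← hT] at hf
    induction hf using Algebra.adjoin_induction with
    | mem x hx => exact Algebra.subset_adjoin (Or.inl ⟨x, hx, rfl⟩)
    | algebraMap a =>
      have h1 : ι (algebraMap ℤ B.functionField a) = algebraMap ℤ M a :=
        (IsScalarTower.algebraMap_apply ℤ B.functionField M a).symm
      rw [h1]
      exact A.algebraMap_mem _
    | add x y _ _ hx hy =>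
      rw [map_add]
      exact add_mem hx hy
    | mul x y _ _ hx hy =>
      rw [map_mul]
      exact mul_mem hx hy
  have hmain := proj_arith (L := B.functionField) hfg d hd F hF g c Z hcoef hnum hN A hA
  obtain ⟨t⟩ : Nonempty (Spec B.functionField) := inferInstance
  have hfib : ∀ P : Projectivization B.functionField (Fin (N + 1) → B.functionField),
      {σ : B ⟶ U | ∃ hσ : σ ≫ π = 𝟙 B, IsCoord (q (genPt π σ hσ t)) P.rep}.Finite := by
    intro P
    by_cases hne : ∃ σ : B ⟶ U, ∃ hσ : σ ≫ π = 𝟙 B, IsCoord (q (genPt π σ hσ t)) P.rep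
    · obtain ⟨σ₀, hσ₀, h0⟩ := hne
      refine (fib_finite π q hq t (q (genPt π σ₀ hσ₀ t))).subset ?_
      rintro σ ⟨hσ, h1⟩
      exact ⟨hσ, point_unique h1 h0⟩
    · refine Set.Finite.subset Set.finite_empty ?_
      rintro σ ⟨hσ, h1⟩
      exact hne ⟨σ, hσ, h1⟩
  refine (hmain.biUnion fun P _ => hfib P).subset fun σ hσ => ?_
  have hσ' : σ ≫ π = 𝟙 B := hσ
  have hp : (genPt π σ hσ' ≫ q) ≫ PN.toSpec N B.functionField = 𝟙 _ := by
    rw [Category.assoc, hq]
    exact ffib_snd π σ hσ'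
  obtain ⟨x, hx⟩ := exists_coord (genPt π σ hσ' ≫ q) hp t
  have hx' : IsCoord (q (genPt π σ hσ' t)) x := hx
  let P := Projectivization.mk B.functionField x hx'.1
  have hP : IsCoord (q (genPt π σ hσ' t)) P.rep := by
    obtain ⟨a, ha⟩ := Projectivization.exists_smul_eq_mk_rep B.functionField x hx'.1
    have h1 := coord_smul hx' (a : B.functionField) a.ne_zero
    have h2 : (fun i => (a : B.functionField) * x i) = P.rep := ha
    rwa [h2] at h1
  refine Set.mem_biUnion (x := P) ?_ ⟨hσ', hP⟩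
  refine ⟨hpt (genPt π σ hσ') (ffib_snd π σ hσ') t P.rep hP, fun i hiZ => ⟨?_, fun J => ?_⟩⟩
  · have h4 := hU i hiZ (genPt π σ hσ' t)
    rw [Proj.mem_basicOpen] at h4
    intro h5
    exact h4 ((hP.2 (d i) (F i) (hF i)).mpr h5)
  · obtain ⟨b, hb⟩ := hsb ⟨i, hiZ⟩ J σ hσ' t P.rep hP
    have hs0 := hsf ⟨i, hiZ⟩ J
    have h6 : mon P.rep J / eval P.rep (F i) = B.germToFunctionField V b *
        (B.germToFunctionField V (sf ⟨i, hiZ⟩ J))⁻¹ := by
      rw [← hb]
      field_simp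
    rw [h6, map_mul, map_inv₀]
    exact mul_mem (hιA _ (hA₀ b)) (Algebra.subset_adjoin (Or.inr ⟨⟨⟨i, hiZ⟩, J⟩, rfl⟩))

/-- **The sections over an arbitrary base lie on finitely many lines.** -/
theorem main_lines (R : CommRingCat.{u}) (B : Scheme.{u}) [IsIntegral B] (s : B ⟶ Spec R)
    [LocallyOfFiniteType s] [CharZero B.functionField]
    (U : Scheme.{u}) (π : U ⟶ B) [IsSeparated π] [LocallyOfFiniteType π] [QuasiCompact π]
    {N r : ℕ} (d : Fin r → ℕ) (hd : ∀ i, 0 < d i)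
    (F : Fin r → MvPolynomial (Fin (N + 1)) B.functionField)
    (hF : ∀ i, (F i).IsHomogeneous (d i))
    (q : genFib π ⟶ PN N B.functionField) (hq : q ≫ PN.toSpec N _ = pullback.snd _ _)
    (Z : Finset (Fin r)) (k₀ : Subfield B.functionField)
    (hk₀ : ∀ r : R, (Spec.preimage (B.fromSpecStalk (genericPoint B) ≫ s)).hom r ∈ k₀)
    (M : Type v) [Field M] [Algebra B.functionField M]
    (hM : (⊤ : IntermediateField B.functionField M).FG) (g : GL (Fin (N + 1)) M) (c : ℕ)
    (hcoef : ((∑ i, (N + d i).choose N : ℕ) : Cardinal) ≤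
      Algebra.trdeg k₀ (coeffField k₀ fun i => subst (g : Matrix _ _ M) (F i)) + c)
    (hnum : 2 * N + 1 + c ≤ ∑ i, d i + Z.card) (hN : N + 2 ≤ ∑ i, d i)
    (hU : ∀ i ∉ Z, ∀ z : genFib π, q z ∈ Proj.basicOpen _ (F i))
    (hpt : ∀ p : Spec B.functionField ⟶ genFib π, p ≫ pullback.snd _ _ = 𝟙 _ →
      ∀ (t : Spec B.functionField) (x : Fin (N + 1) → B.functionField), IsCoord (q (p t)) x →
      ∀ i ∈ Z, eval x (F i) = 0) :
    ∃ Λ : Set (Submodule B.functionField (Fin (N + 1) → B.functionField)), Λ.Finite ∧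
      (∀ W ∈ Λ, Module.finrank B.functionField W ≤ 2) ∧
      ∀ (σ : B ⟶ U) (hσ : σ ≫ π = 𝟙 B) (t : Spec B.functionField)
        (x : Fin (N + 1) → B.functionField), IsCoord (q (genPt π σ hσ t)) x →
        ∃ W ∈ Λ, x ∈ W := by
  classical
  obtain ⟨V, hVne, hV, ⟨A₀, ⟨T, hT⟩, hA₀⟩, hfg₀⟩ := exists_affine_ft R s k₀ hk₀
  have hfg : (⊤ : IntermediateField k₀ M).FG := wrap_fg_trans hfg₀ hM
  -- the functions
  have hfun : ∀ (i : {i : Fin r // i ∉ Z}) (J : Sym (Fin (N + 1)) (d i)),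
      ∃ s : Γ(B, V), B.germToFunctionField V s ≠ 0 ∧
      ∀ (σ : B ⟶ U) (hσ : σ ≫ π = 𝟙 B) (t : Spec B.functionField)
        (x : Fin (N + 1) → B.functionField), IsCoord (q (genPt π σ hσ t)) x →
        ∃ b : Γ(B, V), B.germToFunctionField V s * (mon x J / eval x (F i)) =
          B.germToFunctionField V b := by
    intro i J
    obtain ⟨φ, hφ⟩ := exists_fun π q hq (hd i) (F i) (hF i) (hU i i.2)
      (monX B.functionField J) (monX_hom _ J)
    obtain ⟨s, hs, hsb⟩ := spread π V hV φ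
    refine ⟨s, hs, fun σ hσ t x hx => ?_⟩
    obtain ⟨b, hb⟩ := hsb σ hσ
    refine ⟨b, ?_⟩
    rw [← hb, hφ σ hσ t x hx, eval_monX]
  choose sf hsf hsb using hfun
  let ι := algebraMap B.functionField M
  let S : Set M := ι '' T ∪ Set.range fun p : (Σ i : {i : Fin r // i ∉ Z},
    Sym (Fin (N + 1)) (d i)) => (ι (B.germToFunctionField V (sf p.1 p.2)))⁻¹
  have hSfin : S.Finite := (T.finite_toSet.image ι).union (Set.finite_range _)
  let A : Subalgebra k₀ M := Algebra.adjoin k₀ S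
  have hA : A.FG := Subalgebra.fg_def.mpr ⟨S, hSfin, rfl⟩
  have hιA : ∀ f ∈ A₀, ι f ∈ A := by
    intro f hf
    rw [← hT] at hf
    induction hf using Algebra.adjoin_induction with
    | mem x hx => exact Algebra.subset_adjoin (Or.inl ⟨x, hx, rfl⟩)
    | algebraMap a =>
      have h1 : ι (algebraMap k₀ B.functionField a) = algebraMap k₀ M a :=
        (IsScalarTower.algebraMap_apply k₀ B.functionField M a).symm
      rw [h1]
      exact A.algebraMap_mem _
    | add x y _ _ hx hy =>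
      rw [map_add]
      exact add_mem hx hy
    | mul x y _ _ hx hy =>
      rw [map_mul]
      exact mul_mem hx hy
  have hchar : CharZero M :=
    charZero_of_injective_algebraMap (algebraMap B.functionField M).injective
  obtain ⟨Λ, hΛ, hΛ2, hmain⟩ :=
    proj_lines (L := B.functionField) hfg d hd F hF g c Z hcoef hnum hN A hA
  refine ⟨Λ, hΛ, hΛ2, fun σ hσ t x hx => ?_⟩
  refine hmain x hx.1 (hpt (genPt π σ hσ) (ffib_snd π σ hσ) t x hx)
    fun i hiZ => ⟨?_, fun J => ?_⟩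
  · have h4 := hU i hiZ (genPt π σ hσ t)
    rw [Proj.mem_basicOpen] at h4
    intro h5
    exact h4 ((hx.2 (d i) (F i) (hF i)).mpr h5)
  · obtain ⟨b, hb⟩ := hsb ⟨i, hiZ⟩ J σ hσ t x hx
    have hs0 := hsf ⟨i, hiZ⟩ J
    have h6 : mon x J / eval x (F i) = B.germToFunctionField V b *
        (B.germToFunctionField V (sf ⟨i, hiZ⟩ J))⁻¹ := by
      rw [← hb]
      field_simp
    rw [h6, map_mul, map_inv₀]
    have h7 : algebraMap B.functionField M (B.germToFunctionField V b) *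
        (algebraMap B.functionField M (B.germToFunctionField V (sf ⟨i, hiZ⟩ J)))⁻¹ ∈ A :=
      mul_mem (hιA _ (hA₀ b)) (Algebra.subset_adjoin (Or.inr ⟨⟨⟨i, hiZ⟩, J⟩, rfl⟩))
    exact isIntegral_algebraMap (R := A) (x := ⟨_, h7⟩)

end Pool.Agent.Helper10.LB
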